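import Mathlib

/-!
MP_ff7426_co, Q1 for union-closed families generated by sets of size at most 3 (helper33).
Definitions and the block inequalities.
-/

set_option autoImplicit false

namespace Pool.Agent.Lib.MP_ff7426_co.U3

variable {α : Type*} [DecidableEq α]

/-- union-closed -/
def Uc (F : Finset (Finset α)) : Prop := ∀ A ∈ F, ∀ B ∈ F, A ∪ B ∈ F

/-- excess of an element : number of members containing it minus number of members missing it -/
def ex (F : Finset (Finset α)) (v : α) : ℤ := ∑ A ∈ F, (if v ∈ A then (1 : ℤ) else -1)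

/-- `W` is a union of members of `J` (the empty union included) -/
def Cov (J : Finset (Finset α)) (W : Finset α) : Prop := ∀ v ∈ W, ∃ h ∈ J, v ∈ h ∧ h ⊆ W

/-- union-irreducible non-empty member -/
def Irr (F : Finset (Finset α)) (A : Finset α) : Prop :=
  A ∈ F ∧ A.Nonempty ∧ ∀ B ∈ F, ∀ C ∈ F, B ∪ C = A → B = A ∨ C = A

/-- a triple of `F` all of whose elements have negative excess -/
def Tri (F : Finset (Finset α)) (h : Finset α) : Prop :=
  h ∈ F ∧ h.card = 3 ∧ ∀ v ∈ h, ex F v < 0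

/-- every element is in at most two members of `H` -/
def Deg2 (H : Finset (Finset α)) : Prop :=
  ∀ v, ∀ h₁ ∈ H, ∀ h₂ ∈ H, ∀ h₃ ∈ H, v ∈ h₁ → v ∈ h₂ → v ∈ h₃ →
    h₁ = h₂ ∨ h₁ = h₃ ∨ h₂ = h₃

/-- the largest member of `F` inside `Y \ {u}` -/
def core (F : Finset (Finset α)) (Y : Finset α) (u : α) : Finset α :=
  (F.filter (fun A => A ⊆ Y.erase u)).sup id

/-- what is lost of `Y \ {u}` -/
def lost (F : Finset (Finset α)) (Y : Finset α) (u : α) : Finset α := (Y.erase u) \ core F Y u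

/-- the account of a block `B` at a set `N` : it pays `x` if `N` is not inside `B`, it gains `y` if
`N` is inside `B` and meets the trigger set `T` -/
def cc (N B T : Finset α) (x y : ℤ) : ℤ :=
  if N ⊆ B then (if (N ∩ T).Nonempty then y else 0) else -x

/-- total account of the block `B` at the vertex `u` -/
def Pay (F : Finset (Finset α)) (u : α) (B T : Finset α) (x y : ℤ) : ℤ :=
  ∑ Y ∈ F, if u ∈ Y then cc (lost F Y u) B T x y else 0

/-- all the block inequalities, for a fixed family (theorem `blocks : Uc F → Blocks F`) -/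
structure Blocks (F : Finset (Finset α)) : Prop where
  /-- leaf type: vertex `u` active -/
  leaf : ∀ u p q : α, u ≠ p → u ≠ q → p ≠ q → {u, p, q} ∈ F →
    0 ≤ 2 * ex F u + 3 * ex F p + 3 * ex F q + Pay F u {u, p, q} {p, q} 2 4
  /-- centre of a spider: all three vertices active -/
  cent : ∀ a b c : α, a ≠ b → a ≠ c → b ≠ c → {a, b, c} ∈ F →
    0 ≤ 4 * ex F a + 4 * ex F b + 4 * ex F c + Pay F a {a, b, c} {b, c} 4 2
      + Pay F b {a, b, c} {a, c} 4 2 + Pay F c {a, b, c} {a, b} 4 2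
  /-- triple of `G'` -/
  e0G : ∀ a b c : α, a ≠ b → a ≠ c → b ≠ c → {a, b, c} ∈ F →
    0 ≤ 3 * ex F a + 3 * ex F b + 4 * ex F c + Pay F a {a, b, c} {c} 3 3
      + Pay F b {a, b, c} {c} 3 3 + Pay F c {a, b, c} {a, b} 4 2
  /-- two active vertices `v, w` -/
  two : ∀ p v w : α, p ≠ v → p ≠ w → v ≠ w → {p, v, w} ∈ F →
    0 ≤ ex F p + ex F v + ex F w + Pay F v {p, v, w} {p, w} 1 1
      + Pay F w {p, v, w} {p, v} 1 1
  /-- triple `{a,b,t}` whose pair `a, b` is active -/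
  pairT : ∀ a b t : α, a ≠ b → a ≠ t → b ≠ t → {a, b, t} ∈ F →
    0 ≤ ex F a + ex F b + 2 * ex F t + Pay F a {a, b, t} {t} 1 2 + Pay F b {a, b, t} {t} 1 2
  /-- triple `{q,a,b}` of `DD` -/
  e0D : ∀ q a b : α, q ≠ a → q ≠ b → a ≠ b → {q, a, b} ∈ F →
    0 ≤ 2 * ex F q + 2 * ex F a + 2 * ex F b + Pay F q {q, a, b} {a, b} 2 2
      + Pay F a {q, a, b} {q} 2 1 + Pay F b {q, a, b} {q} 2 1
  /-- middle triple `{z,q,r}` of `DD` -/
  kD : ∀ z q r : α, z ≠ q → z ≠ r → q ≠ r → {z, q, r} ∈ F →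
    0 ≤ 2 * ex F z + 2 * ex F q + 2 * ex F r + Pay F q {z, q, r} {z, r} 2 2
      + Pay F r {z, q, r} {z, q} 2 2
  /-- four-point block of `H` -/
  HB : ∀ a b c d : α, a ≠ b → a ≠ c → a ≠ d → b ≠ c → b ≠ d → c ≠ d →
    {a, b, c} ∈ F → {a, b, d} ∈ F →
    0 ≤ 7 * ex F a + 8 * ex F b + 6 * ex F c + 6 * ex F d
      + Pay F a {a, b, c, d} {b, c, d} 7 3
  /-- leaf of `H` -/
  HL : ∀ a y z : α, a ≠ y → a ≠ z → y ≠ z → {a, y, z} ∈ F →
    0 ≤ 3 * ex F a + 5 * ex F y + 5 * ex F z + Pay F a {a, y, z} {y, z} 3 7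
  /-- four-point block of `E` -/
  EB : ∀ a b c d : α, a ≠ b → a ≠ c → a ≠ d → b ≠ c → b ≠ d → c ≠ d →
    {a, b, c} ∈ F → {a, b, d} ∈ F →
    0 ≤ 5 * ex F a + 6 * ex F b + 3 * ex F c + 4 * ex F d
      + Pay F a {a, b, c, d} {b, d} 5 2 + Pay F c {a, b, c, d} {b, d} 3 2
  /-- the third triple of `E` -/
  EG : ∀ a c t : α, a ≠ c → a ≠ t → c ≠ t → {a, c, t} ∈ F →
    0 ≤ 2 * ex F a + 2 * ex F c + 4 * ex F t + Pay F a {a, c, t} {t} 2 5
      + Pay F c {a, c, t} {t} 2 3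
  /-- three triples on four points -/
  DB : ∀ a b c d : α, a ≠ b → a ≠ c → a ≠ d → b ≠ c → b ≠ d → c ≠ d →
    {a, b, c} ∈ F → {a, b, d} ∈ F → {a, c, d} ∈ F →
    0 ≤ 4 * ex F a + 3 * ex F b + 3 * ex F c + 3 * ex F d

end Pool.Agent.Lib.MP_ff7426_co.U3
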