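import Pool.Agent.Lib.MP_ff7426_co.U3.Base
set_option autoImplicit false
namespace Pool.Agent.Lib.MP_ff7426_co.U3.Loc

/-- bit mask of a predicate on `{0, …, 2^k - 1}` -/
def mk (k : ℕ) (P : ℕ → Bool) : ℕ := Nat.ofBits (n := 2 ^ k) (fun s => P s.val)

theorem testBit_mk (k : ℕ) (P : ℕ → Bool) (s : ℕ) :
    (mk k P).testBit s = (decide (s < 2 ^ k) && P s) := by
  unfold mk
  by_cases h : s < 2 ^ k
  · rw [Nat.testBit_ofBits_lt _ _ h]; simp [h]
  · rw [Nat.testBit_ofBits_ge _ _ (Nat.le_of_not_lt h)]; simp [h]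

theorem mk_lt (k : ℕ) (P : ℕ → Bool) : mk k P < 2 ^ (2 ^ k) := Nat.ofBits_lt_two_pow _

theorem land_eq_zero_iff (m n : ℕ) : m &&& n = 0 ↔ ∀ t, m.testBit t → ¬ n.testBit t := by
  constructor
  · intro h t h1 h2
    have := congrArg (fun z => z.testBit t) h
    simp [Nat.testBit_and, h1, h2] at this
  · intro h
    apply Nat.eq_of_testBit_eq
    intro t
    rw [Nat.testBit_and, Nat.zero_testBit]
    by_cases h1 : m.testBit t
    · have := h t h1
      simp [h1, this]
    · simp [h1]

theorem land_two_pow_eq_zero (m s : ℕ) : m &&& 2 ^ s = 0 ↔ m.testBit s = false := by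
  rw [land_eq_zero_iff]
  constructor
  · intro h
    by_contra h1
    exact h s (by simpa using h1) (by simp)
  · intro h t h1 h2
    rw [Nat.testBit_two_pow] at h2
    simp at h2
    subst h2
    simp [h] at h1

/-! ### Enumeration -/

noncomputable def okF (m : ℕ) (l : List (ℕ × ℕ)) : Bool :=
  @List.rec (ℕ × ℕ) (fun _ => Bool) true
    (fun p _ ih => cond (Nat.beq (Nat.land m p.1) 0) (cond (Nat.beq (Nat.land m p.2) 0) ih false) ih) l

noncomputable def clF (m : ℕ) (l : List ℕ) : Bool :=
  @List.rec ℕ (fun _ => Bool) true (fun t _ ih => cond (Nat.beq (Nat.land m t) 0) false ih) l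

noncomputable def goF (f : ℕ → Bool) (l : List (ℕ × List ℕ × List (ℕ × ℕ))) : ℕ → Bool :=
  @List.rec (ℕ × List ℕ × List (ℕ × ℕ)) (fun _ => ℕ → Bool) f
    (fun d _ ih m => cond (ih m)
      (cond (clF m d.2.1) (cond (okF m d.2.2) (ih (Nat.add m d.1)) true) true) false) l

theorem beq_land (m n : ℕ) : Nat.beq (Nat.land m n) 0 = true ↔ m &&& n = 0 := by
  rw [Nat.beq_eq]; rfl

theorem okF_iff (m : ℕ) (l : List (ℕ × ℕ)) :
    okF m l = true ↔ ∀ p ∈ l, m &&& p.1 = 0 → m &&& p.2 = 0 := by
  induction l with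
  | nil => simp [okF]
  | cons p l ih =>
    have h : okF m (p :: l) =
      cond (Nat.beq (Nat.land m p.1) 0) (cond (Nat.beq (Nat.land m p.2) 0) (okF m l) false)
        (okF m l) := rfl
    rw [h]
    simp only [List.forall_mem_cons]
    rw [← ih]
    by_cases h1 : m &&& p.1 = 0
    · rw [(beq_land m p.1).2 h1]
      by_cases h2 : m &&& p.2 = 0
      · rw [(beq_land m p.2).2 h2]; simp [h1, h2]
      · have : Nat.beq (Nat.land m p.2) 0 = false := by
          rw [Bool.eq_false_iff]; intro h3; exact h2 ((beq_land _ _).1 h3)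
        rw [this]; simp [h1, h2]
    · have : Nat.beq (Nat.land m p.1) 0 = false := by
        rw [Bool.eq_false_iff]; intro h3; exact h1 ((beq_land _ _).1 h3)
      rw [this]; simp [h1]

theorem clF_iff (m : ℕ) (l : List ℕ) : clF m l = true ↔ ∀ t ∈ l, m &&& t ≠ 0 := by
  induction l with
  | nil => simp [clF]
  | cons t l ih =>
    have h : clF m (t :: l) = cond (Nat.beq (Nat.land m t) 0) false (clF m l) := rfl
    rw [h]
    simp only [List.forall_mem_cons]
    rw [← ih]
    by_cases h1 : m &&& t = 0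
    · rw [(beq_land m t).2 h1]; simp [h1]
    · have : Nat.beq (Nat.land m t) 0 = false := by
        rw [Bool.eq_false_iff]; intro h3; exact h1 ((beq_land _ _).1 h3)
      rw [this]; simp [h1]

/-- data for adding the set `s` -/
def okd (k : ℕ) (cl : List ℕ) (s : ℕ) : ℕ × List ℕ × List (ℕ × ℕ) :=
  (2 ^ s, (cl.filter (fun c => !((s ||| c) == s))).map (fun c => 2 ^ (s ||| c)),
    ((List.range (2 ^ k)).filter (fun u => ((u ||| s) == u) && !(u == s))).map
      (fun u => (2 ^ u, mk k (fun t => (s ||| t) == u))))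

def mkE (k : ℕ) (cl : List ℕ) : List (ℕ × List ℕ × List (ℕ × ℕ)) :=
  (List.range (2 ^ k)).reverse.map (okd k cl)

/-- codes of the union-closed families on `k` points closed under union with the members of `cl` -/
def Valid (k : ℕ) (cl : List ℕ) (M : ℕ) : Prop :=
  M < 2 ^ (2 ^ k) ∧ (∀ s t, M.testBit s = true → M.testBit t = true → M.testBit (s ||| t) = true) ∧
    ∀ s, M.testBit s = true → ∀ c ∈ cl, M.testBit (s ||| c) = true

def hi (M n : ℕ) : ℕ := M / 2 ^ n * 2 ^ n

theorem testBit_hi (M n t : ℕ) : (hi M n).testBit t = (decide (n ≤ t) && M.testBit t) := by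
  unfold hi
  rw [Nat.testBit_mul_two_pow]
  by_cases h : n ≤ t
  · rw [Nat.testBit_div_two_pow]
    simp [h, Nat.sub_add_cancel h]
  · simp [h]

theorem hi_zero (M : ℕ) : hi M 0 = M := by simp [hi]

theorem hi_top (M n : ℕ) (h : M < 2 ^ n) : hi M n = 0 := by
  simp [hi, Nat.div_eq_of_lt h]

theorem hi_succ_false (M n : ℕ) (h : M.testBit n = false) : hi M n = hi M (n + 1) := by
  apply Nat.eq_of_testBit_eq
  intro t
  rw [testBit_hi, testBit_hi]
  rcases Nat.lt_trichotomy n t with h1 | h1 | h1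
  · simp [Nat.le_of_lt h1, Nat.succ_le_of_lt h1]
  · subst h1; simp [h]
  · simp [Nat.not_le_of_lt h1, Nat.not_le_of_lt (Nat.lt_succ_of_lt h1)]

theorem hi_succ_true (M n : ℕ) (h : M.testBit n = true) : hi M n = hi M (n + 1) + 2 ^ n := by
  unfold hi
  have h3 : M / 2 ^ n % 2 = 1 := by
    have := Nat.testBit_eq_decide_div_mod_eq (x := M) (i := n)
    rw [h] at this
    simpa using this.symm
  have h4 : M / 2 ^ (n + 1) = M / 2 ^ n / 2 := by
    rw [pow_succ, Nat.div_div_eq_div_mul]
  rw [h4]
  have h5 : M / 2 ^ n = M / 2 ^ n / 2 * 2 + 1 := by omega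
  calc M / 2 ^ n * 2 ^ n = (M / 2 ^ n / 2 * 2 + 1) * 2 ^ n := by rw [← h5]
    _ = M / 2 ^ n / 2 * 2 ^ (n + 1) + 2 ^ n := by ring

theorem goF_cons (f : ℕ → Bool) (d : ℕ × List ℕ × List (ℕ × ℕ))
    (l : List (ℕ × List ℕ × List (ℕ × ℕ))) (m : ℕ) :
    goF f (d :: l) m = cond (goF f l m)
      (cond (clF m d.2.1) (cond (okF m d.2.2) (goF f l (Nat.add m d.1)) true) true) false := rfl

theorem goF_sound (k : ℕ) (cl : List ℕ) (f : ℕ → Bool) (M : ℕ) (hM : Valid k cl M) :
    ∀ n, n ≤ 2 ^ k → goF f ((List.range n).reverse.map (okd k cl)) (hi M n) = true → f M = true := by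
  intro n
  induction n with
  | zero =>
    intro _ h
    rw [hi_zero] at h
    exact h
  | succ n ih =>
    intro hn h
    have hr : (List.range (n + 1)).reverse.map (okd k cl) =
        okd k cl n :: (List.range n).reverse.map (okd k cl) := by
      rw [List.range_succ, List.reverse_append]; rfl
    rw [hr, goF_cons] at h
    have h1 : goF f ((List.range n).reverse.map (okd k cl)) (hi M (n + 1)) = true := by
      by_contra h2
      rw [Bool.not_eq_true] at h2
      rw [h2] at h
      simp at h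
    rw [h1] at h
    simp only [cond_true] at h
    cases hb : M.testBit n with
    | false =>
      apply ih (by omega)
      rw [hi_succ_false M n hb]
      exact h1
    | true =>
      apply ih (by omega)
      rw [hi_succ_true M n hb]
      have hc : clF (hi M (n + 1)) (okd k cl n).2.1 = true := by
        rw [clF_iff]
        intro t ht
        simp only [okd, List.mem_map, List.mem_filter] at ht
        obtain ⟨c, ⟨hc, hc2⟩, rfl⟩ := ht
        rw [ne_eq, land_two_pow_eq_zero, Bool.not_eq_false, testBit_hi]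
        have h3 := hM.2.2 n hb c hc
        have h4 : n ≤ n ||| c := Nat.left_le_or
        have h5 : n + 1 ≤ n ||| c := by
          rcases Nat.lt_or_ge n (n ||| c) with h6 | h6
          · exact h6
          · exfalso
            have : (n ||| c) = n := Nat.le_antisymm h6 h4
            simp [this] at hc2
        simp [h3, h5]
      have ho : okF (hi M (n + 1)) (okd k cl n).2.2 = true := by
        rw [okF_iff]
        intro p hp
        simp only [okd, List.mem_map, List.mem_filter] at hp
        obtain ⟨u, ⟨hu, hu2⟩, rfl⟩ := hp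
        simp only
        intro h3
        rw [land_two_pow_eq_zero, testBit_hi] at h3
        rw [land_eq_zero_iff]
        intro t ht1 ht2
        rw [testBit_mk] at ht2
        rw [testBit_hi] at ht1
        simp only [Bool.and_eq_true, decide_eq_true_eq, beq_iff_eq, Bool.not_eq_true',
          beq_eq_false_iff_ne] at ht1 ht2 hu2
        have h4 := hM.2.1 n t hb ht1.2
        rw [ht2.2] at h4
        have h5 : n + 1 ≤ u := by
          have : n ≤ u := by rw [← hu2.1]; exact Nat.right_le_or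
          have := hu2.2
          omega
        simp [h4, h5] at h3
      rw [hc, ho] at h
      simp only [cond_true] at h
      cases h6 : goF f ((List.range n).reverse.map (okd k cl)) (hi M (n + 1) + 2 ^ n) with
      | true => rfl
      | false =>
        exfalso
        have h7 : goF f ((List.range n).reverse.map (okd k cl))
            (Nat.add (hi M (n + 1)) (okd k cl n).1) = false := h6
        rw [h7] at h
        exact Bool.noConfusion h

theorem enum_sound (k : ℕ) (cl : List ℕ) (f : ℕ → Bool) (h : goF f (mkE k cl) 0 = true) (M : ℕ)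
    (hM : Valid k cl M) : f M = true := by
  apply goF_sound k cl f M hM (2 ^ k) le_rfl
  rw [hi_top M _ hM.1]
  exact h


/-! ### Values -/

/-- payment data : price, gain, mask of the members below `s` missing the vertex, trigger masks -/
def pdat (k s : ℕ) (a : ℕ × ℕ × ℕ × List ℕ) : List (ℕ × ℕ × ℕ × List ℕ) :=
  if s.testBit a.1 then
    [(a.2.1, a.2.2.1, mk k (fun t => ((t &&& s) == t) && !t.testBit a.1),
      (a.2.2.2.filter (fun j => s.testBit j && !(j == a.1))).map
        (fun j => mk k (fun t => (((t &&& s) == t) && !t.testBit a.1) && t.testBit j)))]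
  else []

def wt (k s : ℕ) (w : List ℕ) : ℤ :=
  ((List.range k).map fun i => if s.testBit i then (w.getD i 0 : ℤ) else -(w.getD i 0 : ℤ)).sum

def mkD (k : ℕ) (w : List ℕ) (act : List (ℕ × ℕ × ℕ × List ℕ)) :
    List (ℕ × ℕ × ℕ × List (ℕ × ℕ × ℕ × List ℕ)) :=
  (List.range (2 ^ k)).map fun s =>
    (2 ^ s, (wt k s w).toNat, (-wt k s w).toNat, act.flatMap (pdat k s))

noncomputable def trF (m : ℕ) (l : List ℕ) : Bool :=
  @List.rec ℕ (fun _ => Bool) false (fun t _ ih => cond (Nat.beq (Nat.land m t) 0) true ih) l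

noncomputable def gF (m : ℕ) (l : List (ℕ × ℕ × ℕ × List ℕ)) : ℕ → ℕ :=
  @List.rec (ℕ × ℕ × ℕ × List ℕ) (fun _ => ℕ → ℕ) (fun a => a)
    (fun p _ ih a => cond (Nat.beq (Nat.land m p.2.2.1) 0) (ih a)
      (cond (trF m p.2.2.2) (ih (Nat.add a p.2.1)) (ih a))) l

noncomputable def lF (m : ℕ) (l : List (ℕ × ℕ × ℕ × List ℕ)) : ℕ → ℕ :=
  @List.rec (ℕ × ℕ × ℕ × List ℕ) (fun _ => ℕ → ℕ) (fun a => a)
    (fun p _ ih a => cond (Nat.beq (Nat.land m p.2.2.1) 0) (ih (Nat.add a p.1)) (ih a)) l

noncomputable def posF (m : ℕ) (l : List (ℕ × ℕ × ℕ × List (ℕ × ℕ × ℕ × List ℕ))) : ℕ → ℕ :=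
  @List.rec (ℕ × ℕ × ℕ × List (ℕ × ℕ × ℕ × List ℕ)) (fun _ => ℕ → ℕ) (fun a => a)
    (fun d _ ih a => cond (Nat.beq (Nat.land m d.1) 0) (ih a) (ih (gF m d.2.2.2 (Nat.add a d.2.1)))) l

noncomputable def negF (m : ℕ) (l : List (ℕ × ℕ × ℕ × List (ℕ × ℕ × ℕ × List ℕ))) : ℕ → ℕ :=
  @List.rec (ℕ × ℕ × ℕ × List (ℕ × ℕ × ℕ × List ℕ)) (fun _ => ℕ → ℕ) (fun a => a)
    (fun d _ ih a => cond (Nat.beq (Nat.land m d.1) 0) (ih a) (ih (lF m d.2.2.2 (Nat.add a d.2.2.1)))) l

noncomputable def chkF (E : List (ℕ × List ℕ × List (ℕ × ℕ)))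
    (D : List (ℕ × ℕ × ℕ × List (ℕ × ℕ × ℕ × List ℕ))) : Bool :=
  goF (fun m => Nat.ble (negF m D 0) (posF m D 0)) E 0

/-- value of a payment entry -/
def payv (m : ℕ) (p : ℕ × ℕ × ℕ × List ℕ) : ℤ :=
  if m &&& p.2.2.1 = 0 then -(p.1 : ℤ) else (if ∃ t ∈ p.2.2.2, m &&& t = 0 then (p.2.1 : ℤ) else 0)

theorem trF_iff (m : ℕ) (l : List ℕ) : trF m l = true ↔ ∃ t ∈ l, m &&& t = 0 := by
  induction l with
  | nil => simp [trF]
  | cons t l ih =>
    have h : trF m (t :: l) = cond (Nat.beq (Nat.land m t) 0) true (trF m l) := rfl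
    rw [h]
    by_cases h1 : m &&& t = 0
    · rw [(beq_land m t).2 h1]; simp [h1]
    · have : Nat.beq (Nat.land m t) 0 = false := by
        rw [Bool.eq_false_iff]; intro h3; exact h1 ((beq_land _ _).1 h3)
      rw [this]; simp [h1, ih]

theorem gl_sub (m : ℕ) (l : List (ℕ × ℕ × ℕ × List ℕ)) : ∀ a b : ℕ,
    (gF m l a : ℤ) - (lF m l b : ℤ) = (a : ℤ) - b + (l.map (payv m)).sum := by
  induction l with
  | nil => intro a b; simp [gF, lF]
  | cons p l ih =>
    intro a b
    have h : gF m (p :: l) a = cond (Nat.beq (Nat.land m p.2.2.1) 0) (gF m l a)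
      (cond (trF m p.2.2.2) (gF m l (Nat.add a p.2.1)) (gF m l a)) := rfl
    have h' : lF m (p :: l) b = cond (Nat.beq (Nat.land m p.2.2.1) 0) (lF m l (Nat.add b p.1))
      (lF m l b) := rfl
    rw [h, h', List.map_cons, List.sum_cons]
    by_cases h1 : m &&& p.2.2.1 = 0
    · rw [(beq_land m _).2 h1]
      simp only [cond_true]
      rw [ih]
      have : payv m p = -(p.1 : ℤ) := by simp [payv, h1]
      rw [this]
      have h2 : (Nat.add b p.1 : ℕ) = b + p.1 := rfl
      rw [h2]; push_cast; ring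
    · have : Nat.beq (Nat.land m p.2.2.1) 0 = false := by
        rw [Bool.eq_false_iff]; intro h3; exact h1 ((beq_land _ _).1 h3)
      rw [this]
      simp only [cond_false]
      by_cases h2 : ∃ t ∈ p.2.2.2, m &&& t = 0
      · rw [(trF_iff m _).2 h2]
        simp only [cond_true]
        rw [ih]
        have : payv m p = (p.2.1 : ℤ) := by simp only [payv, h1, if_false, h2, if_true]
        rw [this]
        have h2 : (Nat.add a p.2.1 : ℕ) = a + p.2.1 := rfl
        rw [h2]; push_cast; ring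
      · have h3 : trF m p.2.2.2 = false := by
          rw [Bool.eq_false_iff]; intro h3; exact h2 ((trF_iff _ _).1 h3)
        rw [h3]
        simp only [cond_false]
        rw [ih]
        have : payv m p = 0 := by simp only [payv, h1, if_false, h2]
        rw [this]; ring

theorem posneg_sub (m : ℕ) (l : List (ℕ × ℕ × ℕ × List (ℕ × ℕ × ℕ × List ℕ))) : ∀ a b : ℕ,
    (posF m l a : ℤ) - (negF m l b : ℤ) = (a : ℤ) - b + (l.map (fun d =>
      if m &&& d.1 = 0 then (0 : ℤ) else
        (d.2.1 : ℤ) - d.2.2.1 + (d.2.2.2.map (payv m)).sum)).sum := by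
  induction l with
  | nil => intro a b; simp [posF, negF]
  | cons d l ih =>
    intro a b
    have h : posF m (d :: l) a = cond (Nat.beq (Nat.land m d.1) 0) (posF m l a)
      (posF m l (gF m d.2.2.2 (Nat.add a d.2.1))) := rfl
    have h' : negF m (d :: l) b = cond (Nat.beq (Nat.land m d.1) 0) (negF m l b)
      (negF m l (lF m d.2.2.2 (Nat.add b d.2.2.1))) := rfl
    rw [h, h', List.map_cons, List.sum_cons]
    by_cases h1 : m &&& d.1 = 0
    · rw [(beq_land m _).2 h1]
      simp only [cond_true]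
      rw [ih]; simp [h1]
    · have : Nat.beq (Nat.land m d.1) 0 = false := by
        rw [Bool.eq_false_iff]; intro h3; exact h1 ((beq_land _ _).1 h3)
      rw [this]
      simp only [cond_false]
      rw [ih, gl_sub]
      have h2 : (Nat.add a d.2.1 : ℕ) = a + d.2.1 := rfl
      have h3 : (Nat.add b d.2.2.1 : ℕ) = b + d.2.2.1 := rfl
      rw [h2, h3, if_neg h1]; push_cast; ring

/-- value of the family coded by `m` -/
def valZ (k : ℕ) (w : List ℕ) (act : List (ℕ × ℕ × ℕ × List ℕ)) (m : ℕ) : ℤ :=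
  ∑ s ∈ Finset.range (2 ^ k), if m.testBit s then
    wt k s w + (act.map (fun a => ((pdat k s a).map (payv m)).sum)).sum else 0

theorem sum_flatMap (m : ℕ) {β : Type} (f : β → List (ℕ × ℕ × ℕ × List ℕ)) (l : List β) :
    ((l.flatMap f).map (payv m)).sum = (l.map (fun a => ((f a).map (payv m)).sum)).sum := by
  induction l with
  | nil => simp
  | cons a l ih => simp [List.flatMap_cons, ih]

theorem list_sum_range (n : ℕ) (f : ℕ → ℤ) : ((List.range n).map f).sum = ∑ i ∈ Finset.range n, f i := by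
  induction n with
  | zero => simp
  | succ n ih => rw [List.range_succ, List.map_append, List.sum_append, ih, Finset.sum_range_succ]; simp

theorem val_eq (k : ℕ) (w : List ℕ) (act : List (ℕ × ℕ × ℕ × List ℕ)) (m : ℕ) :
    (posF m (mkD k w act) 0 : ℤ) - (negF m (mkD k w act) 0 : ℤ) = valZ k w act m := by
  rw [posneg_sub]
  unfold mkD valZ
  rw [List.map_map, list_sum_range]
  simp only [Nat.cast_zero, sub_zero, zero_add]
  apply Finset.sum_congr rfl
  intro s _
  simp only [Function.comp]
  rw [sum_flatMap]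
  by_cases h : m.testBit s = true
  · have h1 : ¬ (m &&& 2 ^ s = 0) := by
      rw [land_two_pow_eq_zero]; simp [h]
    rw [if_neg h1, if_pos h]
    have h2 : ((wt k s w).toNat : ℤ) - ((-wt k s w).toNat : ℤ) = wt k s w := by omega
    rw [h2]
  · have h1 : m &&& 2 ^ s = 0 := by
      rw [land_two_pow_eq_zero]; simpa using h
    rw [if_pos h1, if_neg h]

theorem chk_sound (k : ℕ) (cl : List ℕ) (w : List ℕ) (act : List (ℕ × ℕ × ℕ × List ℕ))
    (h : chkF (mkE k cl) (mkD k w act) = true) (M : ℕ) (hM : Valid k cl M) :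
    0 ≤ valZ k w act M := by
  have h1 := enum_sound k cl _ h M hM
  rw [← val_eq]
  have h2 := Nat.le_of_ble_eq_true h1
  omega


/-! ### Bridge -/

section Bridge

variable {α : Type*} [DecidableEq α]

/-- set coded by `s` -/
def vs (b : ℕ → α) (k s : ℕ) : Finset α :=
  ((Finset.range k).filter (fun i => s.testBit i = true)).image b

theorem mem_vs (b : ℕ → α) (k s : ℕ) (v : α) :
    v ∈ vs b k s ↔ ∃ i, i < k ∧ s.testBit i = true ∧ b i = v := by
  simp [vs, and_assoc]

/-- code of a set -/
def code (b : ℕ → α) (k : ℕ) (Y : Finset α) : ℕ :=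
  Nat.ofBits (n := k) (fun i => decide (b i.val ∈ Y))

theorem testBit_code (b : ℕ → α) (k : ℕ) (Y : Finset α) (i : ℕ) :
    (code b k Y).testBit i = true ↔ i < k ∧ b i ∈ Y := by
  unfold code
  by_cases h : i < k
  · rw [Nat.testBit_ofBits_lt _ _ h]; simp [h]
  · rw [Nat.testBit_ofBits_ge _ _ (Nat.le_of_not_lt h)]; simp [h]

theorem code_lt (b : ℕ → α) (k : ℕ) (Y : Finset α) : code b k Y < 2 ^ k := Nat.ofBits_lt_two_pow _

theorem testBit_lt (k s i : ℕ) (hs : s < 2 ^ k) (h : s.testBit i = true) : i < k := by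
  by_contra h1
  have := Nat.testBit_lt_two_pow (x := s) (i := i)
    (lt_of_lt_of_le hs (Nat.pow_le_pow_right (by norm_num) (Nat.le_of_not_lt h1)))
  rw [h] at this
  exact Bool.noConfusion this

theorem b_mem_vs (b : ℕ → α) (k : ℕ) (hb : ∀ i < k, ∀ j < k, b i = b j → i = j) (s i : ℕ)
    (hi : i < k) : b i ∈ vs b k s ↔ s.testBit i = true := by
  rw [mem_vs]
  constructor
  · rintro ⟨j, hj, h1, h2⟩
    rw [← hb j hj i hi h2]; exact h1
  · intro h; exact ⟨i, hi, h, rfl⟩

theorem vs_sub (b : ℕ → α) (k s : ℕ) : vs b k s ⊆ (Finset.range k).image b := by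
  intro v hv
  rw [mem_vs] at hv
  obtain ⟨i, hi, _, rfl⟩ := hv
  exact Finset.mem_image_of_mem _ (Finset.mem_range.2 hi)

theorem vs_code (b : ℕ → α) (k : ℕ) (Y : Finset α) :
    vs b k (code b k Y) = Y ∩ (Finset.range k).image b := by
  ext v
  rw [mem_vs, Finset.mem_inter, Finset.mem_image]
  constructor
  · rintro ⟨i, hi, h, rfl⟩
    exact ⟨((testBit_code b k Y i).1 h).2, i, Finset.mem_range.2 hi, rfl⟩
  · rintro ⟨h, i, hi, rfl⟩
    rw [Finset.mem_range] at hi
    exact ⟨i, hi, (testBit_code b k Y i).2 ⟨hi, h⟩, rfl⟩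

theorem vs_or (b : ℕ → α) (k s t : ℕ) : vs b k (s ||| t) = vs b k s ∪ vs b k t := by
  ext v
  rw [Finset.mem_union, mem_vs, mem_vs, mem_vs]
  constructor
  · rintro ⟨i, hi, h, rfl⟩
    rw [Nat.testBit_or, Bool.or_eq_true] at h
    rcases h with h | h
    · exact Or.inl ⟨i, hi, h, rfl⟩
    · exact Or.inr ⟨i, hi, h, rfl⟩
  · rintro (⟨i, hi, h, rfl⟩ | ⟨i, hi, h, rfl⟩)
    · exact ⟨i, hi, by rw [Nat.testBit_or, h]; rfl, rfl⟩
    · exact ⟨i, hi, by rw [Nat.testBit_or, h, Bool.or_true], rfl⟩

theorem vs_inj (b : ℕ → α) (k : ℕ) (hb : ∀ i < k, ∀ j < k, b i = b j → i = j) (s t : ℕ)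
    (hs : s < 2 ^ k) (ht : t < 2 ^ k) (h : vs b k s = vs b k t) : s = t := by
  apply Nat.eq_of_testBit_eq
  intro i
  rw [Bool.eq_iff_iff]
  constructor
  · intro h1
    have hi := testBit_lt k s i hs h1
    rw [← b_mem_vs b k hb t i hi, ← h, b_mem_vs b k hb s i hi]; exact h1
  · intro h1
    have hi := testBit_lt k t i ht h1
    rw [← b_mem_vs b k hb s i hi, h, b_mem_vs b k hb t i hi]; exact h1

theorem land_eq_left (t s : ℕ) : t &&& s = t ↔ ∀ i, t.testBit i = true → s.testBit i = true := by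
  constructor
  · intro h i hi
    have := congrArg (fun z => z.testBit i) h
    simp only [Nat.testBit_and, hi, Bool.true_and] at this
    exact this
  · intro h
    apply Nat.eq_of_testBit_eq
    intro i
    rw [Nat.testBit_and]
    cases h1 : t.testBit i with
    | false => rfl
    | true => rw [h i h1]; rfl

theorem core_sub (F : Finset (Finset α)) (Y : Finset α) (u : α) : core F Y u ⊆ Y.erase u := by
  unfold core
  apply Finset.sup_le
  intro A hA
  exact (Finset.mem_filter.1 hA).2

theorem le_core (F : Finset (Finset α)) (Y : Finset α) (u : α) (A : Finset α) (hA : A ∈ F)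
    (h : A ⊆ Y.erase u) : A ⊆ core F Y u :=
  Finset.le_sup (f := id) (Finset.mem_filter.2 ⟨hA, h⟩)

theorem sup_mem (F : Finset (Finset α)) (hU : Uc F) (h0 : ∅ ∈ F) (S : Finset (Finset α))
    (hS : S ⊆ F) : S.sup id ∈ F := by
  induction S using Finset.induction_on with
  | empty => simpa using h0
  | insert A S _ ih =>
    rw [Finset.sup_insert]
    exact hU _ (hS (Finset.mem_insert_self _ _)) _
      (ih (fun x hx => hS (Finset.mem_insert_of_mem hx)))

theorem core_mem (F : Finset (Finset α)) (hU : Uc F) (h0 : ∅ ∈ F) (Y : Finset α) (u : α) :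
    core F Y u ∈ F := sup_mem F hU h0 _ (Finset.filter_subset _ _)

variable (F : Finset (Finset α)) (hU : Uc F) (h0 : ∅ ∈ F) (b : ℕ → α) (k : ℕ)
  (hb : ∀ i < k, ∀ j < k, b i = b j → i = j) (R : Finset α)
  (hR : Disjoint R ((Finset.range k).image b))

/-- trace family at `R` -/
def fam (F : Finset (Finset α)) (b : ℕ → α) (k : ℕ) (R : Finset α) : ℕ :=
  mk k (fun s => decide (R ∪ vs b k s ∈ F))

theorem testBit_fam (s : ℕ) : (fam F b k R).testBit s = true ↔ s < 2 ^ k ∧ R ∪ vs b k s ∈ F := by
  unfold fam; rw [testBit_mk]; simp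

include hU in
theorem fam_valid (cl : List ℕ) (hcl : ∀ c ∈ cl, c < 2 ^ k ∧ vs b k c ∈ F) :
    Valid k cl (fam F b k R) := by
  refine ⟨mk_lt _ _, ?_, ?_⟩
  · intro s t hs ht
    rw [testBit_fam] at *
    refine ⟨Nat.or_lt_two_pow hs.1 ht.1, ?_⟩
    rw [vs_or]
    have := hU _ hs.2 _ ht.2
    have h1 : R ∪ vs b k s ∪ (R ∪ vs b k t) = R ∪ (vs b k s ∪ vs b k t) := by
      ext v; simp only [Finset.mem_union]; tauto
    rwa [h1] at this
  · intro s hs c hc
    rw [testBit_fam] at *
    refine ⟨Nat.or_lt_two_pow hs.1 (hcl c hc).1, ?_⟩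
    rw [vs_or, ← Finset.union_assoc]
    exact hU _ hs.2 _ (hcl c hc).2

include hR in
theorem mem_B_notMem_R (i : ℕ) (hi : i < k) : b i ∉ R := by
  intro h
  exact Finset.disjoint_left.1 hR h (Finset.mem_image_of_mem _ (Finset.mem_range.2 hi))

include hb hR in
theorem b_mem_Y (s i : ℕ) (hi : i < k) : b i ∈ R ∪ vs b k s ↔ s.testBit i = true := by
  rw [Finset.mem_union, b_mem_vs b k hb s i hi]
  have := mem_B_notMem_R b k R hR i hi
  tauto

include hb hR in
theorem sub_iff (s t i : ℕ) (hi : i < k) (ht : t < 2 ^ k) :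
    R ∪ vs b k t ⊆ (R ∪ vs b k s).erase (b i) ↔ (t &&& s = t ∧ t.testBit i = false) := by
  rw [land_eq_left]
  constructor
  · intro h
    constructor
    · intro j hj
      have hj' := testBit_lt k t j ht hj
      have h1 : b j ∈ R ∪ vs b k t := (b_mem_Y b k hb R hR t j hj').2 hj
      exact (b_mem_Y b k hb R hR s j hj').1 (Finset.mem_of_mem_erase (h h1))
    · by_contra h1
      rw [Bool.not_eq_false] at h1
      have h2 : b i ∈ R ∪ vs b k t := (b_mem_Y b k hb R hR t i hi).2 h1
      exact Finset.notMem_erase _ _ (h h2)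
  · rintro ⟨h1, h2⟩ v hv
    rw [Finset.mem_erase]
    constructor
    · rintro rfl
      rw [b_mem_Y b k hb R hR t i hi] at hv
      rw [hv] at h2
      exact Bool.noConfusion h2
    · rw [Finset.mem_union] at hv ⊢
      rcases hv with hv | hv
      · exact Or.inl hv
      · rw [mem_vs] at hv ⊢
        obtain ⟨j, hj, h3, rfl⟩ := hv
        exact Or.inr ⟨j, hj, h1 j h3, rfl⟩

include hU h0 hb hR in
theorem R_sub_core_iff (s i : ℕ) (hi : i < k) :
    lost F (R ∪ vs b k s) (b i) ⊆ (Finset.range k).image b ↔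
      ∃ t, (fam F b k R).testBit t = true ∧ (t &&& s = t ∧ t.testBit i = false) := by
  set Y := R ∪ vs b k s with hY
  have hRe : R ⊆ Y.erase (b i) := by
    intro v hv
    rw [Finset.mem_erase]
    refine ⟨?_, Finset.mem_union_left _ hv⟩
    rintro rfl
    exact mem_B_notMem_R b k R hR i hi hv
  constructor
  · intro h
    have hRc : R ⊆ core F Y (b i) := by
      intro v hv
      by_contra h1
      have h2 : v ∈ lost F Y (b i) := Finset.mem_sdiff.2 ⟨hRe hv, h1⟩
      exact Finset.disjoint_left.1 hR hv (h h2)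
    have hce : core F Y (b i) = R ∪ vs b k (code b k (core F Y (b i))) := by
      rw [vs_code]
      ext v
      rw [Finset.mem_union, Finset.mem_inter]
      constructor
      · intro hv
        have h1 := Finset.mem_of_mem_erase (core_sub F Y (b i) hv)
        rw [hY, Finset.mem_union] at h1
        rcases h1 with h1 | h1
        · exact Or.inl h1
        · exact Or.inr ⟨hv, vs_sub b k s h1⟩
      · rintro (h1 | h1)
        · exact hRc h1
        · exact h1.1
    refine ⟨code b k (core F Y (b i)), ?_, ?_⟩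
    · rw [testBit_fam]
      refine ⟨code_lt _ _ _, ?_⟩
      rw [← hce]
      exact core_mem F hU h0 Y (b i)
    · rw [← sub_iff b k hb R hR s _ i hi (code_lt _ _ _), ← hce]
      exact core_sub F Y (b i)
  · rintro ⟨t, ht1, ht2⟩
    rw [testBit_fam] at ht1
    rw [← sub_iff b k hb R hR s t i hi ht1.1] at ht2
    have h1 := le_core F Y (b i) _ ht1.2 ht2
    intro v hv
    rw [lost, Finset.mem_sdiff] at hv
    have h2 := Finset.mem_of_mem_erase hv.1
    rw [hY, Finset.mem_union] at h2
    rcases h2 with h2 | h2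
    · exact absurd (h1 (Finset.mem_union_left _ h2)) hv.2
    · exact vs_sub b k s h2

include hU h0 hb hR in
theorem mem_lost_iff (s i : ℕ) (hi : i < k)
    (hh : ∃ t, (fam F b k R).testBit t = true ∧ (t &&& s = t ∧ t.testBit i = false))
    (j : ℕ) (hj : j < k) :
    b j ∈ lost F (R ∪ vs b k s) (b i) ↔ (s.testBit j = true ∧ j ≠ i) ∧
      ¬ ∃ t, (fam F b k R).testBit t = true ∧ ((t &&& s = t ∧ t.testBit i = false) ∧
        t.testBit j = true) := by
  set Y := R ∪ vs b k s with hY
  have hRc : R ⊆ core F Y (b i) := by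
    obtain ⟨t, ht1, ht2⟩ := hh
    rw [testBit_fam] at ht1
    rw [← sub_iff b k hb R hR s t i hi ht1.1] at ht2
    exact fun v hv => le_core F Y (b i) _ ht1.2 ht2 (Finset.mem_union_left _ hv)
  have hce : core F Y (b i) = R ∪ vs b k (code b k (core F Y (b i))) := by
    rw [vs_code]
    ext v
    rw [Finset.mem_union, Finset.mem_inter]
    constructor
    · intro hv
      have h1 := Finset.mem_of_mem_erase (core_sub F Y (b i) hv)
      rw [hY, Finset.mem_union] at h1
      rcases h1 with h1 | h1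
      · exact Or.inl h1
      · exact Or.inr ⟨hv, vs_sub b k s h1⟩
    · rintro (h1 | h1)
      · exact hRc h1
      · exact h1.1
  have hne : b j ≠ b i ↔ j ≠ i := by
    constructor
    · rintro h rfl; exact h rfl
    · intro h h1; exact h (hb j hj i hi h1)
  rw [lost, Finset.mem_sdiff, Finset.mem_erase, hne, hY, b_mem_Y b k hb R hR s j hj, ← hY]
  have hcore : b j ∈ core F Y (b i) ↔ ∃ t, (fam F b k R).testBit t = true ∧
      ((t &&& s = t ∧ t.testBit i = false) ∧ t.testBit j = true) := by
    constructor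
    · intro h
      refine ⟨code b k (core F Y (b i)), ?_, ?_, ?_⟩
      · rw [testBit_fam]
        refine ⟨code_lt _ _ _, ?_⟩
        rw [← hce]
        exact core_mem F hU h0 Y (b i)
      · rw [← sub_iff b k hb R hR s _ i hi (code_lt _ _ _), ← hce]
        exact core_sub F Y (b i)
      · exact (testBit_code _ _ _ _).2 ⟨hj, h⟩
    · rintro ⟨t, ht1, ht2, ht3⟩
      rw [testBit_fam] at ht1
      rw [← sub_iff b k hb R hR s t i hi ht1.1] at ht2
      exact le_core F Y (b i) _ ht1.2 ht2 ((b_mem_Y b k hb R hR t j hj).2 ht3)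
  rw [hcore]
  tauto

/-- the function summed over the members -/
def fY (F : Finset (Finset α)) (b : ℕ → α) (k : ℕ) (w : List ℕ)
    (act : List (ℕ × ℕ × ℕ × List ℕ)) (Y : Finset α) : ℤ :=
  (∑ i ∈ Finset.range k, if b i ∈ Y then (w.getD i 0 : ℤ) else -(w.getD i 0 : ℤ)) +
    (act.map (fun a => if b a.1 ∈ Y then
      cc (lost F Y (b a.1)) ((Finset.range k).image b) (a.2.2.2.map b).toFinset a.2.1 a.2.2.1
      else 0)).sum

include hU h0 hb hR in
theorem pay_eq (s : ℕ) (a : ℕ × ℕ × ℕ × List ℕ) (ha : a.1 < k) (hT : ∀ j ∈ a.2.2.2, j < k) :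
    (if b a.1 ∈ R ∪ vs b k s then
      cc (lost F (R ∪ vs b k s) (b a.1)) ((Finset.range k).image b) (a.2.2.2.map b).toFinset
        a.2.1 a.2.2.1 else 0) = ((pdat k s a).map (payv (fam F b k R))).sum := by
  by_cases h : s.testBit a.1 = true
  · rw [if_pos ((b_mem_Y b k hb R hR s a.1 ha).2 h)]
    unfold pdat
    rw [if_pos h]
    simp only [List.map_cons, List.map_nil, List.sum_cons, List.sum_nil, add_zero]
    unfold cc payv
    have hmask : ((fam F b k R) &&& mk k (fun t => ((t &&& s) == t) && !t.testBit a.1) = 0) ↔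
        ¬ (lost F (R ∪ vs b k s) (b a.1) ⊆ (Finset.range k).image b) := by
      rw [R_sub_core_iff F hU h0 b k hb R hR s a.1 ha, land_eq_zero_iff]
      constructor
      · rintro h1 ⟨t, h2, h3, h4⟩
        apply h1 t h2
        rw [testBit_mk]
        have := ((testBit_fam F b k R t).1 h2).1
        simp [this, h3, h4]
      · intro h1 t h2 h3
        apply h1
        rw [testBit_mk] at h3
        simp only [Bool.and_eq_true, decide_eq_true_eq, beq_iff_eq, Bool.not_eq_true'] at h3
        exact ⟨t, h2, h3.2.1, h3.2.2⟩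
    by_cases hs : lost F (R ∪ vs b k s) (b a.1) ⊆ (Finset.range k).image b
    · rw [if_pos hs, if_neg (fun h1 => (hmask.1 h1) hs)]
      have hh := (R_sub_core_iff F hU h0 b k hb R hR s a.1 ha).1 hs
      have htr : (lost F (R ∪ vs b k s) (b a.1) ∩ (a.2.2.2.map b).toFinset).Nonempty ↔
          ∃ t ∈ (a.2.2.2.filter (fun j => s.testBit j && !(j == a.1))).map
            (fun j => mk k (fun t => (((t &&& s) == t) && !t.testBit a.1) && t.testBit j)),
            (fam F b k R) &&& t = 0 := by
        constructor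
        · rintro ⟨v, hv⟩
          rw [Finset.mem_inter, List.mem_toFinset, List.mem_map] at hv
          obtain ⟨hv1, j, hj, rfl⟩ := hv
          have h3 := (mem_lost_iff F hU h0 b k hb R hR s a.1 ha hh j (hT j hj)).1 hv1
          refine ⟨_, List.mem_map.2 ⟨j, List.mem_filter.2 ⟨hj, ?_⟩, rfl⟩, ?_⟩
          · simp [h3.1.1, h3.1.2]
          · rw [land_eq_zero_iff]
            intro t ht1 ht2
            apply h3.2
            rw [testBit_mk] at ht2
            simp only [Bool.and_eq_true, decide_eq_true_eq, beq_iff_eq, Bool.not_eq_true'] at ht2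
            exact ⟨t, ht1, ht2.2.1, ht2.2.2⟩
        · rintro ⟨z, hz, hz0⟩
          rw [List.mem_map] at hz
          obtain ⟨j, hj, rfl⟩ := hz
          rw [List.mem_filter] at hj
          obtain ⟨hj1, hj2⟩ := hj
          simp only [Bool.and_eq_true, Bool.not_eq_true', beq_eq_false_iff_ne] at hj2
          refine ⟨b j, ?_⟩
          rw [Finset.mem_inter, List.mem_toFinset, List.mem_map]
          refine ⟨?_, j, hj1, rfl⟩
          rw [mem_lost_iff F hU h0 b k hb R hR s a.1 ha hh j (hT j hj1)]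
          refine ⟨hj2, ?_⟩
          rintro ⟨t, ht1, ⟨ht2, ht3⟩, ht4⟩
          rw [land_eq_zero_iff] at hz0
          apply hz0 t ht1
          rw [testBit_mk]
          have := ((testBit_fam F b k R t).1 ht1).1
          simp [this, ht2, ht3, ht4]
      by_cases h5 : (lost F (R ∪ vs b k s) (b a.1) ∩ (a.2.2.2.map b).toFinset).Nonempty
      · rw [if_pos h5, if_pos (htr.1 h5)]
      · rw [if_neg h5, if_neg (fun h6 => h5 (htr.2 h6))]
    · rw [if_neg hs, if_pos (hmask.2 hs)]
  · rw [if_neg (fun h1 => h ((b_mem_Y b k hb R hR s a.1 ha).1 h1))]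
    unfold pdat
    rw [if_neg h]
    simp

include hU h0 hb hR in
theorem fY_eq (w : List ℕ) (act : List (ℕ × ℕ × ℕ × List ℕ))
    (hact : ∀ a ∈ act, a.1 < k ∧ ∀ j ∈ a.2.2.2, j < k) (s : ℕ) :
    fY F b k w act (R ∪ vs b k s) =
      wt k s w + (act.map (fun a => ((pdat k s a).map (payv (fam F b k R))).sum)).sum := by
  unfold fY wt
  rw [list_sum_range]
  congr 1
  · apply Finset.sum_congr rfl
    intro i hi
    rw [Finset.mem_range] at hi
    by_cases h : s.testBit i = true
    · rw [if_pos ((b_mem_Y b k hb R hR s i hi).2 h), if_pos h]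
    · rw [if_neg (fun h1 => h ((b_mem_Y b k hb R hR s i hi).1 h1)), if_neg h]
  · congr 1
    apply List.map_congr_left
    intro a ha
    exact pay_eq F hU h0 b k hb R hR s a (hact a ha).1 (hact a ha).2

include hU h0 hb hR in
theorem sum_fibre (w : List ℕ) (act : List (ℕ × ℕ × ℕ × List ℕ))
    (hact : ∀ a ∈ act, a.1 < k ∧ ∀ j ∈ a.2.2.2, j < k) :
    ∑ Y ∈ F with Y \ (Finset.range k).image b = R, fY F b k w act Y =
      valZ k w act (fam F b k R) := by
  unfold valZ
  rw [← Finset.sum_filter]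
  symm
  apply Finset.sum_nbij (i := fun s => R ∪ vs b k s)
  · intro s hs
    simp only [Finset.mem_filter, Finset.mem_range] at hs ⊢
    refine ⟨((testBit_fam F b k R s).1 hs.2).2, ?_⟩
    ext v
    simp only [Finset.mem_sdiff, Finset.mem_union]
    constructor
    · rintro ⟨h1 | h1, h2⟩
      · exact h1
      · exact absurd (vs_sub b k s h1) h2
    · intro h
      exact ⟨Or.inl h, fun h1 => Finset.disjoint_left.1 hR h h1⟩
  · intro s hs t ht h
    simp only [Finset.coe_filter, Finset.mem_range, Set.mem_ofPred_eq] at hs ht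
    simp only at h
    apply vs_inj b k hb s t hs.1 ht.1
    ext v
    constructor
    · intro hv
      have h1 : v ∈ R ∪ vs b k t := by rw [← h]; exact Finset.mem_union_right _ hv
      rcases Finset.mem_union.1 h1 with h2 | h2
      · exact absurd (vs_sub b k s hv) (fun h3 => Finset.disjoint_left.1 hR h2 h3)
      · exact h2
    · intro hv
      have h1 : v ∈ R ∪ vs b k s := by rw [h]; exact Finset.mem_union_right _ hv
      rcases Finset.mem_union.1 h1 with h2 | h2
      · exact absurd (vs_sub b k t hv) (fun h3 => Finset.disjoint_left.1 hR h2 h3)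
      · exact h2
  · intro Y hY
    simp only [Finset.coe_filter, Set.mem_ofPred_eq] at hY
    refine ⟨code b k Y, ?_, ?_⟩
    · have h1 : R ∪ vs b k (code b k Y) = Y := by
        rw [vs_code, ← hY.2]
        ext v
        simp only [Finset.mem_union, Finset.mem_sdiff, Finset.mem_inter]
        tauto
      simp only [Finset.coe_filter, Finset.mem_range, Set.mem_ofPred_eq]
      refine ⟨code_lt _ _ _, ?_⟩
      rw [testBit_fam, h1]
      exact ⟨code_lt _ _ _, hY.1⟩
    · simp only
      rw [vs_code, ← hY.2]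
      ext v
      simp only [Finset.mem_union, Finset.mem_sdiff, Finset.mem_inter]
      tauto
  · intro s _
    exact (fY_eq F hU h0 b k hb R hR w act hact s).symm

include hU h0 hb in
/-- the block inequality -/
theorem LI (cl w : List ℕ) (act : List (ℕ × ℕ × ℕ × List ℕ))
    (hchk : chkF (mkE k cl) (mkD k w act) = true)
    (hact : ∀ a ∈ act, a.1 < k ∧ ∀ j ∈ a.2.2.2, j < k)
    (hcl : ∀ c ∈ cl, c < 2 ^ k ∧ vs b k c ∈ F) :
    0 ≤ (∑ i ∈ Finset.range k, (w.getD i 0 : ℤ) * ex F (b i)) +
      (act.map (fun a => Pay F (b a.1) ((Finset.range k).image b) (a.2.2.2.map b).toFinset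
        a.2.1 a.2.2.1)).sum := by
  have h1 : (∑ i ∈ Finset.range k, (w.getD i 0 : ℤ) * ex F (b i)) +
      (act.map (fun a => Pay F (b a.1) ((Finset.range k).image b) (a.2.2.2.map b).toFinset
        a.2.1 a.2.2.1)).sum = ∑ Y ∈ F, fY F b k w act Y := by
    unfold fY ex Pay
    rw [Finset.sum_add_distrib]
    congr 1
    · rw [Finset.sum_comm]
      apply Finset.sum_congr rfl
      intro i _
      rw [Finset.mul_sum]
      apply Finset.sum_congr rfl
      intro Y _
      split_ifs <;> ring
    · clear hchk hact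
      induction act with
      | nil => simp
      | cons a act ih =>
        simp only [List.map_cons, List.sum_cons]
        rw [Finset.sum_add_distrib, ih]
  rw [h1]
  rw [← Finset.sum_fiberwise_of_maps_to (s := F)
    (t := F.image (fun Y => Y \ (Finset.range k).image b))
    (g := fun Y => Y \ (Finset.range k).image b)
    (fun Y hY => Finset.mem_image_of_mem _ hY)]
  apply Finset.sum_nonneg
  intro R hR
  rw [Finset.mem_image] at hR
  obtain ⟨Y, _, rfl⟩ := hR
  have hd : Disjoint (Y \ (Finset.range k).image b) ((Finset.range k).image b) :=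
    Finset.sdiff_disjoint
  rw [sum_fibre F hU h0 b k hb _ hd w act hact]
  exact chk_sound k cl w act hchk _ (fam_valid F hU b k _ cl hcl)

end Bridge

end Pool.Agent.Lib.MP_ff7426_co.U3.Loc
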