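import Pool.Agent.Lib.MP_ff7426_co.U3.Bridge

/-!
MP_ff7426_co (helper33): the kernel checks behind the block inequalities.
-/

set_option autoImplicit false

namespace Pool.Agent.Lib.MP_ff7426_co.U3.Loc

instance i1 : DecidableEq (ℕ × ℕ × ℕ × List ℕ) := inferInstance
instance i2 : DecidableEq (List (ℕ × ℕ × ℕ × List ℕ)) := instDecidableEqList
instance i3 : DecidableEq (ℕ × ℕ × ℕ × List (ℕ × ℕ × ℕ × List ℕ)) := inferInstance
instance i4 : DecidableEq (List (ℕ × ℕ × ℕ × List (ℕ × ℕ × ℕ × List ℕ))) := instDecidableEqList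

/-- enumeration data for closers [7] on 3 points -/
def E3 : List (ℕ × List ℕ × List (ℕ × ℕ)) :=
  [(128, [], []), (64, [128], [(128, 170)]), (32, [128], [(128, 204)]), (16, [128], [(32, 34),
   (64, 68), (128, 136)]), (8, [128], [(128, 240)]), (4, [128], [(8, 10), (64, 80), (128, 160)]),
   (2, [128], [(8, 12), (32, 48), (128, 192)]), (1, [128], [(2, 2), (4, 4), (8, 8), (16, 16),
   (32, 32), (64, 64), (128, 128)])]

theorem E3_eq : mkE 3 [7] = E3 := by decide +kernel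

/-- enumeration data for closers [7, 11] on 4 points -/
def E4 : List (ℕ × List ℕ × List (ℕ × ℕ)) :=
  [(32768, [], []), (16384, [32768, 32768], [(32768, 43690)]), (8192, [32768, 32768], [(32768,
   52428)]), (4096, [32768, 32768], [(8192, 8738), (16384, 17476), (32768, 34952)]), (2048,
   [32768], [(32768, 61680)]), (1024, [32768, 2048], [(2048, 2570), (16384, 20560), (32768,
   41120)]), (512, [32768, 2048], [(2048, 3084), (8192, 12336), (32768, 49344)]), (256, [32768,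
   2048], [(512, 514), (1024, 1028), (2048, 2056), (4096, 4112), (8192, 8224), (16384, 16448),
   (32768, 32896)]), (128, [32768], [(32768, 65280)]), (64, [128, 32768], [(128, 170), (16384,
   21760), (32768, 43520)]), (32, [128, 32768], [(128, 204), (8192, 13056), (32768, 52224)]),
   (16, [128, 32768], [(32, 34), (64, 68), (128, 136), (4096, 4352), (8192, 8704), (16384,
   17408), (32768, 34816)]), (8, [128, 2048], [(128, 240), (2048, 3840), (32768, 61440)]), (4,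
   [128, 2048], [(8, 10), (64, 80), (128, 160), (1024, 1280), (2048, 2560), (16384, 20480),
   (32768, 40960)]), (2, [128, 2048], [(8, 12), (32, 48), (128, 192), (512, 768), (2048, 3072),
   (8192, 12288), (32768, 49152)]), (1, [128, 2048], [(2, 2), (4, 4), (8, 8), (16, 16), (32, 32),
   (64, 64), (128, 128), (256, 256), (512, 512), (1024, 1024), (2048, 2048), (4096, 4096), (8192,
   8192), (16384, 16384), (32768, 32768)])]

theorem E4_eq : mkE 4 [7, 11] = E4 := by decide +kernel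

/-- enumeration data for closers [7, 11, 13] on 4 points -/
def E4d : List (ℕ × List ℕ × List (ℕ × ℕ)) :=
  [(32768, [], []), (16384, [32768, 32768, 32768], [(32768, 43690)]), (8192, [32768, 32768],
   [(32768, 52428)]), (4096, [32768, 32768, 8192], [(8192, 8738), (16384, 17476), (32768,
   34952)]), (2048, [32768, 32768], [(32768, 61680)]), (1024, [32768, 2048, 32768], [(2048,
   2570), (16384, 20560), (32768, 41120)]), (512, [32768, 2048, 8192], [(2048, 3084), (8192,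
   12336), (32768, 49344)]), (256, [32768, 2048, 8192], [(512, 514), (1024, 1028), (2048, 2056),
   (4096, 4112), (8192, 8224), (16384, 16448), (32768, 32896)]), (128, [32768, 32768], [(32768,
   65280)]), (64, [128, 32768, 32768], [(128, 170), (16384, 21760), (32768, 43520)]), (32, [128,
   32768, 8192], [(128, 204), (8192, 13056), (32768, 52224)]), (16, [128, 32768, 8192], [(32,
   34), (64, 68), (128, 136), (4096, 4352), (8192, 8704), (16384, 17408), (32768, 34816)]), (8,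
   [128, 2048, 32768], [(128, 240), (2048, 3840), (32768, 61440)]), (4, [128, 2048, 32768], [(8,
   10), (64, 80), (128, 160), (1024, 1280), (2048, 2560), (16384, 20480), (32768, 40960)]), (2,
   [128, 2048, 8192], [(8, 12), (32, 48), (128, 192), (512, 768), (2048, 3072), (8192, 12288),
   (32768, 49152)]), (1, [128, 2048, 8192], [(2, 2), (4, 4), (8, 8), (16, 16), (32, 32), (64,
   64), (128, 128), (256, 256), (512, 512), (1024, 1024), (2048, 2048), (4096, 4096), (8192,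
   8192), (16384, 16384), (32768, 32768)])]

theorem E4d_eq : mkE 4 [7, 11, 13] = E4d := by decide +kernel

def D_leaf : List (ℕ × ℕ × ℕ × List (ℕ × ℕ × ℕ × List ℕ)) :=
  [(1, 0, 8, []), (2, 0, 4, [(2, 4, 1, [])]), (4, 0, 2, []), (8, 2, 0, [(2, 4, 5, [4])]), (16, 0,
   2, []), (32, 2, 0, [(2, 4, 17, [16])]), (64, 4, 0, []), (128, 8, 0, [(2, 4, 85, [68, 80])])]

theorem D_leaf_eq : mkD 3 [2, 3, 3] [(0, 2, 4, [1, 2])] = D_leaf := by decide +kernel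

theorem c_leaf : chkF E3 D_leaf = true := by decide +kernel

theorem chk_leaf : chkF (mkE 3 [7]) (mkD 3 [2, 3, 3] [(0, 2, 4, [1, 2])]) = true := by
  rw [E3_eq, D_leaf_eq]; exact c_leaf

def D_cent : List (ℕ × ℕ × ℕ × List (ℕ × ℕ × ℕ × List ℕ)) :=
  [(1, 0, 12, []), (2, 0, 4, [(4, 2, 1, [])]), (4, 0, 4, [(4, 2, 1, [])]), (8, 4, 0, [(4, 2, 5,
   [4]), (4, 2, 3, [2])]), (16, 0, 4, [(4, 2, 1, [])]), (32, 4, 0, [(4, 2, 17, [16]), (4, 2, 3,
   [2])]), (64, 4, 0, [(4, 2, 17, [16]), (4, 2, 5, [4])]), (128, 12, 0, [(4, 2, 85, [68, 80]),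
   (4, 2, 51, [34, 48]), (4, 2, 15, [10, 12])])]

theorem D_cent_eq : mkD 3 [4, 4, 4] [(0, 4, 2, [1, 2]), (1, 4, 2, [0, 2]), (2, 4, 2, [0, 1])] = D_cent := by decide +kernel

theorem c_cent : chkF E3 D_cent = true := by decide +kernel

theorem chk_cent : chkF (mkE 3 [7]) (mkD 3 [4, 4, 4] [(0, 4, 2, [1, 2]), (1, 4, 2, [0, 2]), (2, 4, 2, [0, 1])]) = true := by
  rw [E3_eq, D_cent_eq]; exact c_cent

def D_e0G : List (ℕ × ℕ × ℕ × List (ℕ × ℕ × ℕ × List ℕ)) :=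
  [(1, 0, 10, []), (2, 0, 4, [(3, 3, 1, [])]), (4, 0, 4, [(3, 3, 1, [])]), (8, 2, 0, [(3, 3, 5,
   []), (3, 3, 3, [])]), (16, 0, 2, [(4, 2, 1, [])]), (32, 4, 0, [(3, 3, 17, [16]), (4, 2, 3,
   [2])]), (64, 4, 0, [(3, 3, 17, [16]), (4, 2, 5, [4])]), (128, 10, 0, [(3, 3, 85, [80]), (3, 3,
   51, [48]), (4, 2, 15, [10, 12])])]

theorem D_e0G_eq : mkD 3 [3, 3, 4] [(0, 3, 3, [2]), (1, 3, 3, [2]), (2, 4, 2, [0, 1])] = D_e0G := by decide +kernel

theorem c_e0G : chkF E3 D_e0G = true := by decide +kernel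

theorem chk_e0G : chkF (mkE 3 [7]) (mkD 3 [3, 3, 4] [(0, 3, 3, [2]), (1, 3, 3, [2]), (2, 4, 2, [0, 1])]) = true := by
  rw [E3_eq, D_e0G_eq]; exact c_e0G

def D_two : List (ℕ × ℕ × ℕ × List (ℕ × ℕ × ℕ × List ℕ)) :=
  [(1, 0, 3, []), (2, 0, 1, []), (4, 0, 1, [(1, 1, 1, [])]), (8, 1, 0, [(1, 1, 3, [2])]), (16, 0,
   1, [(1, 1, 1, [])]), (32, 1, 0, [(1, 1, 3, [2])]), (64, 1, 0, [(1, 1, 17, [16]), (1, 1, 5,
   [4])]), (128, 3, 0, [(1, 1, 51, [34, 48]), (1, 1, 15, [10, 12])])]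

theorem D_two_eq : mkD 3 [1, 1, 1] [(1, 1, 1, [0, 2]), (2, 1, 1, [0, 1])] = D_two := by decide +kernel

theorem c_two : chkF E3 D_two = true := by decide +kernel

theorem chk_two : chkF (mkE 3 [7]) (mkD 3 [1, 1, 1] [(1, 1, 1, [0, 2]), (2, 1, 1, [0, 1])]) = true := by
  rw [E3_eq, D_two_eq]; exact c_two

def D_pairT : List (ℕ × ℕ × ℕ × List (ℕ × ℕ × ℕ × List ℕ)) :=
  [(1, 0, 4, []), (2, 0, 2, [(1, 2, 1, [])]), (4, 0, 2, [(1, 2, 1, [])]), (8, 0, 0, [(1, 2, 5,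
   []), (1, 2, 3, [])]), (16, 0, 0, []), (32, 2, 0, [(1, 2, 17, [16])]), (64, 2, 0, [(1, 2, 17,
   [16])]), (128, 4, 0, [(1, 2, 85, [80]), (1, 2, 51, [48])])]

theorem D_pairT_eq : mkD 3 [1, 1, 2] [(0, 1, 2, [2]), (1, 1, 2, [2])] = D_pairT := by decide +kernel

theorem c_pairT : chkF E3 D_pairT = true := by decide +kernel

theorem chk_pairT : chkF (mkE 3 [7]) (mkD 3 [1, 1, 2] [(0, 1, 2, [2]), (1, 1, 2, [2])]) = true := by
  rw [E3_eq, D_pairT_eq]; exact c_pairT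

def D_e0D : List (ℕ × ℕ × ℕ × List (ℕ × ℕ × ℕ × List ℕ)) :=
  [(1, 0, 6, []), (2, 0, 2, [(2, 2, 1, [])]), (4, 0, 2, [(2, 1, 1, [])]), (8, 2, 0, [(2, 2, 5,
   [4]), (2, 1, 3, [2])]), (16, 0, 2, [(2, 1, 1, [])]), (32, 2, 0, [(2, 2, 17, [16]), (2, 1, 3,
   [2])]), (64, 2, 0, [(2, 1, 17, []), (2, 1, 5, [])]), (128, 6, 0, [(2, 2, 85, [68, 80]), (2, 1,
   51, [34]), (2, 1, 15, [10])])]

theorem D_e0D_eq : mkD 3 [2, 2, 2] [(0, 2, 2, [1, 2]), (1, 2, 1, [0]), (2, 2, 1, [0])] = D_e0D := by decide +kernel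

theorem c_e0D : chkF E3 D_e0D = true := by decide +kernel

theorem chk_e0D : chkF (mkE 3 [7]) (mkD 3 [2, 2, 2] [(0, 2, 2, [1, 2]), (1, 2, 1, [0]), (2, 2, 1, [0])]) = true := by
  rw [E3_eq, D_e0D_eq]; exact c_e0D

def D_kD : List (ℕ × ℕ × ℕ × List (ℕ × ℕ × ℕ × List ℕ)) :=
  [(1, 0, 6, []), (2, 0, 2, []), (4, 0, 2, [(2, 2, 1, [])]), (8, 2, 0, [(2, 2, 3, [2])]), (16, 0,
   2, [(2, 2, 1, [])]), (32, 2, 0, [(2, 2, 3, [2])]), (64, 2, 0, [(2, 2, 17, [16]), (2, 2, 5,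
   [4])]), (128, 6, 0, [(2, 2, 51, [34, 48]), (2, 2, 15, [10, 12])])]

theorem D_kD_eq : mkD 3 [2, 2, 2] [(1, 2, 2, [0, 2]), (2, 2, 2, [0, 1])] = D_kD := by decide +kernel

theorem c_kD : chkF E3 D_kD = true := by decide +kernel

theorem chk_kD : chkF (mkE 3 [7]) (mkD 3 [2, 2, 2] [(1, 2, 2, [0, 2]), (2, 2, 2, [0, 1])]) = true := by
  rw [E3_eq, D_kD_eq]; exact c_kD

def D_HL : List (ℕ × ℕ × ℕ × List (ℕ × ℕ × ℕ × List ℕ)) :=
  [(1, 0, 13, []), (2, 0, 7, [(3, 7, 1, [])]), (4, 0, 3, []), (8, 3, 0, [(3, 7, 5, [4])]), (16,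
   0, 3, []), (32, 3, 0, [(3, 7, 17, [16])]), (64, 7, 0, []), (128, 13, 0, [(3, 7, 85, [68,
   80])])]

theorem D_HL_eq : mkD 3 [3, 5, 5] [(0, 3, 7, [1, 2])] = D_HL := by decide +kernel

theorem c_HL : chkF E3 D_HL = true := by decide +kernel

theorem chk_HL : chkF (mkE 3 [7]) (mkD 3 [3, 5, 5] [(0, 3, 7, [1, 2])]) = true := by
  rw [E3_eq, D_HL_eq]; exact c_HL

def D_EG : List (ℕ × ℕ × ℕ × List (ℕ × ℕ × ℕ × List ℕ)) :=
  [(1, 0, 8, []), (2, 0, 4, [(2, 5, 1, [])]), (4, 0, 4, [(2, 3, 1, [])]), (8, 0, 0, [(2, 5, 5,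
   []), (2, 3, 3, [])]), (16, 0, 0, []), (32, 4, 0, [(2, 5, 17, [16])]), (64, 4, 0, [(2, 3, 17,
   [16])]), (128, 8, 0, [(2, 5, 85, [80]), (2, 3, 51, [48])])]

theorem D_EG_eq : mkD 3 [2, 2, 4] [(0, 2, 5, [2]), (1, 2, 3, [2])] = D_EG := by decide +kernel

theorem c_EG : chkF E3 D_EG = true := by decide +kernel

theorem chk_EG : chkF (mkE 3 [7]) (mkD 3 [2, 2, 4] [(0, 2, 5, [2]), (1, 2, 3, [2])]) = true := by
  rw [E3_eq, D_EG_eq]; exact c_EG

def D_HB : List (ℕ × ℕ × ℕ × List (ℕ × ℕ × ℕ × List ℕ)) :=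
  [(1, 0, 27, []), (2, 0, 13, [(7, 3, 1, [])]), (4, 0, 11, []), (8, 3, 0, [(7, 3, 5, [4])]), (16,
   0, 15, []), (32, 0, 1, [(7, 3, 17, [16])]), (64, 1, 0, []), (128, 15, 0, [(7, 3, 85, [68,
   80])]), (256, 0, 15, []), (512, 0, 1, [(7, 3, 257, [256])]), (1024, 1, 0, []), (2048, 15, 0,
   [(7, 3, 1285, [1028, 1280])]), (4096, 0, 3, []), (8192, 11, 0, [(7, 3, 4369, [4112, 4352])]),
   (16384, 13, 0, []), (32768, 27, 0, [(7, 3, 21845, [17476, 20560, 21760])])]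

theorem D_HB_eq : mkD 4 [7, 8, 6, 6] [(0, 7, 3, [1, 2, 3])] = D_HB := by decide +kernel

theorem c_HB : chkF E4 D_HB = true := by decide +kernel

theorem chk_HB : chkF (mkE 4 [7, 11]) (mkD 4 [7, 8, 6, 6] [(0, 7, 3, [1, 2, 3])]) = true := by
  rw [E4_eq, D_HB_eq]; exact c_HB

def D_EB : List (ℕ × ℕ × ℕ × List (ℕ × ℕ × ℕ × List ℕ)) :=
  [(1, 0, 18, []), (2, 0, 8, [(5, 2, 1, [])]), (4, 0, 6, []), (8, 4, 0, [(5, 2, 5, [4])]), (16,
   0, 12, [(3, 2, 1, [])]), (32, 0, 2, [(5, 2, 17, []), (3, 2, 3, [])]), (64, 0, 0, [(3, 2, 5,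
   [4])]), (128, 10, 0, [(5, 2, 85, [68]), (3, 2, 15, [12])]), (256, 0, 10, []), (512, 0, 0, [(5,
   2, 257, [256])]), (1024, 2, 0, []), (2048, 12, 0, [(5, 2, 1285, [1028, 1280])]), (4096, 0, 4,
   [(3, 2, 257, [256])]), (8192, 6, 0, [(5, 2, 4369, [4352]), (3, 2, 771, [768])]), (16384, 8, 0,
   [(3, 2, 1285, [1028, 1280])]), (32768, 18, 0, [(5, 2, 21845, [17476, 21760]), (3, 2, 3855,
   [3084, 3840])])]

theorem D_EB_eq : mkD 4 [5, 6, 3, 4] [(0, 5, 2, [1, 3]), (2, 3, 2, [1, 3])] = D_EB := by decide +kernel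

theorem c_EB : chkF E4 D_EB = true := by decide +kernel

theorem chk_EB : chkF (mkE 4 [7, 11]) (mkD 4 [5, 6, 3, 4] [(0, 5, 2, [1, 3]), (2, 3, 2, [1, 3])]) = true := by
  rw [E4_eq, D_EB_eq]; exact c_EB

def D_DB : List (ℕ × ℕ × ℕ × List (ℕ × ℕ × ℕ × List ℕ)) :=
  [(1, 0, 13, []), (2, 0, 5, []), (4, 0, 7, []), (8, 1, 0, []), (16, 0, 7, []), (32, 1, 0, []),
   (64, 0, 1, []), (128, 7, 0, []), (256, 0, 7, []), (512, 1, 0, []), (1024, 0, 1, []), (2048, 7,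
   0, []), (4096, 0, 1, []), (8192, 7, 0, []), (16384, 5, 0, []), (32768, 13, 0, [])]

theorem D_DB_eq : mkD 4 [4, 3, 3, 3] [] = D_DB := by decide +kernel

theorem c_DB : chkF E4d D_DB = true := by decide +kernel

theorem chk_DB : chkF (mkE 4 [7, 11, 13]) (mkD 4 [4, 3, 3, 3] []) = true := by
  rw [E4d_eq, D_DB_eq]; exact c_DB

end Pool.Agent.Lib.MP_ff7426_co.U3.Loc
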