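import Pool.Agent.Lib.MP_ff7426_co.U3.Base

/-!
MP_ff7426_co, row R2: the forbidden configuration of cyclic type.
-/

set_option autoImplicit false

namespace Pool.Agent.Lib.MP_ff7426_co.U3

variable {α : Type*} [DecidableEq α]

/-- two blocks with disjoint trigger sets, unit accounts -/
theorem cyc_pay2 (F : Finset (Finset α)) (u : α) (B₁ T₁ B₂ T₂ : Finset α)
    (h₁ : Disjoint T₁ B₂) (h₂ : Disjoint T₂ B₁) :
    Pay F u B₁ T₁ 1 1 + Pay F u B₂ T₂ 1 1 ≤ 0 := by
  unfold Pay
  rw [← Finset.sum_add_distrib]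
  apply Finset.sum_nonpos
  intro Y _
  by_cases hu : u ∈ Y
  · simp only [hu, if_true]
    unfold cc
    by_cases a₁ : lost F Y u ⊆ B₁
    · by_cases a₂ : lost F Y u ⊆ B₂
      · have e₁ : ¬ (lost F Y u ∩ T₁).Nonempty := by
          rintro ⟨v, hv⟩
          rw [Finset.mem_inter] at hv
          exact Finset.disjoint_left.mp h₁ hv.2 (a₂ hv.1)
        have e₂ : ¬ (lost F Y u ∩ T₂).Nonempty := by
          rintro ⟨v, hv⟩
          rw [Finset.mem_inter] at hv
          exact Finset.disjoint_left.mp h₂ hv.2 (a₁ hv.1)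
        simp [a₁, a₂, e₁, e₂]
      · simp only [a₁, a₂, if_true, if_false]
        split_ifs <;> norm_num
    · by_cases a₂ : lost F Y u ⊆ B₂
      · simp only [a₁, a₂, if_true, if_false]
        split_ifs <;> norm_num
      · simp only [a₁, a₂, if_false]
        norm_num
  · simp [hu]

/-- the block inequality of a member with a chosen vertex -/
theorem cyc_two (F : Finset (Finset α)) (hB : Blocks F) (h : Finset α) (hF : h ∈ F)
    (hc : h.card = 3) (p : α) (hp : p ∈ h) :
    0 ≤ ∑ v ∈ h, ex F v + ∑ v ∈ h.erase p, Pay F v h (h.erase v) 1 1 := by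
  have hc2 : (h.erase p).card = 2 := by rw [Finset.card_erase_of_mem hp, hc]
  obtain ⟨v, w, hvw, hvw'⟩ := Finset.card_eq_two.mp hc2
  have hpe : p ∉ h.erase p := Finset.notMem_erase p h
  rw [hvw'] at hpe
  have hpv : p ≠ v := by
    intro e
    exact hpe (by simp [e])
  have hpw : p ≠ w := by
    intro e
    exact hpe (by simp [e])
  have hh : h = {p, v, w} := by
    rw [← Finset.insert_erase hp, hvw']
  have e1 : h.erase v = {p, w} := by
    rw [hh]
    ext z
    simp only [Finset.mem_erase, Finset.mem_insert, Finset.mem_singleton]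
    constructor
    · rintro ⟨h1, h2 | h2 | h2⟩
      · exact Or.inl h2
      · exact absurd h2 h1
      · exact Or.inr h2
    · rintro (h2 | h2)
      · exact ⟨by rw [h2]; exact hpv, Or.inl h2⟩
      · exact ⟨by rw [h2]; exact hvw.symm, Or.inr (Or.inr h2)⟩
  have e2 : h.erase w = {p, v} := by
    rw [hh]
    ext z
    simp only [Finset.mem_erase, Finset.mem_insert, Finset.mem_singleton]
    constructor
    · rintro ⟨h1, h2 | h2 | h2⟩
      · exact Or.inl h2
      · exact Or.inr h2
      · exact absurd h2 h1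
    · rintro (h2 | h2)
      · exact ⟨by rw [h2]; exact hpw, Or.inl h2⟩
      · exact ⟨by rw [h2]; exact hvw, Or.inr (Or.inl h2)⟩
  have h2 := hB.two p v w hpv hpw hvw (hh ▸ hF)
  have s1 : ∑ v ∈ h, ex F v = ex F p + ex F v + ex F w := by
    rw [← Finset.insert_erase hp, Finset.sum_insert (Finset.notMem_erase p h), hvw',
      Finset.sum_pair hvw]
    ring
  have s2 : ∑ u ∈ h.erase p, Pay F u h (h.erase u) 1 1
      = Pay F v {p, v, w} {p, w} 1 1 + Pay F w {p, v, w} {p, v} 1 1 := by
    rw [hvw', Finset.sum_pair hvw, e1, e2, ← hh]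
  rw [s1, s2]
  linarith

/-- forbidden configuration: every member has a private vertex and its two other vertices are
shared with exactly one other member, which it meets in this vertex only -/
theorem fc_cycle (F : Finset (Finset α)) (hB : Blocks F) (H : Finset (Finset α))
    (hne : H.Nonempty) (hT : ∀ h ∈ H, Tri F h) (p : Finset α → α) (hp : ∀ h ∈ H, p h ∈ h)
    (hpp : ∀ h ∈ H, ∀ k ∈ H, p h ∈ k → k = h)
    (hq : ∀ h ∈ H, ∀ v ∈ h, v ≠ p h → ∃ k ∈ H, k ≠ h ∧ v ∈ k ∧
      (∀ l ∈ H, v ∈ l → l = h ∨ l = k) ∧ ∀ w ∈ h, w ∈ k → w = v) : False := by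
  have hsum : 0 ≤ ∑ h ∈ H, (∑ v ∈ h, ex F v + ∑ v ∈ h.erase (p h), Pay F v h (h.erase v) 1 1) :=
    Finset.sum_nonneg fun h hh =>
      cyc_two F hB h (hT h hh).1 (hT h hh).2.1 (p h) (hp h hh)
  rw [Finset.sum_add_distrib] at hsum
  have hneg : ∑ h ∈ H, ∑ v ∈ h, ex F v < 0 := by
    apply Finset.sum_neg
    · intro h hh
      apply Finset.sum_neg
      · intro v hv
        exact (hT h hh).2.2 v hv
      · exact ⟨p h, hp h hh⟩
    · exact hne
  have hcom : ∑ h ∈ H, ∑ v ∈ h.erase (p h), Pay F v h (h.erase v) 1 1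
      = ∑ v ∈ H.biUnion (fun h => h.erase (p h)), ∑ h ∈ H.filter (fun h => v ∈ h.erase (p h)),
        Pay F v h (h.erase v) 1 1 := by
    apply Finset.sum_comm'
    intro h v
    simp only [Finset.mem_filter, Finset.mem_biUnion]
    constructor
    · rintro ⟨h1, h2⟩
      exact ⟨⟨h1, h2⟩, h, h1, h2⟩
    · rintro ⟨⟨h1, h2⟩, -⟩
      exact ⟨h1, h2⟩
  have hnp : ∑ h ∈ H, ∑ v ∈ h.erase (p h), Pay F v h (h.erase v) 1 1 ≤ 0 := by
    rw [hcom]
    apply Finset.sum_nonpos
    intro v hv
    rw [Finset.mem_biUnion] at hv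
    obtain ⟨h, hh, hvh⟩ := hv
    rw [Finset.mem_erase] at hvh
    obtain ⟨k, hk, hkh, hvk, hall, hmeet⟩ := hq h hh v hvh.2 hvh.1
    have hvp : v ≠ p k := by
      intro e
      have := hpp k hk h hh (e ▸ hvh.2)
      exact hkh this.symm
    have hset : H.filter (fun h => v ∈ h.erase (p h)) = {h, k} := by
      ext l
      simp only [Finset.mem_filter, Finset.mem_erase, Finset.mem_insert, Finset.mem_singleton]
      constructor
      · rintro ⟨h1, -, h3⟩
        exact hall l h1 h3
      · rintro (e | e)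
        · subst e
          exact ⟨hh, hvh.1, hvh.2⟩
        · subst e
          exact ⟨hk, hvp, hvk⟩
    rw [hset, Finset.sum_pair hkh.symm]
    apply cyc_pay2
    · rw [Finset.disjoint_left]
      intro w hw hwk
      rw [Finset.mem_erase] at hw
      exact hw.1 (hmeet w hw.2 hwk)
    · rw [Finset.disjoint_left]
      intro w hw hwh
      rw [Finset.mem_erase] at hw
      exact hw.1 (hmeet w hwh hw.2)
  linarith

end Pool.Agent.Lib.MP_ff7426_co.U3
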