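import Pool.Agent.Lib.MP_ff7426_co.U3.Base

/-!
MP_ff7426_co, Q1 for union-closed families generated by sets of size at most 3.
Payments and forbidden configurations of triples with negative excesses.
-/

set_option autoImplicit false

namespace Pool.Agent.Lib.MP_ff7426_co.U3

variable {α : Type*} [DecidableEq α]

theorem cc_le {N B T : Finset α} {x y : ℤ} (hy : 0 ≤ y) (h : N ⊆ B) : cc N B T x y ≤ y := by
  unfold cc
  rw [if_pos h]
  split_ifs
  · exact le_rfl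
  · exact hy

theorem cc_zero {N B T : Finset α} {x y : ℤ} (h : N ⊆ B) {B' : Finset α} (h' : N ⊆ B')
    (hT : Disjoint T B') : cc N B T x y = 0 := by
  unfold cc
  rw [if_pos h, if_neg]
  rintro ⟨v, hv⟩
  rw [Finset.mem_inter] at hv
  exact Finset.disjoint_left.1 hT hv.2 (h' hv.1)

theorem cc_neg {N B T : Finset α} {x y : ℤ} (h : ¬ N ⊆ B) : cc N B T x y = -x := by
  unfold cc
  rw [if_neg h]

/-- Two accounts at one vertex. -/
theorem pay2 (F : Finset (Finset α)) (u : α) (B₁ T₁ B₂ T₂ : Finset α) (x₁ y₁ x₂ y₂ : ℤ)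
    (h₁ : Disjoint T₁ B₂) (h₂ : Disjoint T₂ B₁) (hy₁ : 0 ≤ y₁) (hx₂ : y₁ ≤ x₂) (hy₂ : 0 ≤ y₂)
    (hx₁ : y₂ ≤ x₁) : Pay F u B₁ T₁ x₁ y₁ + Pay F u B₂ T₂ x₂ y₂ ≤ 0 := by
  unfold Pay
  rw [← Finset.sum_add_distrib]
  refine Finset.sum_nonpos fun Y _ => ?_
  by_cases hu : u ∈ Y
  · rw [if_pos hu, if_pos hu]
    by_cases c₁ : lost F Y u ⊆ B₁
    · by_cases c₂ : lost F Y u ⊆ B₂
      · rw [cc_zero c₁ c₂ h₁, cc_zero c₂ c₁ h₂]
        simp
      · rw [cc_neg c₂]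
        have := cc_le (T := T₁) (x := x₁) hy₁ c₁
        linarith
    · rw [cc_neg c₁]
      by_cases c₂ : lost F Y u ⊆ B₂
      · have := cc_le (T := T₂) (x := x₂) hy₂ c₂
        linarith
      · rw [cc_neg c₂]
        linarith
  · rw [if_neg hu, if_neg hu]
    simp

/-- Three accounts at one vertex. -/
theorem pay3 (F : Finset (Finset α)) (u : α) (B₁ T₁ B₂ T₂ B₃ T₃ : Finset α) (x y : ℤ)
    (h₁₂ : Disjoint T₁ B₂) (h₁₃ : Disjoint T₁ B₃) (h₂₁ : Disjoint T₂ B₁) (h₂₃ : Disjoint T₂ B₃)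
    (h₃₁ : Disjoint T₃ B₁) (h₃₂ : Disjoint T₃ B₂) (hy : 0 ≤ y) (hx : y ≤ 2 * x) :
    Pay F u B₁ T₁ x y + Pay F u B₂ T₂ x y + Pay F u B₃ T₃ x y ≤ 0 := by
  have hx0 : 0 ≤ x := by linarith
  unfold Pay
  rw [← Finset.sum_add_distrib, ← Finset.sum_add_distrib]
  refine Finset.sum_nonpos fun Y _ => ?_
  by_cases hu : u ∈ Y
  · rw [if_pos hu, if_pos hu, if_pos hu]
    by_cases c₁ : lost F Y u ⊆ B₁
    · by_cases c₂ : lost F Y u ⊆ B₂
      · rw [cc_zero c₁ c₂ h₁₂, cc_zero c₂ c₁ h₂₁]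
        by_cases c₃ : lost F Y u ⊆ B₃
        · rw [cc_zero c₃ c₁ h₃₁]
          simp
        · rw [cc_neg c₃]
          linarith
      · rw [cc_neg c₂]
        by_cases c₃ : lost F Y u ⊆ B₃
        · rw [cc_zero c₃ c₁ h₃₁, cc_zero c₁ c₃ h₁₃]
          linarith
        · rw [cc_neg c₃]
          have := cc_le (T := T₁) (x := x) hy c₁
          linarith
    · rw [cc_neg c₁]
      by_cases c₂ : lost F Y u ⊆ B₂
      · by_cases c₃ : lost F Y u ⊆ B₃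
        · rw [cc_zero c₃ c₂ h₃₂, cc_zero c₂ c₃ h₂₃]
          linarith
        · rw [cc_neg c₃]
          have := cc_le (T := T₂) (x := x) hy c₂
          linarith
      · rw [cc_neg c₂]
        by_cases c₃ : lost F Y u ⊆ B₃
        · have := cc_le (T := T₃) (x := x) hy c₃
          linarith
        · rw [cc_neg c₃]
          linarith
  · rw [if_neg hu, if_neg hu, if_neg hu]
    simp

theorem dj13 {p a b c : α} (h1 : p ≠ a) (h2 : p ≠ b) (h3 : p ≠ c) :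
    Disjoint ({p} : Finset α) {a, b, c} := by
  simp [h1, h2, h3]

theorem dj14 {p a b c d : α} (h1 : p ≠ a) (h2 : p ≠ b) (h3 : p ≠ c) (h4 : p ≠ d) :
    Disjoint ({p} : Finset α) {a, b, c, d} := by
  simp [h1, h2, h3, h4]

theorem dj2 {p q : α} {B : Finset α} (h1 : p ∉ B) (h2 : q ∉ B) :
    Disjoint ({p, q} : Finset α) B := by
  simp [h1, h2]

theorem dj3 {p q r : α} {B : Finset α} (h1 : p ∉ B) (h2 : q ∉ B) (h3 : r ∉ B) :
    Disjoint ({p, q, r} : Finset α) B := by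
  simp [h1, h2, h3]

theorem nm3 {p a b c : α} (h1 : p ≠ a) (h2 : p ≠ b) (h3 : p ≠ c) :
    p ∉ ({a, b, c} : Finset α) := by
  simp [h1, h2, h3]

theorem nm4 {p a b c d : α} (h1 : p ≠ a) (h2 : p ≠ b) (h3 : p ≠ c) (h4 : p ≠ d) :
    p ∉ ({a, b, c, d} : Finset α) := by
  simp [h1, h2, h3, h4]

/-- A triple with a marked element. -/
theorem Tri.split {F : Finset (Finset α)} {h : Finset α} (t : Tri F h) {u : α} (hu : u ∈ h) :
    ∃ p q : α, u ≠ p ∧ u ≠ q ∧ p ≠ q ∧ h = {u, p, q} := by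
  have h1 : (h.erase u).card = 2 := by
    rw [Finset.card_erase_of_mem hu, t.2.1]
  obtain ⟨p, q, hpq, he⟩ := Finset.card_eq_two.1 h1
  have hp : p ∈ h.erase u := by rw [he]; simp
  have hq : q ∈ h.erase u := by rw [he]; simp
  refine ⟨p, q, (Finset.ne_of_mem_erase hp).symm, (Finset.ne_of_mem_erase hq).symm, hpq, ?_⟩
  rw [← Finset.insert_erase hu, he]

theorem fc_star3 (F : Finset (Finset α)) (hB : Blocks F) (u : α) (h₁ h₂ h₃ : Finset α)
    (t₁ : Tri F h₁) (t₂ : Tri F h₂) (t₃ : Tri F h₃) (m₁ : u ∈ h₁) (m₂ : u ∈ h₂) (m₃ : u ∈ h₃)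
    (d₁₂ : ∀ v ∈ h₁, v ∈ h₂ → v = u) (d₁₃ : ∀ v ∈ h₁, v ∈ h₃ → v = u)
    (d₂₃ : ∀ v ∈ h₂, v ∈ h₃ → v = u) : False := by
  obtain ⟨p₁, q₁, a1, a2, a3, rfl⟩ := t₁.split m₁
  obtain ⟨p₂, q₂, b1, b2, b3, rfl⟩ := t₂.split m₂
  obtain ⟨p₃, q₃, c1, c2, c3, rfl⟩ := t₃.split m₃
  have e1 := hB.leaf u p₁ q₁ a1 a2 a3 t₁.1
  have e2 := hB.leaf u p₂ q₂ b1 b2 b3 t₂.1
  have e3 := hB.leaf u p₃ q₃ c1 c2 c3 t₃.1
  have hu := t₁.2.2 u m₁
  have n1 := t₁.2.2 p₁ (by simp)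
  have n2 := t₁.2.2 q₁ (by simp)
  have n3 := t₂.2.2 p₂ (by simp)
  have n4 := t₂.2.2 q₂ (by simp)
  have n5 := t₃.2.2 p₃ (by simp)
  have n6 := t₃.2.2 q₃ (by simp)
  have hp := pay3 F u {u, p₁, q₁} {p₁, q₁} {u, p₂, q₂} {p₂, q₂} {u, p₃, q₃} {p₃, q₃} 2 4
    (dj2 (fun h => a1 (d₁₂ _ (by simp) h).symm) (fun h => a2 (d₁₂ _ (by simp) h).symm))
    (dj2 (fun h => a1 (d₁₃ _ (by simp) h).symm) (fun h => a2 (d₁₃ _ (by simp) h).symm))
    (dj2 (fun h => b1 (d₁₂ _ h (by simp)).symm) (fun h => b2 (d₁₂ _ h (by simp)).symm))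
    (dj2 (fun h => b1 (d₂₃ _ (by simp) h).symm) (fun h => b2 (d₂₃ _ (by simp) h).symm))
    (dj2 (fun h => c1 (d₁₃ _ h (by simp)).symm) (fun h => c2 (d₁₃ _ h (by simp)).symm))
    (dj2 (fun h => c1 (d₂₃ _ h (by simp)).symm) (fun h => c2 (d₂₃ _ h (by simp)).symm))
    (by norm_num) (by norm_num)
  linarith

theorem fc_K13 (F : Finset (Finset α)) (hB : Blocks F) (a b c d t : α) (hab : a ≠ b)
    (hac : a ≠ c) (had : a ≠ d) (hat : a ≠ t) (hbc : b ≠ c) (hbd : b ≠ d) (hbt : b ≠ t)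
    (hcd : c ≠ d) (hct : c ≠ t) (hdt : d ≠ t) (t₁ : Tri F {a, b, c}) (t₂ : Tri F {a, b, d})
    (t₃ : Tri F {a, b, t}) : False := by
  have e1 := hB.pairT a b c hab hac hbc t₁.1
  have e2 := hB.pairT a b d hab had hbd t₂.1
  have e3 := hB.pairT a b t hab hat hbt t₃.1
  have na := t₁.2.2 a (by simp)
  have nb := t₁.2.2 b (by simp)
  have nc := t₁.2.2 c (by simp)
  have nd := t₂.2.2 d (by simp)
  have nt := t₃.2.2 t (by simp)
  have pa := pay3 F a {a, b, c} {c} {a, b, d} {d} {a, b, t} {t} 1 2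
    (dj13 hac.symm hbc.symm hcd) (dj13 hac.symm hbc.symm hct)
    (dj13 had.symm hbd.symm hcd.symm) (dj13 had.symm hbd.symm hdt)
    (dj13 hat.symm hbt.symm hct.symm) (dj13 hat.symm hbt.symm hdt.symm)
    (by norm_num) (by norm_num)
  have pb := pay3 F b {a, b, c} {c} {a, b, d} {d} {a, b, t} {t} 1 2
    (dj13 hac.symm hbc.symm hcd) (dj13 hac.symm hbc.symm hct)
    (dj13 had.symm hbd.symm hcd.symm) (dj13 had.symm hbd.symm hdt)
    (dj13 hat.symm hbt.symm hct.symm) (dj13 hat.symm hbt.symm hdt.symm)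
    (by norm_num) (by norm_num)
  linarith

theorem fc_H (F : Finset (Finset α)) (hB : Blocks F) (a b c d : α) (hab : a ≠ b) (hac : a ≠ c)
    (had : a ≠ d) (hbc : b ≠ c) (hbd : b ≠ d) (hcd : c ≠ d) (t₁ : Tri F {a, b, c})
    (t₂ : Tri F {a, b, d}) (g : Finset α) (t₃ : Tri F g) (ha : a ∈ g) (hb : b ∉ g) (hc : c ∉ g)
    (hd : d ∉ g) : False := by
  obtain ⟨y, z, hay, haz, hyz, rfl⟩ := t₃.split ha
  have e1 := hB.HB a b c d hab hac had hbc hbd hcd t₁.1 t₂.1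
  have e2 := hB.HL a y z hay haz hyz t₃.1
  have na := t₁.2.2 a (by simp)
  have nb := t₁.2.2 b (by simp)
  have nc := t₁.2.2 c (by simp)
  have nd := t₂.2.2 d (by simp)
  have ny := t₃.2.2 y (by simp)
  have nz := t₃.2.2 z (by simp)
  simp only [Finset.mem_insert, Finset.mem_singleton, not_or] at hb hc hd
  have p := pay2 F a {a, b, c, d} {b, c, d} {a, y, z} {y, z} 7 3 3 7
    (dj3 (nm3 hb.1 hb.2.1 hb.2.2) (nm3 hc.1 hc.2.1 hc.2.2) (nm3 hd.1 hd.2.1 hd.2.2))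
    (dj2 (nm4 hay.symm (Ne.symm hb.2.1) (Ne.symm hc.2.1) (Ne.symm hd.2.1))
      (nm4 haz.symm (Ne.symm hb.2.2) (Ne.symm hc.2.2) (Ne.symm hd.2.2)))
    (by norm_num) (by norm_num) (by norm_num) (by norm_num)
  linarith

theorem fc_E (F : Finset (Finset α)) (hB : Blocks F) (a b c d t : α) (hab : a ≠ b) (hac : a ≠ c)
    (had : a ≠ d) (hat : a ≠ t) (hbc : b ≠ c) (hbd : b ≠ d) (hbt : b ≠ t) (hcd : c ≠ d)
    (hct : c ≠ t) (hdt : d ≠ t) (t₁ : Tri F {a, b, c}) (t₂ : Tri F {a, b, d})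
    (t₃ : Tri F {a, c, t}) : False := by
  have e1 := hB.EB a b c d hab hac had hbc hbd hcd t₁.1 t₂.1
  have e2 := hB.EG a c t hac hat hct t₃.1
  have na := t₁.2.2 a (by simp)
  have nb := t₁.2.2 b (by simp)
  have nc := t₁.2.2 c (by simp)
  have nd := t₂.2.2 d (by simp)
  have nt := t₃.2.2 t (by simp)
  have pa := pay2 F a {a, b, c, d} {b, d} {a, c, t} {t} 5 2 2 5
    (dj2 (nm3 hab.symm hbc hbt) (nm3 had.symm hcd.symm hdt))
    (dj14 hat.symm hbt.symm hct.symm hdt.symm)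
    (by norm_num) (by norm_num) (by norm_num) (by norm_num)
  have pc := pay2 F c {a, b, c, d} {b, d} {a, c, t} {t} 3 2 2 3
    (dj2 (nm3 hab.symm hbc hbt) (nm3 had.symm hcd.symm hdt))
    (dj14 hat.symm hbt.symm hct.symm hdt.symm)
    (by norm_num) (by norm_num) (by norm_num) (by norm_num)
  linarith

theorem fc_D (F : Finset (Finset α)) (hB : Blocks F) (a b c d : α) (hab : a ≠ b) (hac : a ≠ c)
    (had : a ≠ d) (hbc : b ≠ c) (hbd : b ≠ d) (hcd : c ≠ d) (t₁ : Tri F {a, b, c})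
    (t₂ : Tri F {a, b, d}) (t₃ : Tri F {a, c, d}) : False := by
  have e1 := hB.DB a b c d hab hac had hbc hbd hcd t₁.1 t₂.1 t₃.1
  have na := t₁.2.2 a (by simp)
  have nb := t₁.2.2 b (by simp)
  have nc := t₁.2.2 c (by simp)
  have nd := t₂.2.2 d (by simp)
  linarith

/-- A leaf against an account of type `(4, 2)`. -/
theorem leaf_pay (F : Finset (Finset α)) (hB : Blocks F) (u : α) (f B T : Finset α)
    (tf : Tri F f) (hu : u ∈ f) (h1 : Disjoint T f) (h2 : ∀ v ∈ f, v ≠ u → v ∉ B) :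
    Pay F u B T 4 2 < 0 := by
  obtain ⟨p, q, hp, hq, hpq, rfl⟩ := tf.split hu
  have e := hB.leaf u p q hp hq hpq tf.1
  have nu := tf.2.2 u (by simp)
  have np := tf.2.2 p (by simp)
  have nq := tf.2.2 q (by simp)
  have pp := pay2 F u B T {u, p, q} {p, q} 4 2 2 4 h1
    (dj2 (h2 p (by simp) hp.symm) (h2 q (by simp) hq.symm))
    (by norm_num) (by norm_num) (by norm_num) (by norm_num)
  linarith

theorem fc_spider (F : Finset (Finset α)) (hB : Blocks F) (a b c : α) (hab : a ≠ b)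
    (hac : a ≠ c) (hbc : b ≠ c) (t : Tri F {a, b, c}) (f g h : Finset α) (tf : Tri F f)
    (tg : Tri F g) (th : Tri F h) (ha : a ∈ f) (hb : b ∈ g) (hc : c ∈ h) (fb : b ∉ f)
    (fc : c ∉ f) (ga : a ∉ g) (gc : c ∉ g) (hha : a ∉ h) (hhb : b ∉ h) : False := by
  have e := hB.cent a b c hab hac hbc t.1
  have na := t.2.2 a (by simp)
  have nb := t.2.2 b (by simp)
  have nc := t.2.2 c (by simp)
  have p1 := leaf_pay F hB a f {a, b, c} {b, c} tf ha (dj2 fb fc) (by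
    intro v hv hne
    exact nm3 hne (fun h' => fb (h' ▸ hv)) (fun h' => fc (h' ▸ hv)))
  have p2 := leaf_pay F hB b g {a, b, c} {a, c} tg hb (dj2 ga gc) (by
    intro v hv hne
    exact nm3 (fun h' => ga (h' ▸ hv)) hne (fun h' => gc (h' ▸ hv)))
  have p3 := leaf_pay F hB c h {a, b, c} {a, b} th hc (dj2 hha hhb) (by
    intro v hv hne
    exact nm3 (fun h' => hha (h' ▸ hv)) (fun h' => hhb (h' ▸ hv)) hne)
  linarith

theorem fc_G (F : Finset (Finset α)) (hB : Blocks F) (a b c d : α) (hab : a ≠ b) (hac : a ≠ c)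
    (had : a ≠ d) (hbc : b ≠ c) (hbd : b ≠ d) (hcd : c ≠ d) (t₁ : Tri F {a, b, c})
    (t₂ : Tri F {a, b, d}) (h k : Finset α) (th : Tri F h) (tk : Tri F k) (hc : c ∈ h)
    (ha : a ∉ h) (hb : b ∉ h) (kd : d ∈ k) (ka : a ∉ k) (kb : b ∉ k) : False := by
  have e1 := hB.e0G a b c hab hac hbc t₁.1
  have e2 := hB.e0G a b d hab had hbd t₂.1
  have na := t₁.2.2 a (by simp)
  have nb := t₁.2.2 b (by simp)
  have nc := t₁.2.2 c (by simp)
  have nd := t₂.2.2 d (by simp)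
  have p1 := leaf_pay F hB c h {a, b, c} {a, b} th hc (dj2 ha hb) (by
    intro v hv hne
    exact nm3 (fun h' => ha (h' ▸ hv)) (fun h' => hb (h' ▸ hv)) hne)
  have p2 := leaf_pay F hB d k {a, b, d} {a, b} tk kd (dj2 ka kb) (by
    intro v hv hne
    exact nm3 (fun h' => ka (h' ▸ hv)) (fun h' => kb (h' ▸ hv)) hne)
  have pa := pay2 F a {a, b, c} {c} {a, b, d} {d} 3 3 3 3
    (dj13 hac.symm hbc.symm hcd) (dj13 had.symm hbd.symm hcd.symm)
    (by norm_num) (by norm_num) (by norm_num) (by norm_num)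
  have pb := pay2 F b {a, b, c} {c} {a, b, d} {d} 3 3 3 3
    (dj13 hac.symm hbc.symm hcd) (dj13 had.symm hbd.symm hcd.symm)
    (by norm_num) (by norm_num) (by norm_num) (by norm_num)
  linarith

theorem fc_DD (F : Finset (Finset α)) (hB : Blocks F) (z q r a b d a' b' d' : α) (hzq : z ≠ q)
    (hzr : z ≠ r) (hqr : q ≠ r) (tk : Tri F {z, q, r}) (hqa : q ≠ a) (hqb : q ≠ b)
    (hab : a ≠ b) (t₁ : Tri F {q, a, b}) (had : a ≠ d) (hbd : b ≠ d) (hqd : q ≠ d)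
    (t₂ : Tri F {a, b, d}) (hra : r ≠ a') (hrb : r ≠ b') (hab' : a' ≠ b')
    (t₃ : Tri F {r, a', b'}) (had' : a' ≠ d') (hbd' : b' ≠ d') (hrd' : r ≠ d')
    (t₄ : Tri F {a', b', d'}) (hza : z ≠ a) (hzb : z ≠ b) (hra1 : r ≠ a) (hrb1 : r ≠ b)
    (hza' : z ≠ a') (hzb' : z ≠ b') (hqa' : q ≠ a') (hqb' : q ≠ b') : False := by
  have e0 := hB.kD z q r hzq hzr hqr tk.1
  have e1 := hB.e0D q a b hqa hqb hab t₁.1
  have e2 := hB.pairT a b d hab had hbd t₂.1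
  have e3 := hB.e0D r a' b' hra hrb hab' t₃.1
  have e4 := hB.pairT a' b' d' hab' had' hbd' t₄.1
  have nz := tk.2.2 z (by simp)
  have nq := tk.2.2 q (by simp)
  have nr := tk.2.2 r (by simp)
  have na := t₁.2.2 a (by simp)
  have nb := t₁.2.2 b (by simp)
  have nd := t₂.2.2 d (by simp)
  have na' := t₃.2.2 a' (by simp)
  have nb' := t₃.2.2 b' (by simp)
  have nd' := t₄.2.2 d' (by simp)
  have pq := pay2 F q {z, q, r} {z, r} {q, a, b} {a, b} 2 2 2 2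
    (dj2 (nm3 hzq hza hzb) (nm3 hqr.symm hra1 hrb1))
    (dj2 (nm3 hza.symm hqa.symm hra1.symm) (nm3 hzb.symm hqb.symm hrb1.symm))
    (by norm_num) (by norm_num) (by norm_num) (by norm_num)
  have pr := pay2 F r {z, q, r} {z, q} {r, a', b'} {a', b'} 2 2 2 2
    (dj2 (nm3 hzr hza' hzb') (nm3 hqr hqa' hqb'))
    (dj2 (nm3 hza'.symm hqa'.symm hra.symm) (nm3 hzb'.symm hqb'.symm hrb.symm))
    (by norm_num) (by norm_num) (by norm_num) (by norm_num)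
  have pa := pay2 F a {q, a, b} {q} {a, b, d} {d} 2 1 1 2
    (dj13 hqa hqb hqd) (dj13 hqd.symm had.symm hbd.symm)
    (by norm_num) (by norm_num) (by norm_num) (by norm_num)
  have pb := pay2 F b {q, a, b} {q} {a, b, d} {d} 2 1 1 2
    (dj13 hqa hqb hqd) (dj13 hqd.symm had.symm hbd.symm)
    (by norm_num) (by norm_num) (by norm_num) (by norm_num)
  have pa' := pay2 F a' {r, a', b'} {r} {a', b', d'} {d'} 2 1 1 2
    (dj13 hra hrb hrd') (dj13 hrd'.symm had'.symm hbd'.symm)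
    (by norm_num) (by norm_num) (by norm_num) (by norm_num)
  have pb' := pay2 F b' {r, a', b'} {r} {a', b', d'} {d'} 2 1 1 2
    (dj13 hra hrb hrd') (dj13 hrd'.symm had'.symm hbd'.symm)
    (by norm_num) (by norm_num) (by norm_num) (by norm_num)
  linarith

end Pool.Agent.Lib.MP_ff7426_co.U3
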