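import Pool.Agent.Lib.MP_ff7426_co.U3.Two

/-!
MP_ff7426_co (helper33): the union-closed sets conjecture, and two half-frequent elements, for
families generated by sets of size at most three.
-/

set_option autoImplicit false

namespace Pool.Agent.Lib.MP_ff7426_co.U3

variable {α : Type*} [DecidableEq α]

/-- a member with one element gives a half-frequent element -/
theorem half_of_singleton (F : Finset (Finset α)) (hU : Uc F) (u : α) (hu : {u} ∈ F) :
    F.card ≤ 2 * (F.filter (fun A => u ∈ A)).card := by
  have h1 : (F.filter (fun A => ¬ u ∈ A)).card ≤ (F.filter (fun A => u ∈ A)).card := by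
    refine Finset.card_le_card_of_injOn (fun A => A ∪ {u}) ?_ ?_
    · intro A hA
      rw [Finset.mem_coe, Finset.mem_filter] at hA
      rw [Finset.mem_coe, Finset.mem_filter]
      exact ⟨hU A hA.1 _ hu, Finset.mem_union_right _ (Finset.mem_singleton_self u)⟩
    · intro A hA B hB h
      rw [Finset.mem_coe, Finset.mem_filter] at hA hB
      simp only at h
      have h2 : (A ∪ {u}).erase u = A := by
        ext z
        simp only [Finset.mem_erase, Finset.mem_union, Finset.mem_singleton]
        constructor
        · rintro ⟨h3, h4 | h4⟩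
          · exact h4
          · exact absurd h4 h3
        · intro hz
          exact ⟨fun h5 => hA.2 (h5 ▸ hz), Or.inl hz⟩
      have h3 : (B ∪ {u}).erase u = B := by
        ext z
        simp only [Finset.mem_erase, Finset.mem_union, Finset.mem_singleton]
        constructor
        · rintro ⟨h3, h4 | h4⟩
          · exact h4
          · exact absurd h4 h3
        · intro hz
          exact ⟨fun h5 => hB.2 (h5 ▸ hz), Or.inl hz⟩
      rw [← h2, ← h3, h]
  have := Finset.card_filter_add_card_filter_not (s := F) (fun A => u ∈ A)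
  omega

theorem frankl (F : Finset (Finset α)) (hU : Uc F) (h3 : ∀ A, Irr F A → A.card ≤ 3)
    (hne : ∃ A ∈ F, A.Nonempty) :
    ∃ u, F.card ≤ 2 * (F.filter (fun A => u ∈ A)).card ∧
      ((∀ A ∈ F, A.card ≠ 1) → ∃ v, v ≠ u ∧ F.card ≤ 2 * (F.filter (fun A => v ∈ A)).card) := by
  by_cases hs : ∀ A ∈ F, A.card ≠ 1
  · obtain ⟨x, _, y, _, hxy, h1, h2⟩ := two_half F hU h3 hs hne
    exact ⟨x, h1, fun _ => ⟨y, hxy.symm, h2⟩⟩
  · push Not at hs
    obtain ⟨A, hA, hc⟩ := hs
    obtain ⟨u, rfl⟩ := Finset.card_eq_one.1 hc
    exact ⟨u, half_of_singleton F hU u hA, fun h => absurd hc (h _ hA)⟩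

end Pool.Agent.Lib.MP_ff7426_co.U3
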