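import Pool.Agent.Lib.MP_ff7426_co.U3.Base

/-!
MP_ff7426_co, row R3: `pairE`, `free_ex`, `lemT`.
-/

set_option autoImplicit false

namespace Pool.Agent.Lib.MP_ff7426_co.U3

variable {α : Type*} [DecidableEq α]

theorem ex_eq_card (F : Finset (Finset α)) (v : α) :
    ex F v = ((F.filter (fun A => v ∈ A)).card : ℤ) - (F.filter (fun A => v ∉ A)).card := by
  unfold ex
  rw [Finset.sum_ite, Finset.sum_const, Finset.sum_const]
  simp [sub_eq_add_neg]

theorem ex_add_card (F : Finset (Finset α)) (u v : α) :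
    ex F u + ex F v = 2 * ((F.filter (fun A => u ∈ A ∧ v ∈ A)).card : ℤ)
      - 2 * (F.filter (fun A => u ∉ A ∧ v ∉ A)).card := by
  unfold ex
  rw [← Finset.sum_add_distrib, Finset.card_filter, Finset.card_filter]
  push_cast
  rw [Finset.mul_sum, Finset.mul_sum, ← Finset.sum_sub_distrib]
  refine Finset.sum_congr rfl fun A _ => ?_
  by_cases h1 : u ∈ A <;> by_cases h2 : v ∈ A <;> simp [h1, h2]

theorem pairE (F : Finset (Finset α)) (hU : Uc F) (E : Finset α) (hE : E ∈ F) (u v : α)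
    (hu : u ∈ E) (hv : v ∈ E) (h : ∀ A ∈ F, u ∉ A → v ∉ A → Disjoint A E) :
    0 ≤ ex F u + ex F v := by
  rw [ex_add_card]
  have hc : (F.filter (fun A => u ∉ A ∧ v ∉ A)).card ≤
      (F.filter (fun A => u ∈ A ∧ v ∈ A)).card := by
    refine Finset.card_le_card_of_injOn (fun A => A ∪ E) ?_ ?_
    · intro A hA
      simp only [Finset.coe_filter, Set.mem_ofPred_eq] at hA ⊢
      exact ⟨hU A hA.1 E hE, Finset.mem_union_right _ hu, Finset.mem_union_right _ hv⟩
    · intro A hA B hB hAB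
      simp only [Finset.coe_filter, Set.mem_ofPred_eq] at hA hB
      have dA := h A hA.1 hA.2.1 hA.2.2
      have dB := h B hB.1 hB.2.1 hB.2.2
      have h1 : (A ∪ E) \ E = A := Finset.union_sdiff_cancel_right dA
      have h2 : (B ∪ E) \ E = B := Finset.union_sdiff_cancel_right dB
      rw [← h1, ← h2]
      exact congrArg (· \ E) hAB
  have : ((F.filter (fun A => u ∉ A ∧ v ∉ A)).card : ℤ) ≤
      (F.filter (fun A => u ∈ A ∧ v ∈ A)).card := by exact_mod_cast hc
  linarith

theorem free_ex (G H : Finset (Finset α)) (hG : ∀ W, W ∈ G ↔ Cov H W)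
    (hp : ∀ h ∈ H, ∃ v ∈ h, ∀ k ∈ H, v ∈ k → k = h) (z : α) (k : Finset α) (hk : k ∈ H)
    (hz : z ∈ k) : 0 ≤ ex G z := by
  rw [ex_eq_card]
  have key : ∀ W W' : Finset α, W ∈ G → W' ∈ G → z ∉ W → W ∪ k = W' ∪ k → W ⊆ W' := by
    intro W W' hW hW' hzW hu v hv
    obtain ⟨h, hh, hvh, hhW⟩ := (hG W).1 hW v hv
    obtain ⟨p, hph, hpp⟩ := hp h hh
    have hpk : p ∉ k := by
      intro hpk
      have := hpp k hk hpk
      exact hzW (hhW (this ▸ hz))
    have hpW' : p ∈ W' := by
      have : p ∈ W' ∪ k := hu ▸ Finset.mem_union_left _ (hhW hph)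
      rcases Finset.mem_union.1 this with h1 | h1
      · exact h1
      · exact absurd h1 hpk
    obtain ⟨h', hh', hph', hh'W⟩ := (hG W').1 hW' p hpW'
    have := hpp h' hh' hph'
    exact hh'W (this ▸ hvh)
  have hc : (G.filter (fun A => z ∉ A)).card ≤ (G.filter (fun A => z ∈ A)).card := by
    refine Finset.card_le_card_of_injOn (fun A => A ∪ k) ?_ ?_
    · intro A hA
      simp only [Finset.coe_filter, Set.mem_ofPred_eq] at hA ⊢
      refine ⟨(hG _).2 ?_, Finset.mem_union_right _ hz⟩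
      intro v hv
      rcases Finset.mem_union.1 hv with h1 | h1
      · obtain ⟨h, hh, hvh, hhA⟩ := (hG A).1 hA.1 v h1
        exact ⟨h, hh, hvh, hhA.trans Finset.subset_union_left⟩
      · exact ⟨k, hk, h1, Finset.subset_union_right⟩
    · intro A hA B hB hAB
      simp only [Finset.coe_filter, Set.mem_ofPred_eq] at hA hB
      exact Finset.Subset.antisymm (key A B hA.1 hB.1 hA.2 hAB)
        (key B A hB.1 hA.1 hB.2 hAB.symm)
  have : ((G.filter (fun A => z ∉ A)).card : ℤ) ≤ (G.filter (fun A => z ∈ A)).card := by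
    exact_mod_cast hc
  linarith

theorem uc_of_cov (F J : Finset (Finset α)) (hF : ∀ W, W ∈ F ↔ Cov J W) : Uc F := by
  intro A hA B hB
  rw [hF] at hA hB ⊢
  intro v hv
  rcases Finset.mem_union.1 hv with h1 | h1
  · obtain ⟨h, hh, hvh, hhA⟩ := hA v h1
    exact ⟨h, hh, hvh, hhA.trans Finset.subset_union_left⟩
  · obtain ⟨h, hh, hvh, hhB⟩ := hB v h1
    exact ⟨h, hh, hvh, hhB.trans Finset.subset_union_right⟩

theorem mem_of_gen (F J : Finset (Finset α)) (hF : ∀ W, W ∈ F ↔ Cov J W) (h : Finset α)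
    (hh : h ∈ J) : h ∈ F := (hF h).2 fun _ hv => ⟨h, hh, hv, subset_rfl⟩

/-- Splitting by the membership of `x`. -/
theorem ex_split (F : Finset (Finset α)) (x v : α) :
    ex F v = ex (F.filter (fun A => x ∈ A)) v + ex (F.filter (fun A => x ∉ A)) v := by
  unfold ex
  rw [Finset.sum_filter_add_sum_filter_not]

theorem lemT1 (F : Finset (Finset α)) (hU : Uc F) (x a z : α) (L : Finset α) (hL : L ∈ F)
    (hxL : x ∈ L) (haL : a ∈ L) (hzL : z ∈ L) (hsub : ∀ v ∈ L, v = x ∨ v = a ∨ v = z)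
    (hG : 0 ≤ ex (F.filter (fun A => x ∉ A)) a + ex (F.filter (fun A => x ∉ A)) z) :
    0 ≤ ex F a + ex F z := by
  rw [ex_split F x a, ex_split F x z]
  have h1 : 0 ≤ ex (F.filter (fun A => x ∈ A)) a + ex (F.filter (fun A => x ∈ A)) z := by
    rw [ex_add_card]
    have hc : ((F.filter (fun A => x ∈ A)).filter (fun A => a ∉ A ∧ z ∉ A)).card ≤
        ((F.filter (fun A => x ∈ A)).filter (fun A => a ∈ A ∧ z ∈ A)).card := by
      refine Finset.card_le_card_of_injOn (fun A => A ∪ L) ?_ ?_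
      · intro A hA
        simp only [Finset.coe_filter, Set.mem_ofPred_eq, Finset.mem_filter] at hA ⊢
        exact ⟨⟨hU A hA.1.1 L hL, Finset.mem_union_right _ hxL⟩, Finset.mem_union_right _ haL,
          Finset.mem_union_right _ hzL⟩
      · have key : ∀ A B : Finset α, x ∈ B → a ∉ A → z ∉ A → A ∪ L = B ∪ L → A ⊆ B := by
          intro A B hxB haA hzA hAB v hv
          have : v ∈ B ∪ L := hAB ▸ Finset.mem_union_left _ hv
          rcases Finset.mem_union.1 this with h | h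
          · exact h
          · rcases hsub v h with rfl | rfl | rfl
            · exact hxB
            · exact absurd hv haA
            · exact absurd hv hzA
        intro A hA B hB hAB
        simp only [Finset.coe_filter, Set.mem_ofPred_eq, Finset.mem_filter] at hA hB
        exact Finset.Subset.antisymm (key A B hB.1.2 hA.2.1 hA.2.2 hAB)
          (key B A hA.1.2 hB.2.1 hB.2.2 hAB.symm)
    have : (((F.filter (fun A => x ∈ A)).filter (fun A => a ∉ A ∧ z ∉ A)).card : ℤ) ≤
        ((F.filter (fun A => x ∈ A)).filter (fun A => a ∈ A ∧ z ∈ A)).card := by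
      exact_mod_cast hc
    linarith
  linarith

/-- Members missing `x` are covered by generators missing `x`. -/
theorem gen_missing (F J : Finset (Finset α)) (hF : ∀ W, W ∈ F ↔ Cov J W) (x : α)
    (W : Finset α) (hW : W ∈ F) (hx : x ∉ W) (v : α) (hv : v ∈ W) :
    ∃ h ∈ J, x ∉ h ∧ v ∈ h ∧ h ⊆ W := by
  obtain ⟨h, hh, hvh, hhW⟩ := (hF W).1 hW v hv
  exact ⟨h, hh, fun hxh => hx (hhW hxh), hvh, hhW⟩

theorem lemT2 (F J : Finset (Finset α)) (hF : ∀ W, W ∈ F ↔ Cov J W) (x a b z : α)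
    (hab : a ≠ b) (hbx : b ≠ x) (hzx : z ≠ x) (hza : z ≠ a)
    (htw : ∀ h ∈ J, x ∉ h → (a ∈ h ↔ b ∈ h)) (hz0 : ¬ ∃ h ∈ J, x ∉ h ∧ z ∈ h)
    (hno : ∀ j ∈ J, x ∈ j → b ∈ j → ∃ w ∈ j, w ≠ x ∧ ¬ ∃ h ∈ J, x ∉ h ∧ w ∈ h)
    (L : Finset α) (hL : L ∈ J) (hxL : x ∈ L) (haL : a ∈ L) (hzL : z ∈ L)
    (hsub : ∀ v ∈ L, v = x ∨ v = a ∨ v = z)
    (hGa : 0 ≤ ex (F.filter (fun A => x ∉ A)) a) : 0 ≤ ex F a + ex F z := by
  have hU := uc_of_cov F J hF
  have hLF := mem_of_gen F J hF L hL
  have hzx' : ∀ W ∈ F, x ∉ W → z ∉ W := by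
    intro W hW hxW hzW
    obtain ⟨h, hh, hxh, hzh, _⟩ := gen_missing F J hF x W hW hxW z hzW
    exact hz0 ⟨h, hh, hxh, hzh⟩
  rw [ex_add_card]
  rw [ex_eq_card] at hGa
  set X1 := F.filter (fun A => x ∈ A ∧ a ∉ A ∧ z ∉ A) with hX1
  set X2 := (F.filter (fun A => x ∉ A)).filter (fun A => a ∈ A) with hX2
  set X3 := (F.filter (fun A => x ∉ A)).filter (fun A => a ∉ A) with hX3
  have h1 : (F.filter (fun A => a ∉ A ∧ z ∉ A)).card ≤ X1.card + X3.card := by
    refine le_trans (Finset.card_le_card ?_) (Finset.card_union_le X1 X3)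
    intro A hA
    simp only [hX1, hX3, Finset.mem_union, Finset.mem_filter] at hA ⊢
    by_cases hxA : x ∈ A
    · exact Or.inl ⟨hA.1, hxA, hA.2⟩
    · exact Or.inr ⟨⟨hA.1, hxA⟩, hA.2.1⟩
  -- the two images are disjoint
  have hinj1 : Set.InjOn (fun A => A ∪ L) (X1 : Set (Finset α)) := by
    have key : ∀ A B : Finset α, x ∈ B → a ∉ A → z ∉ A → A ∪ L = B ∪ L → A ⊆ B := by
      intro A B hxB haA hzA hAB v hv
      have : v ∈ B ∪ L := hAB ▸ Finset.mem_union_left _ hv
      rcases Finset.mem_union.1 this with h | h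
      · exact h
      · rcases hsub v h with rfl | rfl | rfl
        · exact hxB
        · exact absurd hv haA
        · exact absurd hv hzA
    intro A hA B hB hAB
    simp only [hX1, Finset.coe_filter, Set.mem_ofPred_eq] at hA hB
    exact Finset.Subset.antisymm (key A B hB.2.1 hA.2.2.1 hA.2.2.2 hAB)
      (key B A hA.2.1 hB.2.2.1 hB.2.2.2 hAB.symm)
  have hinj2 : Set.InjOn (fun A => A ∪ L) (X2 : Set (Finset α)) := by
    have key : ∀ A B : Finset α, a ∈ B → x ∉ A → z ∉ A → A ∪ L = B ∪ L → A ⊆ B := by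
      intro A B haB hxA hzA hAB v hv
      have : v ∈ B ∪ L := hAB ▸ Finset.mem_union_left _ hv
      rcases Finset.mem_union.1 this with h | h
      · exact h
      · rcases hsub v h with rfl | rfl | rfl
        · exact absurd hv hxA
        · exact haB
        · exact absurd hv hzA
    intro A hA B hB hAB
    simp only [hX2, Finset.coe_filter, Set.mem_ofPred_eq, Finset.mem_filter] at hA hB
    exact Finset.Subset.antisymm
      (key A B hB.2 hA.1.2 (hzx' A hA.1.1 hA.1.2) hAB)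
      (key B A hA.2 hB.1.2 (hzx' B hB.1.1 hB.1.2) hAB.symm)
  have hdisj : Disjoint (X1.image (fun A => A ∪ L)) (X2.image (fun A => A ∪ L)) := by
    rw [Finset.disjoint_left]
    intro S hS1 hS2
    obtain ⟨A, hA, rfl⟩ := Finset.mem_image.1 hS1
    obtain ⟨W, hW, hWA⟩ := Finset.mem_image.1 hS2
    simp only [hX1, Finset.mem_filter] at hA
    simp only [hX2, Finset.mem_filter] at hW
    have hWA' : W ∪ L = A ∪ L := hWA
    -- b in W
    obtain ⟨h, hh, hxh, hah, hhW⟩ := gen_missing F J hF x W hW.1.1 hW.1.2 a hW.2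
    have hbW : b ∈ W := hhW ((htw h hh hxh).1 hah)
    have hbA : b ∈ A := by
      have : b ∈ A ∪ L := hWA' ▸ Finset.mem_union_left _ hbW
      rcases Finset.mem_union.1 this with h | h
      · exact h
      · rcases hsub b h with h | h | h
        · exact absurd h hbx
        · exact absurd h.symm hab
        · exact absurd (h ▸ hbW) (hzx' W hW.1.1 hW.1.2)
    obtain ⟨j, hj, hbj, hjA⟩ := (hF A).1 hA.1 b hbA
    by_cases hxj : x ∈ j
    · obtain ⟨w, hwj, hwx, hw0⟩ := hno j hj hxj hbj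
      have hwA := hjA hwj
      have hwW : w ∈ W := by
        have : w ∈ W ∪ L := hWA'.symm ▸ Finset.mem_union_left _ hwA
        rcases Finset.mem_union.1 this with h | h
        · exact h
        · rcases hsub w h with h | h | h
          · exact absurd h hwx
          · exact absurd (h ▸ hwA) hA.2.2.1
          · exact absurd (h ▸ hwA) hA.2.2.2
      obtain ⟨h', hh', hxh', hwh', _⟩ := gen_missing F J hF x W hW.1.1 hW.1.2 w hwW
      exact hw0 ⟨h', hh', hxh', hwh'⟩
    · exact hA.2.2.1 (hjA ((htw j hj hxj).2 hbj))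
  have h2 : X1.card + X2.card ≤ (F.filter (fun A => a ∈ A ∧ z ∈ A)).card := by
    rw [← Finset.card_image_of_injOn hinj1, ← Finset.card_image_of_injOn hinj2,
      ← Finset.card_union_of_disjoint hdisj]
    refine Finset.card_le_card ?_
    intro S hS
    rw [Finset.mem_filter]
    rcases Finset.mem_union.1 hS with h | h
    · obtain ⟨A, hA, rfl⟩ := Finset.mem_image.1 h
      simp only [hX1, Finset.mem_filter] at hA
      exact ⟨hU A hA.1 L hLF, Finset.mem_union_right _ haL, Finset.mem_union_right _ hzL⟩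
    · obtain ⟨A, hA, rfl⟩ := Finset.mem_image.1 h
      simp only [hX2, Finset.mem_filter] at hA
      exact ⟨hU A hA.1.1 L hLF, Finset.mem_union_right _ haL, Finset.mem_union_right _ hzL⟩
  have h3 : ((F.filter (fun A => a ∉ A ∧ z ∉ A)).card : ℤ) ≤ X1.card + X3.card := by
    exact_mod_cast h1
  have h4 : (X1.card : ℤ) + X2.card ≤ (F.filter (fun A => a ∈ A ∧ z ∈ A)).card := by
    exact_mod_cast h2
  linarith

theorem lemT (F J : Finset (Finset α)) (hF : ∀ W, W ∈ F ↔ Cov J W) (x a b : α) (hab : a ≠ b)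
    (hax : a ≠ x) (hbx : b ≠ x) (htw : ∀ h ∈ J, x ∉ h → (a ∈ h ↔ b ∈ h))
    (ha : ∃ h ∈ J, x ∉ h ∧ a ∈ h)
    (hsum : ∀ z, (∃ h ∈ J, x ∉ h ∧ z ∈ h) →
      0 ≤ ex (F.filter (fun A => x ∉ A)) a + ex (F.filter (fun A => x ∉ A)) z)
    (hsmall : ∀ j ∈ J, x ∈ j → (a ∈ j ∨ b ∈ j) → j.card ≤ 3)
    (hneg : ∀ v, v ≠ x → ex F v < 0) : ∀ j ∈ J, x ∈ j → a ∉ j ∧ b ∉ j := by
  have hU := uc_of_cov F J hF
  have hb : ∃ h ∈ J, x ∉ h ∧ b ∈ h := by
    obtain ⟨h, hh, hxh, hah⟩ := ha
    exact ⟨h, hh, hxh, (htw h hh hxh).1 hah⟩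
  have hexab : ex (F.filter (fun A => x ∉ A)) a = ex (F.filter (fun A => x ∉ A)) b := by
    unfold ex
    refine Finset.sum_congr rfl fun W hW => ?_
    rw [Finset.mem_filter] at hW
    have : a ∈ W ↔ b ∈ W := by
      constructor
      · intro h
        obtain ⟨g, hg, hxg, hag, hgW⟩ := gen_missing F J hF x W hW.1 hW.2 a h
        exact hgW ((htw g hg hxg).1 hag)
      · intro h
        obtain ⟨g, hg, hxg, hbg, hgW⟩ := gen_missing F J hF x W hW.1 hW.2 b h
        exact hgW ((htw g hg hxg).2 hbg)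
    simp [this]
  have hGa : 0 ≤ ex (F.filter (fun A => x ∉ A)) a := by
    have := hsum a ha
    linarith
  have hGb : 0 ≤ ex (F.filter (fun A => x ∉ A)) b := hexab ▸ hGa
  -- a generator `{x, c, z}`
  have shape : ∀ L : Finset α, ∀ c : α, L.card ≤ 3 → x ∈ L → c ∈ L → c ≠ x →
      ∀ w ∈ L, w ≠ x → w ≠ c → ∀ v ∈ L, v = x ∨ v = c ∨ v = w := by
    intro L c hc hx hcL hcx w hw hwx hwc v hv
    by_contra hcon
    push Not at hcon
    have hs : ({x, c, w, v} : Finset α) ⊆ L := by
      intro t ht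
      simp only [Finset.mem_insert, Finset.mem_singleton] at ht
      rcases ht with rfl | rfl | rfl | rfl <;> assumption
    have h4 : ({x, c, w, v} : Finset α).card = 4 := by
      rw [Finset.card_insert_of_notMem, Finset.card_insert_of_notMem,
        Finset.card_insert_of_notMem, Finset.card_singleton]
      · simp only [Finset.mem_singleton]
        exact fun h => hcon.2.2 h.symm
      · simp only [Finset.mem_insert, Finset.mem_singleton]
        rintro (h | h)
        · exact hwc h.symm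
        · exact hcon.2.1 h.symm
      · simp only [Finset.mem_insert, Finset.mem_singleton]
        rintro (h | h | h)
        · exact hcx h.symm
        · exact hwx h.symm
        · exact hcon.1 h.symm
    have := Finset.card_le_card hs
    omega
  -- case 1
  have case1 : ∀ L ∈ J, x ∈ L → ∀ c ∈ L, (c = a ∨ c = b) →
      (∀ v ∈ L, v ≠ x → ∃ h ∈ J, x ∉ h ∧ v ∈ h) → False := by
    intro L hL hxL c hcL hcab hin
    have hcx : c ≠ x := by rcases hcab with rfl | rfl <;> assumption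
    have hcard : L.card ≤ 3 := by
      refine hsmall L hL hxL ?_
      rcases hcab with rfl | rfl
      · exact Or.inl hcL
      · exact Or.inr hcL
    have hc0 : ∃ h ∈ J, x ∉ h ∧ c ∈ h := hin c hcL hcx
    have hcs : ∀ z, (∃ h ∈ J, x ∉ h ∧ z ∈ h) →
        0 ≤ ex (F.filter (fun A => x ∉ A)) c + ex (F.filter (fun A => x ∉ A)) z := by
      intro z hz
      rcases hcab with rfl | rfl
      · exact hsum z hz
      · rw [← hexab]
        exact hsum z hz
    by_cases hw : ∃ w ∈ L, w ≠ x ∧ w ≠ c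
    · obtain ⟨w, hwL, hwx, hwc⟩ := hw
      have h1 := lemT1 F hU x c w L (mem_of_gen F J hF L hL) hxL hcL hwL
        (shape L c hcard hxL hcL hcx w hwL hwx hwc) (hcs w (hin w hwL hwx))
      have h2 := hneg c hcx
      have h3 := hneg w hwx
      linarith
    · push Not at hw
      have h1 := lemT1 F hU x c c L (mem_of_gen F J hF L hL) hxL hcL hcL
        (fun v hv => by
          by_cases hvx : v = x
          · exact Or.inl hvx
          · exact Or.inr (Or.inl (hw v hv hvx))) (hcs c hc0)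
      have h2 := hneg c hcx
      linarith
  -- case 2
  have hno : ∀ c : α, (c = a ∨ c = b) → ∀ j ∈ J, x ∈ j → c ∈ j →
      ∃ w ∈ j, w ≠ x ∧ ¬ ∃ h ∈ J, x ∉ h ∧ w ∈ h := by
    intro c hc j hj hxj hcj
    by_contra hcon
    push Not at hcon
    exact case1 j hj hxj c hcj hc fun v hv hvx => by
      obtain ⟨h, hh, hxh, hvh⟩ := hcon v hv hvx
      exact ⟨h, hh, hxh, hvh⟩
  intro j hj hxj
  refine ⟨fun haj => ?_, fun hbj => ?_⟩
  · obtain ⟨w, hwj, hwx, hw0⟩ := hno a (Or.inl rfl) j hj hxj haj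
    have hwa : w ≠ a := fun h => hw0 (h ▸ ha)
    have h1 := lemT2 F J hF x a b w hab hbx hwx hwa htw hw0 (hno b (Or.inr rfl)) j hj hxj haj hwj
      (shape j a (hsmall j hj hxj (Or.inl haj)) hxj haj hax w hwj hwx hwa) hGa
    have h2 := hneg a hax
    have h3 := hneg w hwx
    linarith
  · obtain ⟨w, hwj, hwx, hw0⟩ := hno b (Or.inr rfl) j hj hxj hbj
    have hwb : w ≠ b := fun h => hw0 (h ▸ hb)
    have h1 := lemT2 F J hF x b a w hab.symm hax hwx hwb (fun h hh hxh => (htw h hh hxh).symm)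
      hw0 (hno a (Or.inl rfl)) j hj hxj hbj hwj
      (shape j b (hsmall j hj hxj (Or.inr hbj)) hxj hbj hbx w hwj hwx hwb) hGb
    have h2 := hneg b hbx
    have h3 := hneg w hwx
    linarith

end Pool.Agent.Lib.MP_ff7426_co.U3
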