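import Pool.Agent.Lib.MP_ff7426_co.U3.Checks

/-!
MP_ff7426_co (helper33): the block inequalities `blocks`.
-/

set_option autoImplicit false

namespace Pool.Agent.Lib.MP_ff7426_co.U3

open Loc

variable {α : Type*} [DecidableEq α]

/-- three labelled points -/
def b3 (u p q : α) (i : ℕ) : α := if i = 0 then u else if i = 1 then p else q

/-- four labelled points -/
def b4 (u p q r : α) (i : ℕ) : α := if i = 0 then u else if i = 1 then p else if i = 2 then q else r

theorem img3 (u p q : α) : (Finset.range 3).image (b3 u p q) = {u, p, q} := by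
  ext v
  simp only [Finset.mem_image, Finset.mem_range, Finset.mem_insert, Finset.mem_singleton]
  constructor
  · rintro ⟨i, hi, rfl⟩
    interval_cases i <;> simp [b3]
  · rintro (rfl | rfl | rfl)
    · exact ⟨0, by norm_num, rfl⟩
    · exact ⟨1, by norm_num, rfl⟩
    · exact ⟨2, by norm_num, rfl⟩

theorem img4 (u p q r : α) : (Finset.range 4).image (b4 u p q r) = {u, p, q, r} := by
  ext v
  simp only [Finset.mem_image, Finset.mem_range, Finset.mem_insert, Finset.mem_singleton]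
  constructor
  · rintro ⟨i, hi, rfl⟩
    interval_cases i <;> simp [b4]
  · rintro (rfl | rfl | rfl | rfl)
    · exact ⟨0, by norm_num, rfl⟩
    · exact ⟨1, by norm_num, rfl⟩
    · exact ⟨2, by norm_num, rfl⟩
    · exact ⟨3, by norm_num, rfl⟩

omit [DecidableEq α] in
theorem inj3 (u p q : α) (h1 : u ≠ p) (h2 : u ≠ q) (h3 : p ≠ q) :
    ∀ i < 3, ∀ j < 3, b3 u p q i = b3 u p q j → i = j := by
  intro i hi j hj h
  interval_cases i <;> interval_cases j <;> simp_all [b3]

omit [DecidableEq α] in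
theorem inj4 (u p q r : α) (h1 : u ≠ p) (h2 : u ≠ q) (h3 : u ≠ r) (h4 : p ≠ q) (h5 : p ≠ r)
    (h6 : q ≠ r) : ∀ i < 4, ∀ j < 4, b4 u p q r i = b4 u p q r j → i = j := by
  intro i hi j hj h
  interval_cases i <;> interval_cases j <;> simp_all [b4]

theorem vs37 (u p q : α) : vs (b3 u p q) 3 7 = {u, p, q} := by
  rw [← img3, vs]
  congr 1

theorem vs47 (u p q r : α) : vs (b4 u p q r) 4 7 = {u, p, q} := by
  ext v
  rw [mem_vs]
  simp only [Finset.mem_insert, Finset.mem_singleton]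
  constructor
  · rintro ⟨i, hi, h, rfl⟩
    interval_cases i
    · simp [b4]
    · simp [b4]
    · simp [b4]
    · exact absurd h (by decide)
  · rintro (rfl | rfl | rfl)
    · exact ⟨0, by norm_num, by decide, rfl⟩
    · exact ⟨1, by norm_num, by decide, rfl⟩
    · exact ⟨2, by norm_num, by decide, rfl⟩

theorem vs411 (u p q r : α) : vs (b4 u p q r) 4 11 = {u, p, r} := by
  ext v
  rw [mem_vs]
  simp only [Finset.mem_insert, Finset.mem_singleton]
  constructor
  · rintro ⟨i, hi, h, rfl⟩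
    interval_cases i
    · simp [b4]
    · simp [b4]
    · exact absurd h (by decide)
    · simp [b4]
  · rintro (rfl | rfl | rfl)
    · exact ⟨0, by norm_num, by decide, rfl⟩
    · exact ⟨1, by norm_num, by decide, rfl⟩
    · exact ⟨3, by norm_num, by decide, rfl⟩

theorem vs413 (u p q r : α) : vs (b4 u p q r) 4 13 = {u, q, r} := by
  ext v
  rw [mem_vs]
  simp only [Finset.mem_insert, Finset.mem_singleton]
  constructor
  · rintro ⟨i, hi, h, rfl⟩
    interval_cases i
    · simp [b4]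
    · exact absurd h (by decide)
    · simp [b4]
    · simp [b4]
  · rintro (rfl | rfl | rfl)
    · exact ⟨0, by norm_num, by decide, rfl⟩
    · exact ⟨2, by norm_num, by decide, rfl⟩
    · exact ⟨3, by norm_num, by decide, rfl⟩

variable (F : Finset (Finset α)) (hU : Uc F) (h0 : ∅ ∈ F)

include hU h0 in
theorem LI3 (w : List ℕ) (act : List (ℕ × ℕ × ℕ × List ℕ))
    (hchk : chkF (mkE 3 [7]) (mkD 3 w act) = true)
    (hact : ∀ a ∈ act, a.1 < 3 ∧ ∀ j ∈ a.2.2.2, j < 3) (u p q : α) (h1 : u ≠ p) (h2 : u ≠ q)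
    (h3 : p ≠ q) (h : {u, p, q} ∈ F) :
    0 ≤ ((w.getD 0 0 : ℤ) * ex F u + (w.getD 1 0 : ℤ) * ex F p + (w.getD 2 0 : ℤ) * ex F q) +
      (act.map (fun a => Pay F (b3 u p q a.1) {u, p, q} (a.2.2.2.map (b3 u p q)).toFinset
        a.2.1 a.2.2.1)).sum := by
  have h4 := LI F hU h0 (b3 u p q) 3 (inj3 u p q h1 h2 h3) [7] w act hchk hact (by
    intro c hc
    rw [List.mem_singleton] at hc
    subst hc
    exact ⟨by norm_num, by rw [vs37]; exact h⟩)
  rw [img3, Finset.sum_range_succ, Finset.sum_range_succ, Finset.sum_range_succ,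
    Finset.sum_range_zero, zero_add] at h4
  exact h4

include hU h0 in
theorem LI4 (w : List ℕ) (act : List (ℕ × ℕ × ℕ × List ℕ))
    (hchk : chkF (mkE 4 [7, 11]) (mkD 4 w act) = true)
    (hact : ∀ a ∈ act, a.1 < 4 ∧ ∀ j ∈ a.2.2.2, j < 4) (u p q r : α) (h1 : u ≠ p) (h2 : u ≠ q)
    (h3 : u ≠ r) (h4 : p ≠ q) (h5 : p ≠ r) (h6 : q ≠ r) (h : {u, p, q} ∈ F) (h' : {u, p, r} ∈ F) :
    0 ≤ ((w.getD 0 0 : ℤ) * ex F u + (w.getD 1 0 : ℤ) * ex F p + (w.getD 2 0 : ℤ) * ex F q +
      (w.getD 3 0 : ℤ) * ex F r) +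
      (act.map (fun a => Pay F (b4 u p q r a.1) {u, p, q, r} (a.2.2.2.map (b4 u p q r)).toFinset
        a.2.1 a.2.2.1)).sum := by
  have h4 := LI F hU h0 (b4 u p q r) 4 (inj4 u p q r h1 h2 h3 h4 h5 h6) [7, 11] w act hchk hact (by
    intro c hc
    simp only [List.mem_cons, List.not_mem_nil, or_false] at hc
    rcases hc with rfl | rfl
    · exact ⟨by norm_num, by rw [vs47]; exact h⟩
    · exact ⟨by norm_num, by rw [vs411]; exact h'⟩)
  rw [img4, Finset.sum_range_succ, Finset.sum_range_succ, Finset.sum_range_succ,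
    Finset.sum_range_succ, Finset.sum_range_zero, zero_add] at h4
  exact h4

include hU h0 in
theorem LI4d (w : List ℕ) (act : List (ℕ × ℕ × ℕ × List ℕ))
    (hchk : chkF (mkE 4 [7, 11, 13]) (mkD 4 w act) = true)
    (hact : ∀ a ∈ act, a.1 < 4 ∧ ∀ j ∈ a.2.2.2, j < 4) (u p q r : α) (h1 : u ≠ p) (h2 : u ≠ q)
    (h3 : u ≠ r) (h4 : p ≠ q) (h5 : p ≠ r) (h6 : q ≠ r) (h : {u, p, q} ∈ F) (h' : {u, p, r} ∈ F)
    (h'' : {u, q, r} ∈ F) :
    0 ≤ ((w.getD 0 0 : ℤ) * ex F u + (w.getD 1 0 : ℤ) * ex F p + (w.getD 2 0 : ℤ) * ex F q +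
      (w.getD 3 0 : ℤ) * ex F r) +
      (act.map (fun a => Pay F (b4 u p q r a.1) {u, p, q, r} (a.2.2.2.map (b4 u p q r)).toFinset
        a.2.1 a.2.2.1)).sum := by
  have h4 := LI F hU h0 (b4 u p q r) 4 (inj4 u p q r h1 h2 h3 h4 h5 h6) [7, 11, 13] w act hchk
    hact (by
    intro c hc
    simp only [List.mem_cons, List.not_mem_nil, or_false] at hc
    rcases hc with rfl | rfl | rfl
    · exact ⟨by norm_num, by rw [vs47]; exact h⟩
    · exact ⟨by norm_num, by rw [vs411]; exact h'⟩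
    · exact ⟨by norm_num, by rw [vs413]; exact h''⟩)
  rw [img4, Finset.sum_range_succ, Finset.sum_range_succ, Finset.sum_range_succ,
    Finset.sum_range_succ, Finset.sum_range_zero, zero_add] at h4
  exact h4

/-- the block inequalities -/
theorem blocks (F : Finset (Finset α)) (hU : Uc F) (h0 : ∅ ∈ F) : Blocks F where
  leaf := by
    intro u p q h1 h2 h3 h
    have := LI3 F hU h0 _ _ chk_leaf (by simp) u p q h1 h2 h3 h
    simp [b3] at this
    linarith
  cent := by
    intro u p q h1 h2 h3 h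
    have := LI3 F hU h0 _ _ chk_cent (by simp) u p q h1 h2 h3 h
    simp [b3] at this
    linarith
  e0G := by
    intro u p q h1 h2 h3 h
    have := LI3 F hU h0 _ _ chk_e0G (by simp) u p q h1 h2 h3 h
    simp [b3] at this
    linarith
  two := by
    intro u p q h1 h2 h3 h
    have := LI3 F hU h0 _ _ chk_two (by simp) u p q h1 h2 h3 h
    simp [b3] at this
    linarith
  pairT := by
    intro u p q h1 h2 h3 h
    have := LI3 F hU h0 _ _ chk_pairT (by simp) u p q h1 h2 h3 h
    simp [b3] at this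
    linarith
  e0D := by
    intro u p q h1 h2 h3 h
    have := LI3 F hU h0 _ _ chk_e0D (by simp) u p q h1 h2 h3 h
    simp [b3] at this
    linarith
  kD := by
    intro u p q h1 h2 h3 h
    have := LI3 F hU h0 _ _ chk_kD (by simp) u p q h1 h2 h3 h
    simp [b3] at this
    linarith
  HB := by
    intro a b c d h1 h2 h3 h4 h5 h6 h h'
    have := LI4 F hU h0 _ _ chk_HB (by simp) a b c d h1 h2 h3 h4 h5 h6 h h'
    simp [b4] at this
    linarith
  HL := by
    intro u p q h1 h2 h3 h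
    have := LI3 F hU h0 _ _ chk_HL (by simp) u p q h1 h2 h3 h
    simp [b3] at this
    linarith
  EB := by
    intro a b c d h1 h2 h3 h4 h5 h6 h h'
    have := LI4 F hU h0 _ _ chk_EB (by simp) a b c d h1 h2 h3 h4 h5 h6 h h'
    simp [b4] at this
    linarith
  EG := by
    intro u p q h1 h2 h3 h
    have := LI3 F hU h0 _ _ chk_EG (by simp) u p q h1 h2 h3 h
    simp [b3] at this
    linarith
  DB := by
    intro a b c d h1 h2 h3 h4 h5 h6 h h' h''
    have := LI4d F hU h0 _ _ chk_DB (by simp) a b c d h1 h2 h3 h4 h5 h6 h h' h''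
    simp [b4] at this
    linarith

end Pool.Agent.Lib.MP_ff7426_co.U3
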