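import Pool.Agent.Lib.MP_ff7426_co.U3.Base

/-!
MP_ff7426_co, row R4: `M1`.
-/

set_option autoImplicit false

namespace Pool.Agent.Lib.MP_ff7426_co.U3

variable {α : Type*} [DecidableEq α]

/-- union of the generators inside `Z` missing `s` -/
def rem (H : Finset (Finset α)) (s : α) (Z : Finset α) : Finset α :=
  (H.filter (fun t => t ⊆ Z ∧ s ∉ t)).sup id

theorem mem_rem (H : Finset (Finset α)) (s : α) (Z : Finset α) (v : α) :
    v ∈ rem H s Z ↔ ∃ t ∈ H, t ⊆ Z ∧ s ∉ t ∧ v ∈ t := by
  unfold rem
  rw [Finset.mem_sup]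
  constructor
  · rintro ⟨t, ht, hv⟩
    rw [Finset.mem_filter] at ht
    exact ⟨t, ht.1, ht.2.1, ht.2.2, hv⟩
  · rintro ⟨t, ht, h1, h2, hv⟩
    exact ⟨t, Finset.mem_filter.2 ⟨ht, h1, h2⟩, hv⟩

theorem M1 (G H : Finset (Finset α)) (hG : ∀ W, W ∈ G ↔ Cov H W) (hd : Deg2 H)
    (h3 : ∀ h ∈ H, h.card = 3) (a b c d : α) (hab : a ≠ b) (hac : a ≠ c)
    (had : a ≠ d) (hbc : b ≠ c) (hbd : b ≠ d) (hcd : c ≠ d) (he : {a, b, c} ∈ H)
    (hf : {a, b, d} ∈ H) (hpd : ∀ k ∈ H, d ∈ k → k = {a, b, d}) :
    2 * (G.filter (fun A => a ∉ A)).card ≤ (G.filter (fun A => a ∈ A)).card := by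
  classical
  have hef : ({a, b, c} : Finset α) ≠ {a, b, d} := by
    intro heq
    have : c ∈ ({a, b, d} : Finset α) := heq ▸ (by simp)
    simp only [Finset.mem_insert, Finset.mem_singleton] at this
    rcases this with h1 | h1 | h1
    · exact hac h1.symm
    · exact hbc h1.symm
    · exact hcd h1
  -- a vertex s of the other triple at c
  obtain ⟨s, hsc, hs⟩ : ∃ s, s ≠ c ∧ ∀ h ∈ H, c ∈ h → h ≠ {a, b, c} → s ∈ h := by
    by_cases hex : ∃ h ∈ H, c ∈ h ∧ h ≠ {a, b, c}
    · obtain ⟨h, hh, hch, hne⟩ := hex
      have h1 : (h.erase c).Nonempty := by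
        rw [← Finset.card_pos, Finset.card_erase_of_mem hch, h3 h hh]
        norm_num
      obtain ⟨s, hs⟩ := h1
      rw [Finset.mem_erase] at hs
      refine ⟨s, hs.1, ?_⟩
      intro k hk hck hkne
      rcases hd c _ he h hh k hk (by simp) hch hck with h2 | h2 | h2
      · exact absurd h2.symm hne
      · exact absurd h2.symm hkne
      · rw [← h2]; exact hs.2
    · push Not at hex
      exact ⟨a, hac, fun h hh hch hne => absurd (hex h hh hch) hne⟩
  have memU : ∀ W ∈ G, ∀ h ∈ H, W ∪ h ∈ G := by
    intro W hW h hh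
    rw [hG] at hW ⊢
    intro v hv
    rcases Finset.mem_union.1 hv with hv | hv
    · obtain ⟨k, hk, hvk, hkW⟩ := hW v hv
      exact ⟨k, hk, hvk, hkW.trans Finset.subset_union_left⟩
    · exact ⟨h, hh, hv, Finset.subset_union_right⟩
  have memrem : ∀ Z, rem H s Z ∈ G := by
    intro Z
    rw [hG]
    intro v hv
    obtain ⟨t, ht, h1, h2, h4⟩ := (mem_rem H s Z v).1 hv
    exact ⟨t, ht, h4, fun w hw => (mem_rem H s Z w).2 ⟨t, ht, h1, h2, hw⟩⟩
  have remsub : ∀ Z, rem H s Z ⊆ Z := by
    intro Z v hv
    obtain ⟨t, ht, h1, h2, h4⟩ := (mem_rem H s Z v).1 hv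
    exact h1 h4
  have srem : ∀ Z, s ∉ rem H s Z := by
    intro Z hv
    obtain ⟨t, ht, h1, h2, h4⟩ := (mem_rem H s Z s).1 hv
    exact h2 h4
  -- members of G missing a
  have missb : ∀ W ∈ G, a ∉ W → b ∉ W := by
    intro W hW haW hbW
    obtain ⟨k, hk, hbk, hkW⟩ := (hG W).1 hW b hbW
    rcases hd b _ he _ hf k hk (by simp) (by simp) hbk with h2 | h2 | h2
    · exact hef h2
    · rw [← h2] at hkW; exact haW (hkW (by simp))
    · rw [← h2] at hkW; exact haW (hkW (by simp))
  have missd : ∀ W ∈ G, a ∉ W → d ∉ W := by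
    intro W hW haW hdW
    obtain ⟨k, hk, hdk, hkW⟩ := (hG W).1 hW d hdW
    rw [hpd k hk hdk] at hkW
    exact haW (hkW (by simp))
  -- the triple at c inside W
  have trip : ∀ W ∈ G, a ∉ W → c ∈ W → ∃ h ∈ H, c ∈ h ∧ h ⊆ W ∧ s ∈ h := by
    intro W hW haW hcW
    obtain ⟨h, hh, hch, hhW⟩ := (hG W).1 hW c hcW
    refine ⟨h, hh, hch, hhW, hs h hh hch ?_⟩
    rintro rfl
    exact haW (hhW (by simp))
  have sne : ∀ W ∈ G, a ∉ W → c ∈ W → s ≠ a ∧ s ≠ b ∧ s ≠ d := by
    intro W hW haW hcW
    obtain ⟨h, hh, hch, hhW, hsh⟩ := trip W hW haW hcW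
    refine ⟨?_, ?_, ?_⟩
    · rintro rfl; exact haW (hhW hsh)
    · rintro rfl; exact missb W hW haW (hhW hsh)
    · rintro rfl; exact missd W hW haW (hhW hsh)
  set Φ : Finset α × Bool → Finset α := fun p =>
    if p.2 = false then p.1 ∪ {a, b, d}
    else if c ∈ p.1 ∧ p.1.erase c ∈ G then rem H s (p.1.erase c) ∪ {a, b, c} ∪ {a, b, d}
    else p.1 ∪ {a, b, c} with hΦ
  have hcard : (G.filter (fun A => a ∉ A) ×ˢ (Finset.univ : Finset Bool)).card =
      2 * (G.filter (fun A => a ∉ A)).card := by
    rw [Finset.card_product, Finset.card_univ, Fintype.card_bool, Nat.mul_comm]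
  rw [← hcard]
  have ext1 : ∀ W W' E : Finset α, W ∪ E = W' ∪ E → Disjoint W E → W ⊆ W' := by
    intro W W' E h1 h2 v hv
    have : v ∈ W' ∪ E := by rw [← h1]; exact Finset.mem_union_left _ hv
    rcases Finset.mem_union.1 this with h | h
    · exact h
    · exact absurd h (Finset.disjoint_left.1 h2 hv)
  have disf : ∀ W ∈ G, a ∉ W → Disjoint W {a, b, d} := by
    intro W hW haW
    rw [Finset.disjoint_right]
    intro v hv
    simp only [Finset.mem_insert, Finset.mem_singleton] at hv
    rcases hv with rfl | rfl | rfl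
    · exact haW
    · exact missb W hW haW
    · exact missd W hW haW
  have dise : ∀ W ∈ G, a ∉ W → c ∉ W → Disjoint W {a, b, c} := by
    intro W hW haW hcW
    rw [Finset.disjoint_right]
    intro v hv
    simp only [Finset.mem_insert, Finset.mem_singleton] at hv
    rcases hv with rfl | rfl | rfl
    · exact haW
    · exact missb W hW haW
    · exact hcW
  -- the exceptional case determines W
  have exc : ∀ W ∈ G, a ∉ W → c ∈ W → W.erase c ∈ G → ∀ W' ∈ G, a ∉ W' → c ∈ W' →
      W'.erase c ∈ G → rem H s (W.erase c) = rem H s (W'.erase c) → W ⊆ W' := by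
    intro W hW haW hcW hWc W' hW' haW' hcW' hWc' hrem v hv
    by_cases hvc : v = c
    · rw [hvc]; exact hcW'
    obtain ⟨t, ht, hvt, htW⟩ := (hG _).1 hWc v (Finset.mem_erase.2 ⟨hvc, hv⟩)
    by_cases hst : s ∈ t
    · obtain ⟨h, hh, hch, hhW', hsh⟩ := trip W' hW' haW' hcW'
      obtain ⟨t', ht', hst', htW'⟩ := (hG _).1 hWc' s (Finset.mem_erase.2 ⟨hsc, hhW' hsh⟩)
      have hct : c ∉ t := fun h5 => Finset.notMem_erase _ _ (htW h5)
      have hct' : c ∉ t' := fun h5 => Finset.notMem_erase _ _ (htW' h5)
      rcases hd s h hh t ht t' ht' hsh hst hst' with h6 | h6 | h6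
      · rw [h6] at hch; exact absurd hch hct
      · rw [h6] at hch; exact absurd hch hct'
      · rw [h6] at hvt
        exact Finset.mem_of_mem_erase (htW' hvt)
    · have h5 : v ∈ rem H s (W.erase c) := (mem_rem _ _ _ _).2 ⟨t, ht, htW, hst, hvt⟩
      rw [hrem] at h5
      exact Finset.mem_of_mem_erase (remsub _ h5)
  have remeq : ∀ W ∈ G, a ∉ W → ∀ W' ∈ G, a ∉ W' →
      rem H s (W.erase c) ∪ {a, b, c} ∪ {a, b, d} = rem H s (W'.erase c) ∪ {a, b, c} ∪ {a, b, d} →
      rem H s (W.erase c) ⊆ rem H s (W'.erase c) := by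
    intro W hW haW W' hW' haW' h v hv
    have h1 : v ∈ rem H s (W'.erase c) ∪ {a, b, c} ∪ {a, b, d} := by
      rw [← h]
      exact Finset.mem_union_left _ (Finset.mem_union_left _ hv)
    have h2 := Finset.mem_erase.1 (remsub _ hv)
    simp only [Finset.mem_union, Finset.mem_insert, Finset.mem_singleton] at h1
    rcases h1 with (h1 | h1 | h1 | h1) | (h1 | h1 | h1)
    · exact h1
    · rw [h1] at h2; exact absurd h2.2 haW
    · rw [h1] at h2; exact absurd h2.2 (missb W hW haW)
    · exact absurd h1 h2.1
    · rw [h1] at h2; exact absurd h2.2 haW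
    · rw [h1] at h2; exact absurd h2.2 (missb W hW haW)
    · rw [h1] at h2; exact absurd h2.2 (missd W hW haW)
  -- type 0 against type 1
  have t01 : ∀ W ∈ G, a ∉ W → ∀ W' ∈ G, a ∉ W' → Φ (W, false) ≠ Φ (W', true) := by
    intro W hW haW W' hW' haW' h
    simp only [hΦ, if_true, Bool.true_eq_false, if_false] at h
    by_cases hc : c ∈ W' ∧ W'.erase c ∈ G
    · rw [if_pos hc] at h
      have h1 : c ∈ W ∪ {a, b, d} := by rw [h]; simp
      simp only [Finset.mem_union, Finset.mem_insert, Finset.mem_singleton] at h1
      have hcW : c ∈ W := by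
        rcases h1 with h1 | h1 | h1 | h1
        · exact h1
        · exact absurd h1.symm hac
        · exact absurd h1.symm hbc
        · exact absurd h1 hcd
      obtain ⟨k, hk, hck, hkW, hsk⟩ := trip W hW haW hcW
      have hne := sne W hW haW hcW
      have h2 : s ∈ rem H s (W'.erase c) ∪ {a, b, c} ∪ {a, b, d} := by
        rw [← h]; exact Finset.mem_union_left _ (hkW hsk)
      simp only [Finset.mem_union, Finset.mem_insert, Finset.mem_singleton] at h2
      rcases h2 with (h2 | h2 | h2 | h2) | (h2 | h2 | h2)
      · exact srem _ h2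
      · exact hne.1 h2
      · exact hne.2.1 h2
      · exact hsc h2
      · exact hne.1 h2
      · exact hne.2.1 h2
      · exact hne.2.2 h2
    · rw [if_neg hc] at h
      have h1 : d ∈ W' ∪ {a, b, c} := by rw [← h]; simp
      simp only [Finset.mem_union, Finset.mem_insert, Finset.mem_singleton] at h1
      rcases h1 with h1 | h1 | h1 | h1
      · exact missd W' hW' haW' h1
      · exact had h1.symm
      · exact hbd h1.symm
      · exact hcd h1.symm
  refine Finset.card_le_card_of_injOn Φ ?_ ?_
  · rintro ⟨W, i⟩ hp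
    rw [Finset.mem_coe, Finset.mem_product, Finset.mem_filter] at hp
    simp only at hp
    rw [Finset.mem_coe, Finset.mem_filter]
    cases i with
    | false =>
      simp only [hΦ, if_true]
      exact ⟨memU W hp.1.1 _ hf, by simp⟩
    | true =>
      simp only [hΦ, Bool.true_eq_false, if_false]
      split_ifs with hc
      · exact ⟨memU _ (memU _ (memrem _) _ he) _ hf, by simp⟩
      · exact ⟨memU W hp.1.1 _ he, by simp⟩
  · rintro ⟨W, i⟩ hp ⟨W', i'⟩ hp' h
    rw [Finset.mem_coe, Finset.mem_product, Finset.mem_filter] at hp hp'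
    simp only at hp hp'
    obtain ⟨⟨hW, haW⟩, _⟩ := hp
    obtain ⟨⟨hW', haW'⟩, _⟩ := hp'
    cases i with
    | false =>
      cases i' with
      | false =>
        simp only [hΦ, if_true] at h
        rw [Finset.Subset.antisymm (ext1 _ _ _ h (disf W hW haW))
          (ext1 _ _ _ h.symm (disf W' hW' haW'))]
      | true => exact absurd h (t01 W hW haW W' hW' haW')
    | true =>
      cases i' with
      | false => exact absurd h.symm (t01 W' hW' haW' W hW haW)
      | true =>
        simp only [hΦ, Bool.true_eq_false, if_false] at h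
        by_cases hc : c ∈ W ∧ W.erase c ∈ G
        · rw [if_pos hc] at h
          by_cases hc' : c ∈ W' ∧ W'.erase c ∈ G
          · rw [if_pos hc'] at h
            have hr := Finset.Subset.antisymm (remeq W hW haW W' hW' haW' h)
              (remeq W' hW' haW' W hW haW h.symm)
            rw [Finset.Subset.antisymm
              (exc W hW haW hc.1 hc.2 W' hW' haW' hc'.1 hc'.2 hr)
              (exc W' hW' haW' hc'.1 hc'.2 W hW haW hc.1 hc.2 hr.symm)]
          · rw [if_neg hc'] at h
            exfalso
            have h1 : d ∈ W' ∪ {a, b, c} := by rw [← h]; simp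
            simp only [Finset.mem_union, Finset.mem_insert, Finset.mem_singleton] at h1
            rcases h1 with h1 | h1 | h1 | h1
            · exact missd W' hW' haW' h1
            · exact had h1.symm
            · exact hbd h1.symm
            · exact hcd h1.symm
        · rw [if_neg hc] at h
          by_cases hc' : c ∈ W' ∧ W'.erase c ∈ G
          · rw [if_pos hc'] at h
            exfalso
            have h1 : d ∈ W ∪ {a, b, c} := by rw [h]; simp
            simp only [Finset.mem_union, Finset.mem_insert, Finset.mem_singleton] at h1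
            rcases h1 with h1 | h1 | h1 | h1
            · exact missd W hW haW h1
            · exact had h1.symm
            · exact hbd h1.symm
            · exact hcd h1.symm
          · rw [if_neg hc'] at h
            -- both normal
            have aux : ∀ W ∈ G, a ∉ W → ∀ W' ∈ G, a ∉ W' → W ∪ {a, b, c} = W' ∪ {a, b, c} →
                c ∈ W → c ∉ W' → W.erase c = W' := by
              intro W hW haW W' hW' haW' h hcW hcW'
              ext v
              rw [Finset.mem_erase]
              constructor
              · rintro ⟨hvc, hv⟩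
                have h1 : v ∈ W' ∪ {a, b, c} := by rw [← h]; exact Finset.mem_union_left _ hv
                simp only [Finset.mem_union, Finset.mem_insert, Finset.mem_singleton] at h1
                rcases h1 with h1 | h1 | h1 | h1
                · exact h1
                · rw [h1] at hv; exact absurd hv haW
                · rw [h1] at hv; exact absurd hv (missb W hW haW)
                · exact absurd h1 hvc
              · intro hv
                have hvc : v ≠ c := by rintro rfl; exact hcW' hv
                refine ⟨hvc, ?_⟩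
                have h1 : v ∈ W ∪ {a, b, c} := by rw [h]; exact Finset.mem_union_left _ hv
                simp only [Finset.mem_union, Finset.mem_insert, Finset.mem_singleton] at h1
                rcases h1 with h1 | h1 | h1 | h1
                · exact h1
                · rw [h1] at hv; exact absurd hv haW'
                · rw [h1] at hv; exact absurd hv (missb W' hW' haW')
                · exact absurd h1 hvc
            by_cases hcW : c ∈ W
            · by_cases hcW' : c ∈ W'
              · have aux2 : ∀ W ∈ G, a ∉ W → ∀ W' ∈ G, a ∉ W' →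
                    W ∪ {a, b, c} = W' ∪ {a, b, c} → c ∈ W' → W ⊆ W' := by
                  intro W hW haW W' hW' haW' h hcW' v hv
                  have h1 : v ∈ W' ∪ {a, b, c} := by
                    rw [← h]; exact Finset.mem_union_left _ hv
                  simp only [Finset.mem_union, Finset.mem_insert, Finset.mem_singleton] at h1
                  rcases h1 with h1 | h1 | h1 | h1
                  · exact h1
                  · rw [h1] at hv; exact absurd hv haW
                  · rw [h1] at hv; exact absurd hv (missb W hW haW)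
                  · rw [h1]; exact hcW'
                rw [Finset.Subset.antisymm (aux2 W hW haW W' hW' haW' h hcW')
                  (aux2 W' hW' haW' W hW haW h.symm hcW)]
              · exact absurd ⟨hcW, by rw [aux W hW haW W' hW' haW' h hcW hcW']; exact hW'⟩ hc
            · by_cases hcW' : c ∈ W'
              · exact absurd ⟨hcW', by
                  rw [aux W' hW' haW' W hW haW h.symm hcW' hcW]; exact hW⟩ hc'
              · rw [Finset.Subset.antisymm (ext1 _ _ _ h (dise W hW haW hcW))
                  (ext1 _ _ _ h.symm (dise W' hW' haW' hcW'))]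

end Pool.Agent.Lib.MP_ff7426_co.U3
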