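import Pool.Agent.Lib.MP_ff7426_co.U3.Base

/-!
MP_ff7426_co, row R5: the vertex inequality M2 (helper88).
-/

set_option autoImplicit false

namespace Pool.Agent.Lib.MP_ff7426_co.U3

variable {α : Type*} [DecidableEq α]

/-- two sets missing `z` with the same union with `{z, q, r}` agree outside `q` and `r` -/
theorem M2_agree (z q r : α) (W W' : Finset α) (hW : z ∉ W) (hW' : z ∉ W')
    (hU : W ∪ {z, q, r} = W' ∪ {z, q, r}) (v : α) (hq : v ≠ q) (hr : v ≠ r) :
    v ∈ W ↔ v ∈ W' := by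
  by_cases hz : v = z
  · subst hz
    exact ⟨fun h => absurd h hW, fun h => absurd h hW'⟩
  · have h1 : v ∈ W ∪ {z, q, r} ↔ v ∈ W' ∪ {z, q, r} := by rw [hU]
    simpa [hz, hq, hr] using h1

/-- from a bit that separates the sets with the same union with `k` -/
theorem M2_count (G H : Finset (Finset α)) (hG : ∀ W, W ∈ G ↔ Cov H W) (z : α) (k : Finset α)
    (hk : k ∈ H) (hz : z ∈ k) (f : Finset α → Bool)
    (hf : ∀ W ∈ G, ∀ W' ∈ G, z ∉ W → z ∉ W' → W ∪ k = W' ∪ k → f W = f W' → W = W') :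
    (G.filter (fun A => z ∉ A)).card ≤ 2 * (G.filter (fun A => z ∈ A)).card := by
  have h1 : (G.filter (fun A => z ∉ A)).card ≤
      ((G.filter (fun A => z ∈ A)) ×ˢ (Finset.univ : Finset Bool)).card := by
    apply Finset.card_le_card_of_injOn (fun W => (W ∪ k, f W))
    · intro W hW
      rw [Finset.mem_coe, Finset.mem_filter] at hW
      rw [Finset.mem_coe, Finset.mem_product]
      refine ⟨Finset.mem_filter.2 ⟨(hG _).2 ?_, Finset.mem_union_right _ hz⟩,
        Finset.mem_univ _⟩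
      intro v hv
      rcases Finset.mem_union.1 hv with h | h
      · obtain ⟨g, hg, hvg, hgW⟩ := (hG W).1 hW.1 v h
        exact ⟨g, hg, hvg, hgW.trans Finset.subset_union_left⟩
      · exact ⟨k, hk, h, Finset.subset_union_right⟩
    · intro W hW W' hW' heq
      rw [Finset.mem_coe, Finset.mem_filter] at hW hW'
      simp only [Prod.mk.injEq] at heq
      exact hf W hW.1 W' hW'.1 hW.2 hW'.2 heq.1 heq.2
  rw [Finset.card_product, Finset.card_univ, Fintype.card_bool, mul_comm] at h1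
  exact h1

/-- the structure at an optional vertex -/
theorem M2_side (G H : Finset (Finset α)) (hG : ∀ W, W ∈ G ↔ Cov H W) (hd : Deg2 H)
    (hα : ∀ t ∈ H, (∀ v ∈ t, ∃ k ∈ H, k ≠ t ∧ v ∈ k) → ∃ a b c d : α, a ≠ b ∧ a ≠ c ∧ b ≠ c ∧
      a ≠ d ∧ b ≠ d ∧ c ≠ d ∧ t = {a, b, c} ∧ {a, b, d} ∈ H ∧ ∀ k ∈ H, d ∈ k → k = {a, b, d})
    (z q r : α) (k : Finset α) (hk : k ∈ H) (hkmem : ∀ v, v ∈ k ↔ v = z ∨ v = q ∨ v = r)
    (hzq : z ≠ q) (W : Finset α) (hWz : z ∉ W) (hWq : q ∉ W) (hWG : W ∈ G)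
    (hWi : insert q W ∈ G) (hnD : ∀ t ∈ H, t ≠ k → q ∈ t → r ∉ t) :
    ∃ a b d : α, q ≠ a ∧ q ≠ b ∧ a ≠ b ∧ {q, a, b} ∈ H ∧ a ≠ d ∧ b ≠ d ∧ q ≠ d ∧
      {a, b, d} ∈ H ∧ z ≠ a ∧ z ≠ b ∧ r ≠ a ∧ r ≠ b := by
  obtain ⟨t, ht, hqt, htW⟩ := (hG _).1 hWi q (Finset.mem_insert_self q W)
  have hzt : z ∉ t := by
    intro h
    rcases Finset.mem_insert.1 (htW h) with h1 | h1
    · exact hzq h1
    · exact hWz h1
  have hqk : q ∈ k := (hkmem q).2 (Or.inr (Or.inl rfl))
  have hzk : z ∈ k := (hkmem z).2 (Or.inl rfl)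
  have htk : t ≠ k := by
    intro h
    exact hzt (h ▸ hzk)
  have hrt : r ∉ t := hnD t ht htk hqt
  obtain ⟨a, b, c, d, hab, hac, hbc, had, hbd, hcd, hteq, hf, -⟩ := hα t ht (by
    intro v hv
    by_cases hvq : v = q
    · exact ⟨k, hk, htk.symm, hvq ▸ hqk⟩
    · have hvW : v ∈ W := by
        rcases Finset.mem_insert.1 (htW hv) with h1 | h1
        · exact absurd h1 hvq
        · exact h1
      obtain ⟨g, hg, hvg, hgW⟩ := (hG W).1 hWG v hvW
      refine ⟨g, hg, ?_, hvg⟩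
      intro h
      exact hWq (hgW (h ▸ hqt)))
  have hat : a ∈ t := by rw [hteq]; simp
  have hbt : b ∈ t := by rw [hteq]; simp
  have hct : c ∈ t := by rw [hteq]; simp
  have hza : z ≠ a := fun h => hzt (h ▸ hat)
  have hzb : z ≠ b := fun h => hzt (h ▸ hbt)
  have hra : r ≠ a := fun h => hrt (h ▸ hat)
  have hrb : r ≠ b := fun h => hrt (h ▸ hbt)
  have htf : t ≠ {a, b, d} := by
    intro h
    have h1 : c ∈ ({a, b, d} : Finset α) := h ▸ hct
    simp only [Finset.mem_insert, Finset.mem_singleton] at h1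
    rcases h1 with h1 | h1 | h1
    · exact hac h1.symm
    · exact hbc h1.symm
    · exact hcd h1
  have hnot : ∀ u w : α, u = q → w ≠ q → w ∈ t → u ∈ ({a, b, d} : Finset α) →
      w ∈ ({a, b, d} : Finset α) → False := by
    intro u w hu hwq hwt huf hwf
    subst hu
    rcases hd u k hk t ht _ hf hqk hqt huf with h1 | h1 | h1
    · exact htk h1.symm
    · have h2 : w ∈ k := h1 ▸ hwf
      rcases (hkmem w).1 h2 with h3 | h3 | h3
      · exact hzt (h3 ▸ hwt)
      · exact hwq h3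
      · exact hrt (h3 ▸ hwt)
    · exact htf h1
  have hqa : q ≠ a := by
    intro h
    exact hnot a b h.symm (fun h2 => hab (h.symm.trans h2.symm)) hbt (by simp) (by simp)
  have hqb : q ≠ b := by
    intro h
    exact hnot b a h.symm (fun h2 => hab (h2.trans h)) hat (by simp) (by simp)
  have hqc : q = c := by
    have h1 : q ∈ ({a, b, c} : Finset α) := hteq ▸ hqt
    simp only [Finset.mem_insert, Finset.mem_singleton] at h1
    rcases h1 with h1 | h1 | h1
    · exact absurd h1 hqa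
    · exact absurd h1 hqb
    · exact h1
  subst hqc
  refine ⟨a, b, d, hqa, hqb, hab, ?_, had, hbd, hcd, hf, hza, hzb, hra, hrb⟩
  have h1 : ({q, a, b} : Finset α) = {a, b, q} := by
    ext v
    simp only [Finset.mem_insert, Finset.mem_singleton]
    tauto
  rw [h1, ← hteq]
  exact ht

theorem M2 (G H : Finset (Finset α)) (hG : ∀ W, W ∈ G ↔ Cov H W) (hd : Deg2 H)
    (h3 : ∀ h ∈ H, h.card = 3)
    (hα : ∀ t ∈ H, (∀ v ∈ t, ∃ k ∈ H, k ≠ t ∧ v ∈ k) → ∃ a b c d : α, a ≠ b ∧ a ≠ c ∧ b ≠ c ∧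
      a ≠ d ∧ b ≠ d ∧ c ≠ d ∧ t = {a, b, c} ∧ {a, b, d} ∈ H ∧ ∀ k ∈ H, d ∈ k → k = {a, b, d})
    (hDD : ∀ z q r a b d a' b' d' : α, z ≠ q → z ≠ r → q ≠ r → {z, q, r} ∈ H → q ≠ a →
      q ≠ b → a ≠ b → {q, a, b} ∈ H → a ≠ d → b ≠ d → q ≠ d → {a, b, d} ∈ H → r ≠ a' →
      r ≠ b' → a' ≠ b' → {r, a', b'} ∈ H → a' ≠ d' → b' ≠ d' → r ≠ d' → {a', b', d'} ∈ H →
      z ≠ a → z ≠ b → r ≠ a → r ≠ b → z ≠ a' → z ≠ b' → q ≠ a' → q ≠ b' → False)
    (z : α) (k : Finset α) (hk : k ∈ H) (hz : z ∈ k) :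
    (G.filter (fun A => z ∉ A)).card ≤ 2 * (G.filter (fun A => z ∈ A)).card := by
  -- write k = {z, q, r}
  obtain ⟨q, r, hzq, hzr, hqr, hkeq⟩ : ∃ q r, z ≠ q ∧ z ≠ r ∧ q ≠ r ∧ k = {z, q, r} := by
    have h1 : (k.erase z).card = 2 := by
      rw [Finset.card_erase_of_mem hz, h3 k hk]
    obtain ⟨q, r, hqr, he⟩ := Finset.card_eq_two.1 h1
    have hq : q ∈ k.erase z := by rw [he]; simp
    have hr : r ∈ k.erase z := by rw [he]; simp
    refine ⟨q, r, (Finset.ne_of_mem_erase hq).symm, (Finset.ne_of_mem_erase hr).symm, hqr, ?_⟩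
    rw [← Finset.insert_erase hz, he]
  have hkmem : ∀ v, v ∈ k ↔ v = z ∨ v = q ∨ v = r := by
    intro v
    rw [hkeq]
    simp only [Finset.mem_insert, Finset.mem_singleton]
  have hqk : q ∈ k := (hkmem q).2 (Or.inr (Or.inl rfl))
  have hrk : r ∈ k := (hkmem r).2 (Or.inr (Or.inr rfl))
  -- sets with the same union agree outside q, r
  have hagree : ∀ W W' : Finset α, z ∉ W → z ∉ W' → W ∪ k = W' ∪ k → ∀ v, v ≠ q → v ≠ r →
      (v ∈ W ↔ v ∈ W') := by
    intro W W' h1 h2 h3' v hq hr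
    rw [hkeq] at h3'
    exact M2_agree z q r W W' h1 h2 h3' v hq hr
  by_cases hD : ∃ t ∈ H, t ≠ k ∧ q ∈ t ∧ r ∈ t
  · obtain ⟨t, ht, htk, hqt, hrt⟩ := hD
    have hiff : ∀ W ∈ G, z ∉ W → (q ∈ W ↔ r ∈ W) := by
      intro W hW hzW
      constructor
      · intro hq
        obtain ⟨g, hg, hqg, hgW⟩ := (hG W).1 hW q hq
        rcases hd q k hk t ht g hg hqk hqt hqg with h1 | h1 | h1
        · exact absurd h1.symm htk
        · exact absurd (hgW (h1 ▸ hz)) hzW
        · exact hgW (h1 ▸ hrt)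
      · intro hr
        obtain ⟨g, hg, hrg, hgW⟩ := (hG W).1 hW r hr
        rcases hd r k hk t ht g hg hrk hrt hrg with h1 | h1 | h1
        · exact absurd h1.symm htk
        · exact absurd (hgW (h1 ▸ hz)) hzW
        · exact hgW (h1 ▸ hqt)
    apply M2_count G H hG z k hk hz (fun W => decide (q ∈ W))
    intro W hW W' hW' hzW hzW' hU hb
    have hb' : (q ∈ W) ↔ (q ∈ W') := by
      have := decide_eq_decide.1 hb
      exact this
    ext v
    by_cases hvq : v = q
    · rw [hvq]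
      exact hb'
    · by_cases hvr : v = r
      · rw [hvr, ← hiff W hW hzW, ← hiff W' hW' hzW']
        exact hb'
      · exact hagree W W' hzW hzW' hU v hvq hvr
  · push Not at hD
    by_cases hq : ∃ W ∈ G, z ∉ W ∧ q ∉ W ∧ insert q W ∈ G
    · by_cases hr : ∃ W ∈ G, z ∉ W ∧ r ∉ W ∧ insert r W ∈ G
      · exfalso
        obtain ⟨W, hWG, hWz, hWq, hWi⟩ := hq
        obtain ⟨V, hVG, hVz, hVr, hVi⟩ := hr
        obtain ⟨a, b, d, n1, n2, n3, m1, n4, n5, n6, m2, n7, n8, n9, n10⟩ :=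
          M2_side G H hG hd hα z q r k hk hkmem hzq W hWz hWq hWG hWi
            (fun t ht htk hqt => hD t ht htk hqt)
        obtain ⟨a', b', d', p1, p2, p3, l1, p4, p5, p6, l2, p7, p8, p9, p10⟩ :=
          M2_side G H hG hd hα z r q k hk
            (fun v => by rw [hkmem v]; tauto) hzr V hVz hVr hVG hVi
            (fun t ht htk hrt hqt => hD t ht htk hqt hrt)
        exact hDD z q r a b d a' b' d' hzq hzr hqr (hkeq ▸ hk) n1 n2 n3 m1 n4 n5 n6 m2 p1 p2 p3
          l1 p4 p5 p6 l2 n7 n8 n9 n10 p7 p8 p9 p10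
      · push Not at hr
        apply M2_count G H hG z k hk hz (fun W => decide (q ∈ W))
        intro W hW W' hW' hzW hzW' hU hb
        have hb' : (q ∈ W) ↔ (q ∈ W') := decide_eq_decide.1 hb
        have key : ∀ V ∈ G, ∀ V' ∈ G, z ∉ V → z ∉ V' → (∀ v, v ≠ r → (v ∈ V ↔ v ∈ V')) →
            r ∈ V → r ∈ V' := by
          intro V hV V' hV' hzV hzV' hvv hrV
          by_contra hrV'
          apply hr V' hV' hzV' hrV'
          have : insert r V' = V := by
            ext v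
            rw [Finset.mem_insert]
            by_cases hvr : v = r
            · simp [hvr, hrV]
            · simp [hvr, hvv v hvr]
          rw [this]
          exact hV
        have hvv : ∀ v, v ≠ r → (v ∈ W ↔ v ∈ W') := by
          intro v hvr
          by_cases hvq : v = q
          · rw [hvq]
            exact hb'
          · exact hagree W W' hzW hzW' hU v hvq hvr
        ext v
        by_cases hvr : v = r
        · rw [hvr]
          exact ⟨key W hW W' hW' hzW hzW' hvv,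
            key W' hW' W hW hzW' hzW (fun v hv => (hvv v hv).symm)⟩
        · exact hvv v hvr
    · push Not at hq
      apply M2_count G H hG z k hk hz (fun W => decide (r ∈ W))
      intro W hW W' hW' hzW hzW' hU hb
      have hb' : (r ∈ W) ↔ (r ∈ W') := decide_eq_decide.1 hb
      have key : ∀ V ∈ G, ∀ V' ∈ G, z ∉ V → z ∉ V' → (∀ v, v ≠ q → (v ∈ V ↔ v ∈ V')) →
          q ∈ V → q ∈ V' := by
        intro V hV V' hV' hzV hzV' hvv hqV
        by_contra hqV'
        apply hq V' hV' hzV' hqV'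
        have : insert q V' = V := by
          ext v
          rw [Finset.mem_insert]
          by_cases hvq : v = q
          · simp [hvq, hqV]
          · simp [hvq, hvv v hvq]
        rw [this]
        exact hV
      have hvv : ∀ v, v ≠ q → (v ∈ W ↔ v ∈ W') := by
        intro v hvq
        by_cases hvr : v = r
        · rw [hvr]
          exact hb'
        · exact hagree W W' hzW hzW' hU v hvq hvr
      ext v
      by_cases hvq : v = q
      · rw [hvq]
        exact ⟨key W hW W' hW' hzW hzW' hvv,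
          key W' hW' W hW hzW' hzW (fun v hv => (hvv v hv).symm)⟩
      · exact hvv v hvq

end Pool.Agent.Lib.MP_ff7426_co.U3
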