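import Pool.Agent.Lib.MP_ff7426_co.U3.Local
import Pool.Agent.Lib.MP_ff7426_co.U3.Fc
import Pool.Agent.Lib.MP_ff7426_co.U3.Cyc
import Pool.Agent.Lib.MP_ff7426_co.U3.LemT
import Pool.Agent.Lib.MP_ff7426_co.U3.M1
import Pool.Agent.Lib.MP_ff7426_co.U3.M2

/-!
MP_ff7426_co, row R6: the case analysis and the final theorem.
-/

set_option autoImplicit false

namespace Pool.Agent.Lib.MP_ff7426_co.U3

variable {α : Type*} [DecidableEq α]

theorem triA (h : Finset α) (hc : h.card = 3) (a b : α) (ha : a ∈ h) (hb : b ∈ h)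
    (hab : a ≠ b) : ∃ c, a ≠ c ∧ b ≠ c ∧ h = {a, b, c} := by
  have h1 : ((h.erase a).erase b).card = 1 := by
    rw [Finset.card_erase_of_mem (Finset.mem_erase.2 ⟨hab.symm, hb⟩),
      Finset.card_erase_of_mem ha, hc]
  obtain ⟨c, hcc⟩ := Finset.card_eq_one.1 h1
  have hmem : c ∈ (h.erase a).erase b := hcc ▸ Finset.mem_singleton_self c
  rw [Finset.mem_erase, Finset.mem_erase] at hmem
  refine ⟨c, hmem.2.1.symm, hmem.1.symm, ?_⟩
  ext v
  simp only [Finset.mem_insert, Finset.mem_singleton]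
  constructor
  · intro hv
    by_cases h1 : v = a
    · exact Or.inl h1
    · by_cases h2 : v = b
      · exact Or.inr (Or.inl h2)
      · have : v ∈ (h.erase a).erase b :=
          Finset.mem_erase.2 ⟨h2, Finset.mem_erase.2 ⟨h1, hv⟩⟩
        rw [hcc, Finset.mem_singleton] at this
        exact Or.inr (Or.inr this)
  · rintro (rfl | rfl | rfl)
    · exact ha
    · exact hb
    · exact hmem.2.2

theorem triB (h : Finset α) (hc : h.card = 3) (a : α) (ha : a ∈ h) :
    ∃ b c, a ≠ b ∧ a ≠ c ∧ b ≠ c ∧ h = {a, b, c} := by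
  have h1 : (h.erase a).Nonempty := by
    rw [← Finset.card_pos, Finset.card_erase_of_mem ha, hc]
    norm_num
  obtain ⟨b, hb⟩ := h1
  rw [Finset.mem_erase] at hb
  obtain ⟨c, h1, h2, h3⟩ := triA h hc a b ha hb.2 hb.1.symm
  exact ⟨b, c, hb.1.symm, h1, h2, h3⟩

/-- Three triples at `a`, two of which share the pair `a, b`. -/
theorem three_at (F : Finset (Finset α)) (hB : Blocks F) (a b : α) (hab : a ≠ b)
    (h₁ h₂ g : Finset α) (t₁ : Tri F h₁) (t₂ : Tri F h₂) (t₃ : Tri F g) (n12 : h₁ ≠ h₂)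
    (n1 : h₁ ≠ g) (n2 : h₂ ≠ g) (a1 : a ∈ h₁) (a2 : a ∈ h₂) (b1 : b ∈ h₁) (b2 : b ∈ h₂)
    (ag : a ∈ g) : False := by
  obtain ⟨c, hac, hbc, rfl⟩ := triA h₁ t₁.2.1 a b a1 b1 hab
  obtain ⟨d, had, hbd, rfl⟩ := triA h₂ t₂.2.1 a b a2 b2 hab
  have hcd : c ≠ d := by
    rintro rfl
    exact n12 rfl
  by_cases hbg : b ∈ g
  · obtain ⟨t, hat, hbt, rfl⟩ := triA g t₃.2.1 a b ag hbg hab
    have hct : c ≠ t := by
      rintro rfl
      exact n1 rfl
    have hdt : d ≠ t := by
      rintro rfl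
      exact n2 rfl
    exact fc_K13 F hB a b c d t hab hac had hat hbc hbd hbt hcd hct hdt t₁ t₂ t₃
  by_cases hcg : c ∈ g
  · obtain ⟨t, hat, hct, rfl⟩ := triA g t₃.2.1 a c ag hcg hac
    have hbt : b ≠ t := by
      rintro rfl
      exact hbg (by simp)
    by_cases hdt : d = t
    · subst hdt
      exact fc_D F hB a b c d hab hac had hbc hbd hcd t₁ t₂ t₃
    · exact fc_E F hB a b c d t hab hac had hat hbc hbd hbt hcd hct hdt t₁ t₂ t₃
  by_cases hdg : d ∈ g
  · obtain ⟨t, hat, hdt, rfl⟩ := triA g t₃.2.1 a d ag hdg had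
    have hbt : b ≠ t := by
      rintro rfl
      exact hbg (by simp)
    have hct : c ≠ t := by
      rintro rfl
      exact hcg (by simp)
    exact fc_E F hB a b d c t hab had hac hat hbd hbc hbt hcd.symm hdt hct t₂ t₁ t₃
  · exact fc_H F hB a b c d hab hac had hbc hbd hcd t₁ t₂ g t₃ ag hbg hcg hdg

theorem deg2 (F : Finset (Finset α)) (hB : Blocks F) (H : Finset (Finset α))
    (hT : ∀ h ∈ H, Tri F h) : Deg2 H := by
  intro v h₁ m₁ h₂ m₂ h₃ m₃ v1 v2 v3
  by_contra hcon
  push Not at hcon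
  obtain ⟨n12, n13, n23⟩ := hcon
  by_cases d12 : ∀ w ∈ h₁, w ∈ h₂ → w = v
  · by_cases d13 : ∀ w ∈ h₁, w ∈ h₃ → w = v
    · by_cases d23 : ∀ w ∈ h₂, w ∈ h₃ → w = v
      · exact fc_star3 F hB v h₁ h₂ h₃ (hT _ m₁) (hT _ m₂) (hT _ m₃) v1 v2 v3 d12 d13 d23
      · push Not at d23
        obtain ⟨w, w2, w3, hw⟩ := d23
        exact three_at F hB v w hw.symm h₂ h₃ h₁ (hT _ m₂) (hT _ m₃) (hT _ m₁) n23 n12.symm
          n13.symm v2 v3 w2 w3 v1
    · push Not at d13
      obtain ⟨w, w1, w3, hw⟩ := d13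
      exact three_at F hB v w hw.symm h₁ h₃ h₂ (hT _ m₁) (hT _ m₃) (hT _ m₂) n13 n12
        n23.symm v1 v3 w1 w3 v2
  · push Not at d12
    obtain ⟨w, w1, w2, hw⟩ := d12
    exact three_at F hB v w hw.symm h₁ h₂ h₃ (hT _ m₁) (hT _ m₂) (hT _ m₃) n12 n13 n23
      v1 v2 w1 w2 v3

/-- In a double pair, the third triple at `c` misses `a` and `b`. -/
theorem miss_pair (H : Finset (Finset α)) (hd : Deg2 H) (a b c d : α) (hac : a ≠ c)
    (hbc : b ≠ c) (hcd : c ≠ d) (he : {a, b, c} ∈ H) (hf : {a, b, d} ∈ H) (h : Finset α)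
    (hh : h ∈ H) (hn : h ≠ {a, b, c}) (hc : c ∈ h) : a ∉ h ∧ b ∉ h := by
  have hef : ({a, b, c} : Finset α) ≠ {a, b, d} := by
    intro heq
    have : c ∈ ({a, b, d} : Finset α) := heq ▸ (by simp)
    simp only [Finset.mem_insert, Finset.mem_singleton] at this
    rcases this with h1 | h1 | h1
    · exact hac h1.symm
    · exact hbc h1.symm
    · exact hcd h1
  have hnf : h ≠ {a, b, d} := by
    intro heq
    rw [heq] at hc
    simp only [Finset.mem_insert, Finset.mem_singleton] at hc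
    rcases hc with h1 | h1 | h1
    · exact hac h1.symm
    · exact hbc h1.symm
    · exact hcd h1
  constructor
  · intro ha
    rcases hd a _ he _ hf _ hh (by simp) (by simp) ha with h1 | h1 | h1
    · exact hef h1
    · exact hn h1.symm
    · exact hnf h1.symm
  · intro hb
    rcases hd b _ he _ hf _ hh (by simp) (by simp) hb with h1 | h1 | h1
    · exact hef h1
    · exact hn h1.symm
    · exact hnf h1.symm

/-- In a double pair one of the two outer vertices is private. -/
theorem outer_private (F : Finset (Finset α)) (hB : Blocks F) (H : Finset (Finset α))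
    (hT : ∀ h ∈ H, Tri F h) (hd : Deg2 H) (a b c d : α) (hab : a ≠ b) (hac : a ≠ c)
    (had : a ≠ d) (hbc : b ≠ c) (hbd : b ≠ d) (hcd : c ≠ d) (he : {a, b, c} ∈ H)
    (hf : {a, b, d} ∈ H) (h : Finset α) (hh : h ∈ H) (hn : h ≠ {a, b, c}) (hc : c ∈ h) :
    ∀ k ∈ H, d ∈ k → k = {a, b, d} := by
  intro k hk hdk
  by_contra hkn
  obtain ⟨h1, h2⟩ := miss_pair H hd a b c d hac hbc hcd he hf h hh hn hc
  obtain ⟨h3, h4⟩ := miss_pair H hd a b d c had hbd hcd.symm hf he k hk hkn hdk
  exact fc_G F hB a b c d hab hac had hbc hbd hcd (hT _ he) (hT _ hf) h k (hT _ hh) (hT _ hk)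
    hc h1 h2 hdk h3 h4

theorem alpha (F : Finset (Finset α)) (hB : Blocks F) (H : Finset (Finset α))
    (hT : ∀ h ∈ H, Tri F h) (hd : Deg2 H) : ∀ t ∈ H, (∀ v ∈ t, ∃ k ∈ H, k ≠ t ∧ v ∈ k) →
      ∃ a b c d : α, a ≠ b ∧ a ≠ c ∧ b ≠ c ∧ a ≠ d ∧ b ≠ d ∧ c ≠ d ∧ t = {a, b, c} ∧
        {a, b, d} ∈ H ∧ ∀ k ∈ H, d ∈ k → k = {a, b, d} := by
  intro t ht hcov
  have key : ∀ v ∈ t, ∀ w ∈ t, v ≠ w → ∀ k ∈ H, k ≠ t → v ∈ k → w ∈ k →
      ∃ a b c d : α, a ≠ b ∧ a ≠ c ∧ b ≠ c ∧ a ≠ d ∧ b ≠ d ∧ c ≠ d ∧ t = {a, b, c} ∧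
        {a, b, d} ∈ H ∧ ∀ k ∈ H, d ∈ k → k = {a, b, d} := by
    intro a hat b hbt hab k hk hkt hak hbk
    obtain ⟨c, hac, hbc, rfl⟩ := triA t (hT t ht).2.1 a b hat hbt hab
    obtain ⟨d, had, hbd, rfl⟩ := triA k (hT k hk).2.1 a b hak hbk hab
    have hcd : c ≠ d := by
      rintro rfl
      exact hkt rfl
    obtain ⟨h, hh, hn, hch⟩ := hcov c (by simp)
    exact ⟨a, b, c, d, hab, hac, hbc, had, hbd, hcd, rfl, hk,
      outer_private F hB H hT hd a b c d hab hac had hbc hbd hcd ht hk h hh hn hch⟩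
  obtain ⟨p, hp⟩ : t.Nonempty := by
    rw [← Finset.card_pos, (hT t ht).2.1]
    norm_num
  obtain ⟨q, r, hpq, hpr, hqr, rfl⟩ := triB t (hT t ht).2.1 p hp
  have mp : p ∈ ({p, q, r} : Finset α) := by simp
  have mq : q ∈ ({p, q, r} : Finset α) := by simp
  have mr : r ∈ ({p, q, r} : Finset α) := by simp
  obtain ⟨f, hf, fn, pf⟩ := hcov p mp
  obtain ⟨g, hg, gn, qg⟩ := hcov q mq
  obtain ⟨h, hh, hn, rh⟩ := hcov r mr
  by_cases qf : q ∈ f
  · exact key p mp q mq hpq f hf fn pf qf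
  by_cases rf : r ∈ f
  · exact key p mp r mr hpr f hf fn pf rf
  by_cases pg : p ∈ g
  · exact key q mq p mp hpq.symm g hg gn qg pg
  by_cases rg : r ∈ g
  · exact key q mq r mr hqr g hg gn qg rg
  by_cases ph : p ∈ h
  · exact key r mr p mp hpr.symm h hh hn rh ph
  by_cases qh : q ∈ h
  · exact key r mr q mq hqr.symm h hh hn rh qh
  exact (fc_spider F hB p q r hpq hpr hqr (hT _ ht) f g h (hT _ hf) (hT _ hg) (hT _ hh) pf qg rh
    qf rf pg rg ph qh).elim

theorem main (F J : Finset (Finset α)) (hF : ∀ W, W ∈ F ↔ Cov J W) (x : α)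
    (h3 : ∀ h ∈ J, x ∉ h → h.card = 3)
    (hs : ∀ j ∈ J, x ∈ j → (∃ h ∈ J, x ∉ h ∧ (j ∩ h).Nonempty) → j.card ≤ 3)
    (hne : ∃ h ∈ J, x ∉ h) : ∃ v, v ≠ x ∧ 0 ≤ ex F v := by
  by_contra hcon
  push Not at hcon
  have hneg : ∀ v, v ≠ x → ex F v < 0 := hcon
  have hU := uc_of_cov F J hF
  have h0 : ∅ ∈ F := (hF ∅).2 fun v hv => absurd hv (Finset.notMem_empty v)
  have hB : Blocks F := blocks F hU h0
  set H := J.filter (fun h => x ∉ h) with hH
  set G := F.filter (fun A => x ∉ A) with hGdef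
  have memH : ∀ h, h ∈ H ↔ h ∈ J ∧ x ∉ h := fun h => by rw [hH, Finset.mem_filter]
  have hG : ∀ W, W ∈ G ↔ Cov H W := by
    intro W
    rw [hGdef, Finset.mem_filter]
    constructor
    · rintro ⟨hW, hxW⟩ v hv
      obtain ⟨h, hh, hxh, hvh, hhW⟩ := gen_missing F J hF x W hW hxW v hv
      exact ⟨h, (memH h).2 ⟨hh, hxh⟩, hvh, hhW⟩
    · intro hc
      refine ⟨(hF W).2 fun v hv => ?_, fun hx => ?_⟩
      · obtain ⟨h, hh, hvh, hhW⟩ := hc v hv
        exact ⟨h, ((memH h).1 hh).1, hvh, hhW⟩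
      · obtain ⟨h, hh, hxh, _⟩ := hc x hx
        exact ((memH h).1 hh).2 hxh
  have hxH : ∀ h ∈ H, ∀ v ∈ h, v ≠ x := by
    intro h hh v hv hvx
    exact ((memH h).1 hh).2 (hvx ▸ hv)
  have hT : ∀ h ∈ H, Tri F h := fun h hh =>
    ⟨mem_of_gen F J hF h ((memH h).1 hh).1, h3 h ((memH h).1 hh).1 ((memH h).1 hh).2,
      fun v hv => hneg v (hxH h hh v hv)⟩
  have hcard : ∀ h ∈ H, h.card = 3 := fun h hh => (hT h hh).2.1
  have hd : Deg2 H := deg2 F hB H hT
  have hα := alpha F hB H hT hd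
  have hDD : ∀ z q r a b d a' b' d' : α, z ≠ q → z ≠ r → q ≠ r → {z, q, r} ∈ H → q ≠ a →
      q ≠ b → a ≠ b → {q, a, b} ∈ H → a ≠ d → b ≠ d → q ≠ d → {a, b, d} ∈ H → r ≠ a' →
      r ≠ b' → a' ≠ b' → {r, a', b'} ∈ H → a' ≠ d' → b' ≠ d' → r ≠ d' → {a', b', d'} ∈ H →
      z ≠ a → z ≠ b → r ≠ a → r ≠ b → z ≠ a' → z ≠ b' → q ≠ a' → q ≠ b' → False := by
    intro z q r a b d a' b' d' n1 n2 n3 m1 n4 n5 n6 m2 n7 n8 n9 m3 n10 n11 n12 m4 n13 n14 n15
      m5 n16 n17 n18 n19 n20 n21 n22 n23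
    exact fc_DD F hB z q r a b d a' b' d' n1 n2 n3 (hT _ m1) n4 n5 n6 (hT _ m2) n7 n8 n9
      (hT _ m3) n10 n11 n12 (hT _ m4) n13 n14 n15 (hT _ m5) n16 n17 n18 n19 n20 n21 n22 n23
  have hsmall : ∀ h ∈ H, ∀ a b : α, a ∈ h → b ∈ h →
      ∀ j ∈ J, x ∈ j → (a ∈ j ∨ b ∈ j) → j.card ≤ 3 := by
    intro h hh a b ha hb j hj hxj hor
    refine hs j hj hxj ⟨h, ((memH h).1 hh).1, ((memH h).1 hh).2, ?_⟩
    rcases hor with h1 | h1
    · exact ⟨a, Finset.mem_inter.2 ⟨h1, ha⟩⟩
    · exact ⟨b, Finset.mem_inter.2 ⟨h1, hb⟩⟩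
  have hV0 : ∀ z, (∃ h ∈ J, x ∉ h ∧ z ∈ h) → ∃ k ∈ H, z ∈ k := by
    rintro z ⟨h, hh, hxh, hzh⟩
    exact ⟨h, (memH h).2 ⟨hh, hxh⟩, hzh⟩
  -- a double pair
  have dbl : ∀ a b c d : α, a ≠ b → a ≠ c → a ≠ d → b ≠ c → b ≠ d → c ≠ d → {a, b, c} ∈ H →
      {a, b, d} ∈ H → (∀ k ∈ H, d ∈ k → k = {a, b, d}) → False := by
    intro a b c d hab hac had hbc hbd hcd he hf hpd
    have hef : ({a, b, c} : Finset α) ≠ {a, b, d} := by
      intro heq
      have : c ∈ ({a, b, d} : Finset α) := heq ▸ (by simp)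
      simp only [Finset.mem_insert, Finset.mem_singleton] at this
      rcases this with h1 | h1 | h1
      · exact hac h1.symm
      · exact hbc h1.symm
      · exact hcd h1
    have hax : a ≠ x := hxH _ he a (by simp)
    have hbx : b ≠ x := hxH _ he b (by simp)
    have hcx : c ≠ x := hxH _ he c (by simp)
    have hdx : d ≠ x := hxH _ hf d (by simp)
    have only_a : ∀ h ∈ H, a ∈ h → h = {a, b, c} ∨ h = {a, b, d} := by
      intro h hh hah
      rcases hd a _ he _ hf _ hh (by simp) (by simp) hah with h1 | h1 | h1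
      · exact absurd h1 hef
      · exact Or.inl h1.symm
      · exact Or.inr h1.symm
    have only_b : ∀ h ∈ H, b ∈ h → h = {a, b, c} ∨ h = {a, b, d} := by
      intro h hh hbh
      rcases hd b _ he _ hf _ hh (by simp) (by simp) hbh with h1 | h1 | h1
      · exact absurd h1 hef
      · exact Or.inl h1.symm
      · exact Or.inr h1.symm
    have m1 := M1 G H hG hd hcard a b c d hab hac had hbc hbd hcd he hf hpd
    have hlt := lemT F J hF x a b hab hax hbx
      (fun h hh hxh => by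
        constructor
        · intro h1
          rcases only_a h ((memH h).2 ⟨hh, hxh⟩) h1 with rfl | rfl <;> simp
        · intro h1
          rcases only_b h ((memH h).2 ⟨hh, hxh⟩) h1 with rfl | rfl <;> simp)
      ⟨{a, b, c}, ((memH _).1 he).1, ((memH _).1 he).2, by simp⟩
      (fun z hz => by
        obtain ⟨k, hk, hzk⟩ := hV0 z hz
        have m2 := M2 G H hG hd hcard hα hDD z k hk hzk
        rw [← hGdef, ex_eq_card, ex_eq_card]
        have htot : (G.filter (fun A => a ∈ A)).card + (G.filter (fun A => a ∉ A)).card =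
            (G.filter (fun A => z ∈ A)).card + (G.filter (fun A => z ∉ A)).card := by
          rw [Finset.card_filter_add_card_filter_not, Finset.card_filter_add_card_filter_not]
        have m1' : 2 * ((G.filter (fun A => a ∉ A)).card : ℤ) ≤
            (G.filter (fun A => a ∈ A)).card := by exact_mod_cast m1
        have m2' : ((G.filter (fun A => z ∉ A)).card : ℤ) ≤
            2 * (G.filter (fun A => z ∈ A)).card := by exact_mod_cast m2
        have htot' : ((G.filter (fun A => a ∈ A)).card : ℤ) + (G.filter (fun A => a ∉ A)).card =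
            (G.filter (fun A => z ∈ A)).card + (G.filter (fun A => z ∉ A)).card := by
          exact_mod_cast htot
        linarith)
      (hsmall _ he a b (by simp) (by simp)) hneg
    have hE : ({a, b, c} : Finset α) ∪ {a, b, d} ∈ F :=
      hU _ (hT _ he).1 _ (hT _ hf).1
    have hp := pairE F hU _ hE c d (by simp) (by simp) (fun A hA hcA hdA => by
      have haA : a ∉ A := by
        intro haA
        obtain ⟨j, hj, haj, hjA⟩ := (hF A).1 hA a haA
        by_cases hxj : x ∈ j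
        · exact (hlt j hj hxj).1 haj
        · rcases only_a j ((memH j).2 ⟨hj, hxj⟩) haj with rfl | rfl
          · exact hcA (hjA (by simp))
          · exact hdA (hjA (by simp))
      have hbA : b ∉ A := by
        intro hbA
        obtain ⟨j, hj, hbj, hjA⟩ := (hF A).1 hA b hbA
        by_cases hxj : x ∈ j
        · exact (hlt j hj hxj).2 hbj
        · rcases only_b j ((memH j).2 ⟨hj, hxj⟩) hbj with rfl | rfl
          · exact hcA (hjA (by simp))
          · exact hdA (hjA (by simp))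
      rw [Finset.disjoint_right]
      intro v hv
      simp only [Finset.mem_union, Finset.mem_insert, Finset.mem_singleton] at hv
      rcases hv with (rfl | rfl | rfl) | (rfl | rfl | rfl) <;> assumption)
    have h1 := hneg c hcx
    have h2 := hneg d hdx
    linarith
  have nodbl : ∀ a b : α, a ≠ b → ∀ h ∈ H, ∀ k ∈ H, a ∈ h → b ∈ h → a ∈ k → b ∈ k →
      h = k := by
    intro a b hab h hh k hk ah bh ak bk
    by_contra hhk
    obtain ⟨c, hac, hbc, rfl⟩ := triA h (hcard h hh) a b ah bh hab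
    obtain ⟨d, had, hbd, rfl⟩ := triA k (hcard k hk) a b ak bk hab
    have hcd : c ≠ d := by
      rintro rfl
      exact hhk rfl
    by_cases hpd : ∀ l ∈ H, d ∈ l → l = {a, b, d}
    · exact dbl a b c d hab hac had hbc hbd hcd hh hk hpd
    · push Not at hpd
      obtain ⟨l, hl, hdl, hln⟩ := hpd
      exact dbl a b d c hab had hac hbd hbc hcd.symm hk hh
        (outer_private F hB H hT hd a b d c hab had hac hbd hbc hcd.symm hk hh l hl hln hdl)
  have hpriv : ∀ h ∈ H, ∃ v ∈ h, ∀ k ∈ H, v ∈ k → k = h := by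
    intro h hh
    by_contra hno
    push Not at hno
    obtain ⟨a, b, c, d, hab, hac, hbc, had, hbd, hcd, rfl, hf, hpd⟩ := hα h hh (fun v hv => by
      obtain ⟨k, hk, hvk, hkh⟩ := hno v hv
      exact ⟨k, hk, hkh, hvk⟩)
    exact dbl a b c d hab hac had hbc hbd hcd hh hf hpd
  have hfree : ∀ z, (∃ k ∈ H, z ∈ k) → 0 ≤ ex G z := by
    rintro z ⟨k, hk, hzk⟩
    exact free_ex G H hG hpriv z k hk hzk
  -- a member with two private vertices
  have twopriv : ∀ h ∈ H, ∀ a ∈ h, ∀ b ∈ h, a ≠ b → (∀ k ∈ H, a ∈ k → k = h) →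
      (∀ k ∈ H, b ∈ k → k = h) → False := by
    intro h hh a ah b bh hab pa pb
    obtain ⟨c, hac, hbc, rfl⟩ := triA h (hcard h hh) a b ah bh hab
    have hax : a ≠ x := hxH _ hh a (by simp)
    have hbx : b ≠ x := hxH _ hh b (by simp)
    have hcx : c ≠ x := hxH _ hh c (by simp)
    have hlt := lemT F J hF x a b hab hax hbx
      (fun k hk hxk => by
        constructor
        · intro h1
          rw [pa k ((memH k).2 ⟨hk, hxk⟩) h1]
          simp
        · intro h1
          rw [pb k ((memH k).2 ⟨hk, hxk⟩) h1]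
          simp)
      ⟨{a, b, c}, ((memH _).1 hh).1, ((memH _).1 hh).2, by simp⟩
      (fun z hz => by
        have h1 := hfree z (hV0 z hz)
        have h2 := hfree a ⟨_, hh, by simp⟩
        rw [← hGdef]
        linarith)
      (hsmall _ hh a b (by simp) (by simp)) hneg
    have hp := pairE F hU _ (hT _ hh).1 a c (by simp) (by simp) (fun A hA haA hcA => by
      have hbA : b ∉ A := by
        intro hbA
        obtain ⟨j, hj, hbj, hjA⟩ := (hF A).1 hA b hbA
        by_cases hxj : x ∈ j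
        · exact (hlt j hj hxj).2 hbj
        · have := pb j ((memH j).2 ⟨hj, hxj⟩) hbj
          rw [this] at hjA
          exact haA (hjA (by simp))
      rw [Finset.disjoint_right]
      intro v hv
      simp only [Finset.mem_insert, Finset.mem_singleton] at hv
      rcases hv with rfl | rfl | rfl <;> assumption)
    have h1 := hneg a hax
    have h2 := hneg c hcx
    linarith
  have hHne : H.Nonempty := by
    obtain ⟨h, hh, hxh⟩ := hne
    exact ⟨h, (memH h).2 ⟨hh, hxh⟩⟩
  classical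
  refine fc_cycle F hB H hHne hT
    (fun h => if hh : h ∈ H then (hpriv h hh).choose else x) ?_ ?_ ?_
  · intro h hh
    simp only [hh, dif_pos]
    exact (hpriv h hh).choose_spec.1
  · intro h hh k hk hpk
    simp only [hh, dif_pos] at hpk
    exact (hpriv h hh).choose_spec.2 k hk hpk
  · intro h hh v hv hvp
    simp only [hh, dif_pos] at hvp
    have hnp : ∃ k ∈ H, v ∈ k ∧ k ≠ h := by
      by_contra hno
      push Not at hno
      exact twopriv h hh v hv _ (hpriv h hh).choose_spec.1 hvp hno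
        (hpriv h hh).choose_spec.2
    obtain ⟨k, hk, hvk, hkh⟩ := hnp
    refine ⟨k, hk, hkh, hvk, ?_, ?_⟩
    · intro l hl hvl
      rcases hd v h hh k hk l hl hv hvk hvl with h1 | h1 | h1
      · exact absurd h1.symm hkh
      · exact Or.inl h1.symm
      · exact Or.inr h1.symm
    · intro w hwh hwk
      by_contra hwv
      exact hkh (nodbl w v hwv h hh k hk hwh hv hwk hvk).symm

/-- Every member is a union of irreducible members. -/
theorem cov_irr (F J : Finset (Finset α)) (hJ : ∀ A, A ∈ J ↔ Irr F A) :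
    ∀ n, ∀ A ∈ F, A.card = n → Cov J A := by
  intro n
  induction n using Nat.strong_induction_on with
  | _ n ih =>
    intro A hA hn v hv
    by_cases hI : Irr F A
    · exact ⟨A, (hJ A).2 hI, hv, subset_rfl⟩
    · have h1 : ∃ B ∈ F, ∃ C ∈ F, B ∪ C = A ∧ B ≠ A ∧ C ≠ A := by
        by_contra hcon
        push Not at hcon
        refine hI ⟨hA, ⟨v, hv⟩, fun B hB C hC hBC => ?_⟩
        by_cases h : B = A
        · exact Or.inl h
        · exact Or.inr (hcon B hB C hC hBC h)
      obtain ⟨B, hB, C, hC, hBC, hBA, hCA⟩ := h1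
      have hBs : B ⊂ A := Finset.ssubset_iff_subset_ne.2 ⟨hBC ▸ Finset.subset_union_left, hBA⟩
      have hCs : C ⊂ A := Finset.ssubset_iff_subset_ne.2 ⟨hBC ▸ Finset.subset_union_right, hCA⟩
      rw [← hBC] at hv
      rcases Finset.mem_union.1 hv with h | h
      · obtain ⟨g, hg, hvg, hgB⟩ := ih B.card (hn ▸ Finset.card_lt_card hBs) B hB rfl v h
        exact ⟨g, hg, hvg, hgB.trans hBs.subset⟩
      · obtain ⟨g, hg, hvg, hgC⟩ := ih C.card (hn ▸ Finset.card_lt_card hCs) C hC rfl v h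
        exact ⟨g, hg, hvg, hgC.trans hCs.subset⟩

theorem mem_of_cov (F J : Finset (Finset α)) (hU : Uc F) (hJF : ∀ A ∈ J, A ∈ F)
    (W : Finset α) (hW : Cov J W) (hne : W.Nonempty) : W ∈ F := by
  have key : ∀ S : Finset α, S ⊆ W → S.Nonempty → ∃ U ∈ F, S ⊆ U ∧ U ⊆ W := by
    intro S
    induction S using Finset.induction_on with
    | empty => intro _ h; exact absurd h (by simp)
    | insert v S hv ih =>
      intro hS _
      obtain ⟨h, hh, hvh, hhW⟩ := hW v (hS (Finset.mem_insert_self v S))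
      by_cases hSe : S.Nonempty
      · obtain ⟨U, hU', hSU, hUW⟩ := ih ((Finset.subset_insert v S).trans hS) hSe
        refine ⟨U ∪ h, hU U hU' h (hJF h hh), ?_, Finset.union_subset hUW hhW⟩
        intro w hw
        rcases Finset.mem_insert.1 hw with rfl | hw
        · exact Finset.mem_union_right _ hvh
        · exact Finset.mem_union_left _ (hSU hw)
      · rw [Finset.not_nonempty_iff_eq_empty] at hSe
        subst hSe
        refine ⟨h, hJF h hh, ?_, hhW⟩
        intro w hw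
        rw [Finset.mem_insert] at hw
        rcases hw with rfl | hw
        · exact hvh
        · exact absurd hw (by simp)
  obtain ⟨U, hU', h1, h2⟩ := key W subset_rfl hne
  rwa [Finset.Subset.antisymm h1 h2]

theorem final (F : Finset (Finset α)) (hU : Uc F) (x : α)
    (h1 : ∀ A, Irr F A → x ∉ A → A.card ≤ 3)
    (h2 : ∀ A B, Irr F A → Irr F B → x ∈ A → x ∉ B → (A ∩ B).Nonempty → A.card ≤ 3)
    (hx : ∀ y : α, (F.card ≤ 2 * (F.filter (fun A => y ∈ A)).card ↔ y = x)) :
    ∀ A ∈ F, A.Nonempty → x ∈ A := by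
  classical
  intro A hA hAne
  by_contra hxA
  set J := F.filter (fun A => Irr F A) with hJdef
  have hJ : ∀ A, A ∈ J ↔ Irr F A := by
    intro A
    rw [hJdef, Finset.mem_filter]
    exact ⟨fun h => h.2, fun h => ⟨h.1, h⟩⟩
  set F0 := insert (∅ : Finset α) F with hF0
  have hcovF : ∀ W ∈ F, Cov J W := fun W hW => cov_irr F J hJ W.card W hW rfl
  have hF : ∀ W, W ∈ F0 ↔ Cov J W := by
    intro W
    rw [hF0, Finset.mem_insert]
    constructor
    · rintro (rfl | hW)
      · intro v hv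
        exact absurd hv (by simp)
      · exact hcovF W hW
    · intro hc
      rcases W.eq_empty_or_nonempty with h | h
      · exact Or.inl h
      · exact Or.inr (mem_of_cov F J hU (fun A hA => ((hJ A).1 hA).1) W hc h)
  have hU0 := uc_of_cov F0 J hF
  have hneg : ∀ v, v ≠ x → ex F0 v < 0 := by
    intro v hv
    have h3 : ¬ F.card ≤ 2 * (F.filter (fun A => v ∈ A)).card := fun h => hv ((hx v).1 h)
    have h4 : ex F v < 0 := by
      rw [ex_eq_card]
      have := Finset.card_filter_add_card_filter_not (s := F) (fun A => v ∈ A)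
      omega
    by_cases he : (∅ : Finset α) ∈ F
    · rw [hF0, Finset.insert_eq_self.2 he]
      exact h4
    · have : ex F0 v = -1 + ex F v := by
        unfold ex
        rw [hF0, Finset.sum_insert he]
        simp
      rw [this]
      linarith
  have hcard3 : ∀ h ∈ J, x ∉ h → h.card = 3 := by
    intro h hh hxh
    have hI := (hJ h).1 hh
    have hle := h1 h hI hxh
    have hhF0 := mem_of_gen F0 J hF h hh
    have hpos : 0 < h.card := Finset.card_pos.2 hI.2.1
    by_contra hne3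
    have h12 : h.card = 1 ∨ h.card = 2 := by omega
    rcases h12 with hc | hc
    · obtain ⟨v, rfl⟩ := Finset.card_eq_one.1 hc
      have hvx : v ≠ x := by
        rintro rfl
        exact hxh (by simp)
      have := pairE F0 hU0 {v} hhF0 v v (by simp) (by simp) (fun B _ hvB _ => by
        rw [Finset.disjoint_singleton_right]
        exact hvB)
      have h3 := hneg v hvx
      linarith
    · obtain ⟨u, v, huv, rfl⟩ := Finset.card_eq_two.1 hc
      have hux : u ≠ x := by
        rintro rfl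
        exact hxh (by simp)
      have hvx : v ≠ x := by
        rintro rfl
        exact hxh (by simp)
      have := pairE F0 hU0 {u, v} hhF0 u v (by simp) (by simp) (fun B _ huB hvB => by
        rw [Finset.disjoint_right]
        intro w hw
        simp only [Finset.mem_insert, Finset.mem_singleton] at hw
        rcases hw with rfl | rfl <;> assumption)
      have h3 := hneg u hux
      have h4 := hneg v hvx
      linarith
  obtain ⟨a, ha⟩ := hAne
  obtain ⟨g, hg, _, hgA⟩ := hcovF A hA a ha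
  obtain ⟨v, hvx, hv⟩ := main F0 J hF x hcard3
    (fun j hj hxj hh => by
      obtain ⟨h, hhJ, hxh, hne⟩ := hh
      exact h2 j h ((hJ j).1 hj) ((hJ h).1 hhJ) hxj hxh hne)
    ⟨g, hg, fun hxg => hxA (hgA hxg)⟩
  have := hneg v hvx
  linarith

end Pool.Agent.Lib.MP_ff7426_co.U3
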