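import Pool.Agent.Lib.MP_ff7426_co.U3.Two

/-!
MP_ff7426_co (helper33): the structural statement for families generated by sets of size at most
three.
-/

set_option autoImplicit false

namespace Pool.Agent.Lib.MP_ff7426_co.U3

variable {α : Type*} [DecidableEq α]

/-- the card inequality and its equality case, all members containing `x` -/
theorem factS (K : Finset (Finset α)) (hU : Uc K) (x : α) (hx : ∀ A ∈ K, x ∈ A) (j : Finset α)
    (hj : j ∈ K) (a b : α) (hax : a ≠ x) (hbx : b ≠ x) (ha : a ∈ j) (hb : b ∈ j)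
    (hab : ∀ v ∈ j, v = x ∨ v = a ∨ v = b) :
    0 ≤ ex K a + ex K b ∧ (ex K a + ex K b = 0 → ∀ A ∈ K, a ∈ A → b ∈ A →
      (A.erase a).erase b ∈ K) := by
  have hmap : ∀ A ∈ (K.filter (fun A => a ∉ A ∧ b ∉ A) : Finset (Finset α)),
      A ∪ j ∈ (K.filter (fun A => a ∈ A ∧ b ∈ A) : Finset (Finset α)) := by
    intro A hA
    rw [Finset.mem_filter] at hA ⊢
    exact ⟨hU A hA.1 j hj, Finset.mem_union_right _ ha, Finset.mem_union_right _ hb⟩
  have herase : ∀ A ∈ K, a ∉ A → b ∉ A → ((A ∪ j).erase a).erase b = A := by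
    intro A hA haA hbA
    ext v
    rw [Finset.mem_erase, Finset.mem_erase, Finset.mem_union]
    constructor
    · rintro ⟨h1, h2, h3 | h3⟩
      · exact h3
      · rcases hab v h3 with rfl | h4 | h4
        · exact hx A hA
        · exact absurd h4 h2
        · exact absurd h4 h1
    · intro hv
      refine ⟨?_, ?_, Or.inl hv⟩
      · rintro rfl
        exact hbA hv
      · rintro rfl
        exact haA hv
  have hinj : ∀ A ∈ (K.filter (fun A => a ∉ A ∧ b ∉ A) : Finset (Finset α)),
      ∀ B ∈ (K.filter (fun A => a ∉ A ∧ b ∉ A) : Finset (Finset α)), A ∪ j = B ∪ j → A = B := by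
    intro A hA B hB h
    rw [Finset.mem_filter] at hA hB
    rw [← herase A hA.1 hA.2.1 hA.2.2, ← herase B hB.1 hB.2.1 hB.2.2, h]
  have hc : (K.filter (fun A => a ∉ A ∧ b ∉ A)).card ≤
      (K.filter (fun A => a ∈ A ∧ b ∈ A)).card :=
    Finset.card_le_card_of_injOn (fun A => A ∪ j) hmap hinj
  have hc' : ((K.filter (fun A => a ∉ A ∧ b ∉ A)).card : ℤ) ≤
      (K.filter (fun A => a ∈ A ∧ b ∈ A)).card := by exact_mod_cast hc
  rw [ex_add_card]
  refine ⟨by linarith, ?_⟩
  intro h0 A hA haA hbA
  have hle : (K.filter (fun A => a ∈ A ∧ b ∈ A)).card ≤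
      (K.filter (fun A => a ∉ A ∧ b ∉ A)).card := by
    have : ((K.filter (fun A => a ∈ A ∧ b ∈ A)).card : ℤ) ≤
      (K.filter (fun A => a ∉ A ∧ b ∉ A)).card := by linarith
    exact_mod_cast this
  have hsurj := Finset.surjOn_of_injOn_of_card_le (fun A => A ∪ j)
    (s := K.filter (fun A => a ∉ A ∧ b ∉ A)) (t := K.filter (fun A => a ∈ A ∧ b ∈ A))
    hmap hinj hle
  obtain ⟨B, hB, hBA⟩ := hsurj (Finset.mem_coe.2 (Finset.mem_filter.2 ⟨hA, haA, hbA⟩))
  rw [Finset.mem_coe, Finset.mem_filter] at hB
  simp only at hBA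
  rw [← hBA, herase B hB.1 hB.2.1 hB.2.2]
  exact hB.1

/-- every member containing `v <> x` contains a generator `{x, v, w}` -/
theorem gen3 (F J : Finset (Finset α)) (hJ : ∀ A, A ∈ J ↔ Irr F A) (x : α)
    (h3 : ∀ A, Irr F A → A.card ≤ 3) (hxA : ∀ A ∈ F, A.Nonempty → x ∈ A) (A : Finset α)
    (hA : A ∈ F) (v : α) (hv : v ∈ A) (hvx : v ≠ x) :
    ∃ w, w ≠ x ∧ ({x, v, w} : Finset α) ∈ F ∧ w ∈ A := by
  obtain ⟨j, hj, hvj, hjA⟩ := cov_irr F J hJ A.card A hA rfl v hv
  have hI := (hJ j).1 hj
  have hxj := hxA j hI.1 hI.2.1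
  have hc := h3 j hI
  have h1 : ((j.erase x).erase v).card ≤ 1 := by
    rw [Finset.card_erase_of_mem (Finset.mem_erase.2 ⟨hvx, hvj⟩), Finset.card_erase_of_mem hxj]
    omega
  by_cases he : ((j.erase x).erase v).Nonempty
  · obtain ⟨w, hw⟩ := he
    have hw' := hw
    rw [Finset.mem_erase, Finset.mem_erase] at hw'
    refine ⟨w, hw'.2.1, ?_, hjA hw'.2.2⟩
    have : j = {x, v, w} := by
      ext z
      simp only [Finset.mem_insert, Finset.mem_singleton]
      constructor
      · intro hz
        by_cases h1z : z = x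
        · exact Or.inl h1z
        · by_cases h2z : z = v
          · exact Or.inr (Or.inl h2z)
          · right; right
            exact Finset.card_le_one.1 h1 z
              (Finset.mem_erase.2 ⟨h2z, Finset.mem_erase.2 ⟨h1z, hz⟩⟩) w hw
      · rintro (rfl | rfl | rfl)
        · exact hxj
        · exact hvj
        · exact hw'.2.2
    rw [← this]
    exact hI.1
  · rw [Finset.not_nonempty_iff_eq_empty] at he
    refine ⟨v, hvx, ?_, hv⟩
    have : j = {x, v, v} := by
      ext z
      simp only [Finset.mem_insert, Finset.mem_singleton, or_self]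
      constructor
      · intro hz
        by_cases h1z : z = x
        · exact Or.inl h1z
        · by_cases h2z : z = v
          · exact Or.inr h2z
          · have : z ∈ (j.erase x).erase v :=
              Finset.mem_erase.2 ⟨h2z, Finset.mem_erase.2 ⟨h1z, hz⟩⟩
            rw [he] at this
            exact absurd this (Finset.notMem_empty z)
      · rintro (rfl | rfl)
        · exact hxj
        · exact hvj
    rw [← this]
    exact hI.1

theorem struct (F : Finset (Finset α)) (hU : Uc F) (x : α) (h3 : ∀ A, Irr F A → A.card ≤ 3)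
    (hx : ∀ y : α, (F.card ≤ 2 * (F.filter (fun A => y ∈ A)).card ↔ y = x))
    (hM : 2 ≤ (F.sup id).card)
    (hsep : ∀ u ∈ F.sup id, ∀ v ∈ F.sup id, u ≠ v → ∃ A ∈ F, (u ∈ A ∧ v ∉ A) ∨ (v ∈ A ∧ u ∉ A)) :
    ∀ A : Finset α, A ∈ F ↔ A = ∅ ∨ (x ∈ A ∧ A ⊆ F.sup id) := by
  classical
  have hxA := final F hU x (fun A hA _ => h3 A hA) (fun A _ hA _ _ _ _ => h3 A hA) hx
  set J := F.filter (fun A => Irr F A) with hJdef
  have hJ : ∀ A, A ∈ J ↔ Irr F A := by
    intro A
    rw [hJdef, Finset.mem_filter]
    exact ⟨fun h => h.2, fun h => ⟨h.1, h⟩⟩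
  have hneg : ∀ v, v ≠ x → ex F v < 0 := by
    intro v hv
    have h3 : ¬ F.card ≤ 2 * (F.filter (fun A => v ∈ A)).card := fun h => hv ((hx v).1 h)
    rw [ex_eq_card]
    have := Finset.card_filter_add_card_filter_not (s := F) (fun A => v ∈ A)
    omega
  -- the members containing x
  set K := F.filter (fun A => x ∈ A) with hK
  have memK : ∀ A, A ∈ K ↔ A ∈ F ∧ x ∈ A := fun A => by rw [hK, Finset.mem_filter]
  have hUK : Uc K := by
    intro A hA B hB
    rw [memK] at *
    exact ⟨hU A hA.1 B hB.1, Finset.mem_union_left _ hA.2⟩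
  have hxK : ∀ A ∈ K, x ∈ A := fun A hA => ((memK A).1 hA).2
  have hmemM : ∀ A ∈ F, A ⊆ F.sup id := fun A hA => Finset.le_sup (f := id) hA
  -- some element other than x
  obtain ⟨v0, hv0M, hv0x⟩ : ∃ v ∈ F.sup id, v ≠ x := by
    by_contra hcon
    push Not at hcon
    have : F.sup id ⊆ {x} := by
      intro v hv
      rw [Finset.mem_singleton]
      exact hcon v hv
    have := Finset.card_le_card this
    rw [Finset.card_singleton] at this
    omega
  have hcovM : ∀ v ∈ F.sup id, ∃ A ∈ F, v ∈ A := by
    intro v hv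
    rw [Finset.mem_sup] at hv
    exact hv
  obtain ⟨A0, hA0, hvA0⟩ := hcovM v0 hv0M
  obtain ⟨w0, hw0x, hj0, _⟩ := gen3 F J hJ x h3 hxA A0 hA0 v0 hvA0 hv0x
  -- Step 1: the empty set
  have h0 : ∅ ∈ F := by
    by_contra h0
    have hKF : K = F := by
      ext A
      rw [memK]
      constructor
      · exact fun h => h.1
      · intro hA
        refine ⟨hA, hxA A hA ?_⟩
        rw [Finset.nonempty_iff_ne_empty]
        rintro rfl
        exact h0 hA
    have := (factS K hUK x hxK {x, v0, w0} ((memK _).2 ⟨hj0, by simp⟩) v0 w0 hv0x hw0x (by simp)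
      (by simp) (by intro v hv; simpa using hv)).1
    rw [hKF] at this
    have h1 := hneg v0 hv0x
    have h2 := hneg w0 hw0x
    linarith
  have hF0 : insert (∅ : Finset α) F = F := Finset.insert_eq_self.2 h0
  have hF : ∀ W, W ∈ F ↔ Cov J W := by
    intro W
    have := cov_insert F J hU hJ W
    rwa [hF0] at this
  have hallJ : ∀ h ∈ J, x ∈ h := fun h hh => hxA h ((hJ h).1 hh).1 ((hJ h).1 hh).2.1
  -- Step 2: the singleton of x
  have h1x : ({x} : Finset α) ∈ F := by
    by_contra h1x
    obtain ⟨j, hj, hvj, _⟩ := cov_irr F J hJ A0.card A0 hA0 rfl v0 hvA0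
    have hI := (hJ j).1 hj
    have hxj := hallJ j hj
    have hc := h3 j hI
    have h1 : ((j.erase x).erase v0).card ≤ 1 := by
      rw [Finset.card_erase_of_mem (Finset.mem_erase.2 ⟨hv0x, hvj⟩), Finset.card_erase_of_mem hxj]
      omega
    obtain ⟨w, hwx, hwj, hall⟩ : ∃ w, w ≠ x ∧ w ∈ j ∧ ∀ z ∈ j, z = x ∨ z = v0 ∨ z = w := by
      by_cases he : ((j.erase x).erase v0).Nonempty
      · obtain ⟨w, hw⟩ := he
        have hw' := hw
        rw [Finset.mem_erase, Finset.mem_erase] at hw'
        refine ⟨w, hw'.2.1, hw'.2.2, ?_⟩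
        intro z hz
        by_cases h1z : z = x
        · exact Or.inl h1z
        · by_cases h2z : z = v0
          · exact Or.inr (Or.inl h2z)
          · right; right
            exact Finset.card_le_one.1 h1 z
              (Finset.mem_erase.2 ⟨h2z, Finset.mem_erase.2 ⟨h1z, hz⟩⟩) w hw
      · rw [Finset.not_nonempty_iff_eq_empty] at he
        refine ⟨v0, hv0x, hvj, ?_⟩
        intro z hz
        by_cases h1z : z = x
        · exact Or.inl h1z
        · by_cases h2z : z = v0
          · exact Or.inr (Or.inl h2z)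
          · have : z ∈ (j.erase x).erase v0 :=
              Finset.mem_erase.2 ⟨h2z, Finset.mem_erase.2 ⟨h1z, hz⟩⟩
            rw [he] at this
            exact absurd this (Finset.notMem_empty z)
    have := pair_all F J hF x hallJ h1x j hj v0 w hv0x hwx hvj hwj hall
    have h4 := hneg v0 hv0x
    have h5 := hneg w hwx
    linarith
  -- Step 3
  have hexK : ∀ v, v ≠ x → ex K v ≤ 0 := by
    intro v hv
    have hins : F = insert ∅ K := by
      ext A
      rw [Finset.mem_insert, memK]
      constructor
      · intro hA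
        rcases A.eq_empty_or_nonempty with h | h
        · exact Or.inl h
        · exact Or.inr ⟨hA, hxA A hA h⟩
      · rintro (rfl | h)
        · exact h0
        · exact h.1
    have hnK : ∅ ∉ K := by
      rw [memK]
      rintro ⟨_, h⟩
      exact absurd h (by simp)
    have h1 : ex F v = -1 + ex K v := by
      conv_lhs => rw [hins]
      unfold ex
      rw [Finset.sum_insert hnK]
      simp
    have := hneg v hv
    omega
  have S : ∀ a b, a ≠ x → b ≠ x → ({x, a, b} : Finset α) ∈ F → ∀ A ∈ F, a ∈ A → b ∈ A →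
      (A.erase a).erase b ∈ F := by
    intro a b hax hbx hj A hA haA hbA
    have h1 := factS K hUK x hxK {x, a, b} ((memK _).2 ⟨hj, by simp⟩) a b hax hbx (by simp)
      (by simp) (by intro v hv; simpa using hv)
    have h2 := hexK a hax
    have h3 := hexK b hbx
    have h4 := h1.2 (by linarith [h1.1]) A ((memK A).2 ⟨hA, hxA A hA ⟨a, haA⟩⟩) haA hbA
    exact ((memK _).1 h4).1
  -- Step 4
  have hsing : ∀ v ∈ F.sup id, v ≠ x → ({x, v} : Finset α) ∈ F := by
    intro v hvM hvx
    by_contra hnv
    obtain ⟨A1, hA1, hvA1⟩ := hcovM v hvM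
    obtain ⟨u, hux, hj, huA1⟩ := gen3 F J hJ x h3 hxA A1 hA1 v hvA1 hvx
    have huv : u ≠ v := by
      rintro rfl
      apply hnv
      simpa using hj
    have hnu : ({x, u} : Finset α) ∉ F := by
      intro hu
      have h1 := S u u hux hux (by simpa using hu) {x, v, u} hj (by simp) (by simp)
      apply hnv
      have h2 : ((({x, v, u} : Finset α).erase u).erase u) = {x, v} := by
        ext z
        simp only [Finset.mem_erase, Finset.mem_insert, Finset.mem_singleton]
        constructor
        · rintro ⟨_, h2, h3 | h3 | h3⟩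
          · exact Or.inl h3
          · exact Or.inr h3
          · exact absurd h3 h2
        · rintro (rfl | rfl)
          · exact ⟨hux.symm, hux.symm, Or.inl rfl⟩
          · exact ⟨huv.symm, huv.symm, Or.inr (Or.inl rfl)⟩
      rwa [h2] at h1
    -- general exclusion
    have key : ∀ p q : α, ({x, p} : Finset α) ∉ F → p ≠ x → q ≠ x → p ≠ q →
        ({x, p, q} : Finset α) ∈ F → ∀ w, w ≠ x → ({x, p, w} : Finset α) ∈ F → w = q := by
      intro p q hnp hpx hqx hpq hjpq w hwx hjw
      by_contra hwq
      have hwp : w ≠ p := by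
        rintro rfl
        apply hnp
        simpa using hjw
      have h1 := S p q hpx hqx hjpq _ (hU _ hjpq _ hjw) (by simp) (by simp)
      have h2 : (((({x, p, q} : Finset α) ∪ {x, p, w}).erase p).erase q) = {x, w} := by
        ext z
        simp only [Finset.mem_erase, Finset.mem_union, Finset.mem_insert, Finset.mem_singleton]
        constructor
        · rintro ⟨h2, h3, (h4 | h4 | h4) | (h4 | h4 | h4)⟩
          · exact Or.inl h4
          · exact absurd h4 h3
          · exact absurd h4 h2
          · exact Or.inl h4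
          · exact absurd h4 h3
          · exact Or.inr h4
        · rintro (rfl | rfl)
          · exact ⟨hqx.symm, hpx.symm, Or.inl (Or.inl rfl)⟩
          · exact ⟨hwq, hwp, Or.inr (Or.inr (Or.inr rfl))⟩
      rw [h2] at h1
      have h3 := S w w hwx hwx (by simpa using h1) {x, p, w} hjw (by simp) (by simp)
      apply hnp
      have h4 : ((({x, p, w} : Finset α).erase w).erase w) = {x, p} := by
        ext z
        simp only [Finset.mem_erase, Finset.mem_insert, Finset.mem_singleton]
        constructor
        · rintro ⟨_, h2, h3 | h3 | h3⟩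
          · exact Or.inl h3
          · exact Or.inr h3
          · exact absurd h3 h2
        · rintro (rfl | rfl)
          · exact ⟨hwx.symm, hwx.symm, Or.inl rfl⟩
          · exact ⟨hwp.symm, hwp.symm, Or.inr (Or.inl rfl)⟩
      rwa [h4] at h3
    have hjs : ({x, u, v} : Finset α) ∈ F := by
      have : ({x, u, v} : Finset α) = {x, v, u} := by
        rw [Finset.pair_comm]
      rw [this]; exact hj
    have huM : u ∈ F.sup id := hmemM _ hj (by simp)
    obtain ⟨A, hA, hAs⟩ := hsep u huM v hvM huv
    rcases hAs with ⟨h5, h6⟩ | ⟨h5, h6⟩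
    · obtain ⟨w, hwx, hjw, hwA⟩ := gen3 F J hJ x h3 hxA A hA u h5 hux
      have := key u v hnu hux hvx huv hjs w hwx hjw
      rw [this] at hwA
      exact h6 hwA
    · obtain ⟨w, hwx, hjw, hwA⟩ := gen3 F J hJ x h3 hxA A hA v h5 hvx
      have := key v u hnv hvx hux huv.symm hj w hwx hjw
      rw [this] at hwA
      exact h6 hwA
  -- Step 5
  intro A
  constructor
  · intro hA
    rcases A.eq_empty_or_nonempty with h | h
    · exact Or.inl h
    · exact Or.inr ⟨hxA A hA h, hmemM A hA⟩
  · rintro (rfl | ⟨hxA', hAM⟩)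
    · exact h0
    · have key : ∀ S : Finset α, S ⊆ A → S ∪ {x} ∈ F := by
        intro S
        induction S using Finset.induction_on with
        | empty => intro _; simpa using h1x
        | insert v S _ ih =>
          intro hS
          have h1 := ih ((Finset.subset_insert v S).trans hS)
          by_cases hvx : v = x
          · have : insert v S ∪ {x} = S ∪ {x} := by
              ext z
              simp only [Finset.mem_union, Finset.mem_insert, Finset.mem_singleton, hvx]
              tauto
            rw [this]; exact h1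
          · have h2 := hsing v (hAM (hS (Finset.mem_insert_self v S))) hvx
            have h3 := hU _ h1 _ h2
            have : S ∪ {x} ∪ {x, v} = insert v S ∪ {x} := by
              ext z
              simp only [Finset.mem_union, Finset.mem_insert, Finset.mem_singleton]
              tauto
            rwa [this] at h3
      have h1 := key A subset_rfl
      have : A ∪ {x} = A := by
        ext z
        simp only [Finset.mem_union, Finset.mem_singleton]
        constructor
        · rintro (h | rfl)
          · exact h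
          · exact hxA'
        · exact Or.inl
      rwa [this] at h1

end Pool.Agent.Lib.MP_ff7426_co.U3
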