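import Pool.Agent.Lib.MP_ff7426_co.U3.Main

/-!
MP_ff7426_co (helper33): two half-frequent elements in families generated by sets of size two and
three.
-/

set_option autoImplicit false

namespace Pool.Agent.Lib.MP_ff7426_co.U3

variable {α : Type*} [DecidableEq α]

/-- the family with the empty set is the family of all unions of irreducible members -/
theorem cov_insert (F J : Finset (Finset α)) (hU : Uc F) (hJ : ∀ A, A ∈ J ↔ Irr F A) :
    ∀ W, W ∈ insert ∅ F ↔ Cov J W := by
  intro W
  rw [Finset.mem_insert]
  constructor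
  · rintro (rfl | hW)
    · intro v hv
      exact absurd hv (by simp)
    · exact cov_irr F J hJ W.card W hW rfl
  · intro hc
    rcases W.eq_empty_or_nonempty with h | h
    · exact Or.inl h
    · exact Or.inr (mem_of_cov F J hU (fun A hA => ((hJ A).1 hA).1) W hc h)

/-- a generator containing `x` when all generators do -/
theorem pair_all (F J : Finset (Finset α)) (hF : ∀ W, W ∈ F ↔ Cov J W) (x : α)
    (hall : ∀ h ∈ J, x ∈ h) (hx : {x} ∉ F) (h : Finset α) (hh : h ∈ J) (a b : α)
    (hax : a ≠ x) (hbx : b ≠ x) (ha : a ∈ h) (hb : b ∈ h) (hab : ∀ v ∈ h, v = x ∨ v = a ∨ v = b) :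
    0 ≤ ex F a + ex F b := by
  have hU := uc_of_cov F J hF
  have hhF := mem_of_gen F J hF h hh
  have hxm : ∀ A ∈ F, A.Nonempty → x ∈ A := by
    intro A hA hne
    obtain ⟨v, hv⟩ := hne
    obtain ⟨j, hj, _, hjA⟩ := (hF A).1 hA v hv
    exact hjA (hall j hj)
  rw [ex_add_card]
  have hc : (F.filter (fun A => a ∉ A ∧ b ∉ A)).card ≤
      (F.filter (fun A => a ∈ A ∧ b ∈ A)).card := by
    refine Finset.card_le_card_of_injOn (fun A => A ∪ h) ?_ ?_
    · intro A hA
      simp only [Finset.coe_filter, Set.mem_ofPred_eq] at hA ⊢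
      exact ⟨hU A hA.1 h hhF, Finset.mem_union_right _ ha, Finset.mem_union_right _ hb⟩
    · have key : ∀ A ∈ F, ∀ B ∈ F, a ∉ A → b ∉ A → a ∉ B → b ∉ B → A ∪ h = B ∪ h → A ⊆ B := by
        intro A hA B hB haA hbA haB hbB hAB v hv
        have h1 : v ∈ B ∪ h := by rw [← hAB]; exact Finset.mem_union_left _ hv
        rcases Finset.mem_union.1 h1 with h2 | h2
        · exact h2
        · rcases hab v h2 with rfl | rfl | rfl
          · -- v = x
            by_cases hBe : B.Nonempty
            · exact hxm B hB hBe
            · exfalso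
              rw [Finset.not_nonempty_iff_eq_empty] at hBe
              subst hBe
              have h3 : A = {v} := by
                ext w
                rw [Finset.mem_singleton]
                constructor
                · intro hw
                  have h4 : w ∈ (∅ : Finset α) ∪ h := by
                    rw [← hAB]; exact Finset.mem_union_left _ hw
                  rw [Finset.empty_union] at h4
                  rcases hab w h4 with h5 | rfl | rfl
                  · exact h5
                  · exact absurd hw haA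
                  · exact absurd hw hbA
                · rintro rfl
                  exact hv
              rw [h3] at hA
              exact hx hA
          · exact absurd hv haA
          · exact absurd hv hbA
      intro A hA B hB hAB
      simp only [Finset.coe_filter, Set.mem_ofPred_eq] at hA hB
      exact Finset.Subset.antisymm
        (key A hA.1 B hB.1 hA.2.1 hA.2.2 hB.2.1 hB.2.2 hAB)
        (key B hB.1 A hA.1 hB.2.1 hB.2.2 hA.2.1 hA.2.2 hAB.symm)
  have : ((F.filter (fun A => a ∉ A ∧ b ∉ A)).card : ℤ) ≤
      (F.filter (fun A => a ∈ A ∧ b ∈ A)).card := by exact_mod_cast hc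
  linarith

theorem other (F J : Finset (Finset α)) (hF : ∀ W, W ∈ F ↔ Cov J W)
    (h3 : ∀ h ∈ J, h.card = 2 ∨ h.card = 3) (hs : ∀ v : α, {v} ∉ F) (hne : J.Nonempty) (x : α) :
    ∃ v, v ≠ x ∧ 0 ≤ ex F v := by
  by_contra hcon
  push Not at hcon
  have hU := uc_of_cov F J hF
  by_cases hmiss : ∃ h ∈ J, x ∉ h
  · have hcard3 : ∀ h ∈ J, x ∉ h → h.card = 3 := by
      intro h hh hxh
      rcases h3 h hh with hc | hc
      · exfalso
        have hhF0 := mem_of_gen F J hF h hh
        obtain ⟨u, v, huv, rfl⟩ := Finset.card_eq_two.1 hc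
        have hux : u ≠ x := by
          rintro rfl
          exact hxh (by simp)
        have hvx : v ≠ x := by
          rintro rfl
          exact hxh (by simp)
        have := pairE F hU {u, v} hhF0 u v (by simp) (by simp) (fun B _ huB hvB => by
          rw [Finset.disjoint_right]
          intro w hw
          simp only [Finset.mem_insert, Finset.mem_singleton] at hw
          rcases hw with rfl | rfl <;> assumption)
        have h3 := hcon u hux
        have h4 := hcon v hvx
        linarith
      · exact hc
    obtain ⟨v, hvx, hv⟩ := main F J hF x hcard3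
      (fun j hj _ _ => by rcases h3 j hj with h | h <;> omega) hmiss
    have := hcon v hvx
    linarith
  · push Not at hmiss
    obtain ⟨h, hh⟩ := hne
    have hxh := hmiss h hh
    rcases h3 h hh with hc | hc
    · have h1 : (h.erase x).card = 1 := by rw [Finset.card_erase_of_mem hxh, hc]
      obtain ⟨a, ha⟩ := Finset.card_eq_one.1 h1
      have hah : a ∈ h.erase x := by rw [ha]; simp
      rw [Finset.mem_erase] at hah
      have := pair_all F J hF x hmiss (hs x) h hh a a hah.1 hah.1 hah.2 hah.2 (by
        intro v hv
        by_cases hvx : v = x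
        · exact Or.inl hvx
        · have : v ∈ h.erase x := Finset.mem_erase.2 ⟨hvx, hv⟩
          rw [ha, Finset.mem_singleton] at this
          exact Or.inr (Or.inl this))
      have h5 := hcon a hah.1
      linarith
    · obtain ⟨a, b, hxa, hxb, _, rfl⟩ := triB h hc x hxh
      have := pair_all F J hF x hmiss (hs x) _ hh a b hxa.symm hxb.symm (by simp) (by simp) (by
        intro v hv
        simpa using hv)
      have h5 := hcon a hxa.symm
      have h6 := hcon b hxb.symm
      linarith

/-- Families generated by sets of size two and three have two half-frequent elements. -/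
theorem two_half (F : Finset (Finset α)) (hU : Uc F) (h3 : ∀ A, Irr F A → A.card ≤ 3)
    (hs : ∀ A ∈ F, A.card ≠ 1) (hne : ∃ A ∈ F, A.Nonempty) :
    ∃ x ∈ F.sup id, ∃ y ∈ F.sup id, x ≠ y ∧
      F.card ≤ 2 * (F.filter (fun A => x ∈ A)).card ∧
      F.card ≤ 2 * (F.filter (fun A => y ∈ A)).card := by
  classical
  set J := F.filter (fun A => Irr F A) with hJdef
  have hJ : ∀ A, A ∈ J ↔ Irr F A := by
    intro A
    rw [hJdef, Finset.mem_filter]
    exact ⟨fun h => h.2, fun h => ⟨h.1, h⟩⟩
  have hF := cov_insert F J hU hJ
  have h3' : ∀ h ∈ J, h.card = 2 ∨ h.card = 3 := by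
    intro h hh
    have hI := (hJ h).1 hh
    have := h3 h hI
    have := hs h hI.1
    have : 0 < h.card := Finset.card_pos.2 hI.2.1
    omega
  have hs' : ∀ v : α, {v} ∉ insert (∅ : Finset α) F := by
    intro v hv
    rw [Finset.mem_insert] at hv
    rcases hv with hv | hv
    · exact Finset.singleton_ne_empty v hv
    · exact hs _ hv (Finset.card_singleton v)
  have hJne : J.Nonempty := by
    obtain ⟨A, hA, v, hv⟩ := hne
    obtain ⟨j, hj, _⟩ := cov_irr F J hJ A.card A hA rfl v hv
    exact ⟨j, hj⟩
  have hFpos : 0 < F.card := by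
    obtain ⟨A, hA, _⟩ := hne
    exact Finset.card_pos.2 ⟨A, hA⟩
  have conv : ∀ v, 0 ≤ ex (insert ∅ F) v → F.card ≤ 2 * (F.filter (fun A => v ∈ A)).card := by
    intro v hv
    have h4 : 0 ≤ ex F v := by
      by_cases he : (∅ : Finset α) ∈ F
      · rwa [Finset.insert_eq_self.2 he] at hv
      · have : ex (insert ∅ F) v = -1 + ex F v := by
          unfold ex
          rw [Finset.sum_insert he]
          simp
        linarith
    rw [ex_eq_card] at h4
    have := Finset.card_filter_add_card_filter_not (s := F) (fun A => v ∈ A)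
    omega
  have hsup : ∀ v, F.card ≤ 2 * (F.filter (fun A => v ∈ A)).card → v ∈ F.sup id := by
    intro v hv
    have h4 : 0 < (F.filter (fun A => v ∈ A)).card := by omega
    obtain ⟨A, hA⟩ := Finset.card_pos.1 h4
    rw [Finset.mem_filter] at hA
    exact Finset.le_sup (f := id) hA.1 hA.2
  obtain ⟨j, hj⟩ := hJne
  obtain ⟨v0, _⟩ := ((hJ j).1 hj).2.1
  obtain ⟨v1, _, h1⟩ := other _ J hF h3' hs' ⟨j, hj⟩ v0
  obtain ⟨v2, h21, h2⟩ := other _ J hF h3' hs' ⟨j, hj⟩ v1
  exact ⟨v1, hsup _ (conv _ h1), v2, hsup _ (conv _ h2), h21.symm, conv _ h1, conv _ h2⟩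

end Pool.Agent.Lib.MP_ff7426_co.U3
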